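import Mathlib
import Pool.Agent.Lib.MP_90b327_co.Interface
import Pool.Agent.Lib.MP_90b327_co.RB.RDefs
import Pool.Agent.Lib.MP_90b327_co.RB.ToTwoA

/-!
Definitions for Theorem EXB (near-squares with equal sides), MP_90b327_co. Text: /team-store/PHJ_EXB.md
-/

set_option autoImplicit false

namespace Pool.Agent.Lib.MP_90b327_co.EX

open Finset MeasureTheory Pool.Agent.Lib.MP_90b327_co Pool.Agent.Lib.MP_90b327_co.RB

/-! ### families and the limit functional -/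

/-- `γ`, `γ'` have the same size, at least `M`, and `γ'` has at most `w |γ|` elements outside `γ` -/
def NearX (M : ℕ) (w : ℕ → ℕ) {α : Type} [DecidableEq α] (γ γ' : Finset α) : Prop :=
  M ≤ γ.card ∧ γ'.card = γ.card ∧ (γ' \ γ).card ≤ w γ.card

/-- `S` contains `A` and `A ∪ γ × γ'` for a near pair -/
def GoodX (M : ℕ) (w : ℕ → ℕ) (N : ℕ) (S : Finset (Finset (Fin 2 → Fin N))) : Prop :=
  ∃ A ∈ S, ∃ γ γ' : Finset (Fin N), NearX M w γ γ' ∧ Disjoint A (bx γ γ') ∧ A ∪ bx γ γ' ∈ S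

/-- limiting pair correlations; same fields as `LimFun 2 δ` except the last one -/
structure XLim (M : ℕ) (w : ℕ → ℕ) (δ : ℝ) where
  G : (K : ℕ) → Pat 2 K → Pat 2 K → ℝ
  symm : ∀ K X Y, G K X Y = G K Y X
  nonneg : ∀ K X Y, 0 ≤ G K X Y
  diag : ∀ K X, G K X X = δ
  ext : ∀ (K K' : ℕ) (ι : Fin K → Fin K'), Function.Injective ι → ∀ X Y : Pat 2 K',
    (∀ c : Fin 2 → Fin K', (¬ ∃ c' : Fin 2 → Fin K, c = ι ∘ c') → X c = Y c) →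
      G K' X Y = G K (fun c => X (ι ∘ c)) (fun c => Y (ι ∘ c))
  psd : ∀ (K n : ℕ) (X : Fin n → Pat 2 K) (a : Fin n → ℝ) (a₀ : ℝ),
    0 ≤ a₀ ^ 2 + 2 * a₀ * (∑ i, a i) * δ + ∑ i, ∑ j, a i * a j * G K (X i) (X j)
  bad : ∀ (K : ℕ) (X Y : Pat 2 K) (γ γ' : Finset (Fin K)), NearX M w γ γ' →
    (∀ c : Fin 2 → Fin K, c 0 ∈ γ → c 1 ∈ γ' → X c = false) →
    (∀ c : Fin 2 → Fin K, c 0 ∈ γ → c 1 ∈ γ' → Y c = true) →
    (∀ c : Fin 2 → Fin K, ¬ (c 0 ∈ γ ∧ c 1 ∈ γ') → Y c = X c) → G K X Y = 0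

/-- the limit kernel on finite patterns of `ℕ × ℕ`; rows and columns are the SAME vertices -/
structure JK (D : ℝ) (g : Pt → Pt → ℝ) : Prop where
  symm : ∀ X Y, g X Y = g Y X
  diag : ∀ X, g X X = D
  psd : ∀ (ι : Type) [Fintype ι] (X : ι → Pt) (a : ι → ℝ),
    D ^ 2 * (∑ i, a i) ^ 2 ≤ ∑ i, ∑ j, a i * a j * g (X i) (X j)
  inv : ∀ σ : ℕ → ℕ, Function.Injective σ → ∀ X Y, g (rl σ σ X) (rl σ σ Y) = g X Y
  rem : ∀ (X Y : Pt) (v : ℕ), (∀ c : ℕ × ℕ, (c.1 = v ∨ c.2 = v) → (c ∈ X ↔ c ∈ Y)) →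
    g X Y = g (X.filter (fun c => c.1 ≠ v ∧ c.2 ≠ v)) (Y.filter (fun c => c.1 ≠ v ∧ c.2 ≠ v))

/-- the joint limit kernel of a family without good pairs -/
structure XJK (M : ℕ) (w : ℕ → ℕ) (D : ℝ) (g : Pt → Pt → ℝ) : Prop extends JK D g where
  bad : ∀ (X : Pt) (I J : Finset ℕ), NearX M w I J → Disjoint X (I ×ˢ J) → g X (X ∪ I ×ˢ J) = 0

/-! ### joint multiplicative kernels -/

/-- relation of the joint kernel: a vertex on which the patterns agree is emptied, the vertices are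
relabelled, a common cell is inserted whose transposed cell is not a difference cell -/
def RJ (X Y X' Y' : Pt) : Prop :=
  (∃ v : ℕ, (∀ c : ℕ × ℕ, (c.1 = v ∨ c.2 = v) → (c ∈ X ↔ c ∈ Y)) ∧
    X' = X.filter (fun c => c.1 ≠ v ∧ c.2 ≠ v) ∧ Y' = Y.filter (fun c => c.1 ≠ v ∧ c.2 ≠ v)) ∨
  (∃ σ : ℕ → ℕ, Function.Injective σ ∧ X' = rl σ σ X ∧ Y' = rl σ σ Y) ∨
  (∃ c : ℕ × ℕ, c.1 ≠ c.2 ∧ c ∉ X ∧ c ∉ Y ∧ (c.swap ∈ X ↔ c.swap ∈ Y) ∧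
    X' = insert c X ∧ Y' = insert c Y)

/-- merging: even vertices, odd vertices -/
def mJ (X A : Pt) : Pt :=
  rl (fun i => 2 * i) (fun i => 2 * i) X ∪ rl (fun i => 2 * i + 1) (fun i => 2 * i + 1) A

/-- joint characters: multiplicative kernels of level one -/
structure JCh (θ : Pt → Pt → ℂ) : Prop where
  ker : Ker RJ θ
  mul : ∀ X Y A B, θ (mJ X A) (mJ Y B) = θ X Y * θ A B

/-- restriction to even rows and odd columns -/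
def bip (θ : Pt → Pt → ℂ) (X Y : Pt) : ℂ :=
  θ (rl (fun i => 2 * i) (fun j => 2 * j + 1) X) (rl (fun i => 2 * i) (fun j => 2 * j + 1) Y)

/-- value at the difference `(Γ ∪ A') × C` over the base `B₀ × C`, `C = B₀ ∪ Γ ∪ H` -/
def qv (θ : Pt → Pt → ℂ) (B₀ Γ A' H : Finset ℕ) : ℂ :=
  θ (B₀ ×ˢ (B₀ ∪ Γ ∪ H)) ((B₀ ∪ Γ ∪ A') ×ˢ (B₀ ∪ Γ ∪ H))

/-- the same for disjoint blocks of sizes `b m s e` -/
def QQ (θ : Pt → Pt → ℂ) (b m s e : ℕ) : ℂ :=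
  qv θ (range b) (Ico b (b + m)) (Ico (b + m) (b + m + s)) (Ico (b + m + s) (b + m + s + e))

/-- the rows `S'` in the first pattern, the rows `S` in the second one, common rows `B₀`;
columns `C = B₀ ∪ Γ ∪ H` -/
def vw (θ : Pt → Pt → ℂ) (B₀ Γ H S' S : Finset ℕ) : ℂ :=
  θ ((B₀ ∪ S') ×ˢ (B₀ ∪ Γ ∪ H)) ((B₀ ∪ S) ×ˢ (B₀ ∪ Γ ∪ H))

/-- the same for disjoint blocks of sizes `b m e s s` -/
def VV (θ : Pt → Pt → ℂ) (b m e s : ℕ) : ℂ :=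
  vw θ (range b) (Ico b (b + m)) (Ico (b + m) (b + m + e)) (Ico (b + m + e) (b + m + e + s))
    (Ico (b + m + e + s) (b + m + e + s + s))

/-- far and near columns give almost the same value -/
def S4 (θ : Pt → Pt → ℂ) (q : ℕ) : Prop :=
  ∀ ε : ℝ, 0 < ε → ∃ M : ℕ, ∀ b m s e e' : ℕ, q ∣ b → q ∣ m → q ∣ s → q ∣ e → q ∣ e' →
    M ≤ m + s → M ≤ e → M ≤ e' → ‖QQ θ b m s e - QQ θ b m s e'‖ ≤ ε

/-- the values at the exact near-squares are small in the mean -/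
def S3 (θ : Pt → Pt → ℂ) (q : ℕ) : Prop :=
  ∀ ε : ℝ, 0 < ε → ∀ b m₀ s₀ M : ℕ, q ∣ b → q ∣ m₀ → q ∣ s₀ → b ≤ s₀ →
    ∃ K₀ : ℕ, ∀ K : ℕ, K₀ ≤ K → ∃ l₀ : ℕ, ∀ l : ℕ, l₀ ≤ l →
      ‖∑ x ∈ Ico M (M + l), ∑ y ∈ Ico M (M + K),
        QQ θ b (m₀ + q * x) (s₀ + q * y) (s₀ + q * y - b)‖ ≤ ε * l * K

end Pool.Agent.Lib.MP_90b327_co.EX
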