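import Mathlib
import Pool.Agent.Lib.MP_90b327_co.EX.EDefs
import Pool.Agent.Lib.MP_90b327_co.RB.RepA

/-!
MODULE EFacts. Text section 4: facts for joint characters.
-/

set_option autoImplicit false

namespace Pool.Agent.Lib.MP_90b327_co.EX

open Finset MeasureTheory Pool.Agent.Lib.MP_90b327_co Pool.Agent.Lib.MP_90b327_co.RB

theorem exists_inj (n : ℕ) (u v : Fin n → Finset ℕ) (hu : ∀ k l, k ≠ l → Disjoint (u k) (u l))
    (hv : ∀ k l, k ≠ l → Disjoint (v k) (v l)) (hc : ∀ k, (u k).card = (v k).card) :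
    ∃ σ : ℕ → ℕ, Function.Injective σ ∧ ∀ k, (u k).image σ = v k := by
  classical
  obtain ⟨B, hB⟩ : ∃ B : ℕ, ∀ k, ∀ a ∈ v k, a < B :=
    ⟨(univ.biUnion v).sup id + 1, fun k a ha => Nat.lt_succ_of_le
      (Finset.le_sup (f := id) (mem_biUnion.2 ⟨k, mem_univ k, ha⟩))⟩
  let e : ∀ k, u k ≃ v k := fun k => Finset.equivOfCardEq (hc k)
  let σ : ℕ → ℕ := fun m => if h : ∃ k, m ∈ u k then ((e h.choose ⟨m, h.choose_spec⟩ : v h.choose) : ℕ)
    else m + B
  have h1 : ∀ k m (hm : m ∈ u k), σ m = ((e k ⟨m, hm⟩ : v k) : ℕ) := by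
    intro k m hm
    have h : ∃ k, m ∈ u k := ⟨k, hm⟩
    have hk : h.choose = k := by
      by_contra hne
      exact Finset.disjoint_left.1 (hu _ _ hne) h.choose_spec hm
    have h2 : ∀ k' (hk' : m ∈ u k'), k' = k → ((e k' ⟨m, hk'⟩ : v k') : ℕ) = ((e k ⟨m, hm⟩ : v k) : ℕ) := by
      rintro k' hk' rfl
      rfl
    simp only [σ]
    rw [dif_pos h]
    exact h2 _ h.choose_spec hk
  have h2 : ∀ m, (¬ ∃ k, m ∈ u k) → σ m = m + B := by
    intro m hm
    simp only [σ]
    rw [dif_neg hm]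
  have h3 : ∀ k m, m ∈ u k → σ m ∈ v k := by
    intro k m hm
    rw [h1 k m hm]
    exact Finset.coe_mem _
  refine ⟨σ, ?_, ?_⟩
  · intro m m' hmm
    by_cases hm : ∃ k, m ∈ u k
    · obtain ⟨k, hk⟩ := hm
      by_cases hm' : ∃ k, m' ∈ u k
      · obtain ⟨l, hl⟩ := hm'
        by_cases hkl : k = l
        · subst hkl
          rw [h1 k m hk, h1 k m' hl] at hmm
          have h4 := (e k).injective (Subtype.ext hmm)
          exact congrArg Subtype.val h4
        · exact (Finset.disjoint_left.1 (hv k l hkl) (h3 k m hk) (hmm ▸ h3 l m' hl)).elim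
      · have h4 := hB k _ (h3 k m hk)
        rw [hmm, h2 m' hm'] at h4
        omega
    · by_cases hm' : ∃ k, m' ∈ u k
      · obtain ⟨l, hl⟩ := hm'
        have h4 := hB l _ (h3 l m' hl)
        rw [← hmm, h2 m hm] at h4
        omega
      · rw [h2 m hm, h2 m' hm'] at hmm
        omega
  · intro k
    ext a
    rw [mem_image]
    constructor
    · rintro ⟨m, hm, rfl⟩
      exact h3 k m hm
    · intro ha
      obtain ⟨m, hm⟩ : ∃ m : u k, m = (e k).symm ⟨a, ha⟩ := ⟨_, rfl⟩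
      refine ⟨m.1, m.2, ?_⟩
      rw [h1 k m.1 m.2, Subtype.coe_eta, hm, Equiv.apply_symm_apply]

theorem rl_prod (σ τ : ℕ → ℕ) (A B : Finset ℕ) : rl σ τ (A ×ˢ B) = A.image σ ×ˢ B.image τ := by
  ext ⟨a, b⟩
  simp only [rl, Finset.mem_image, Finset.mem_product, Prod.mk.injEq, Prod.exists]
  constructor
  · rintro ⟨i, j, ⟨hi, hj⟩, rfl, rfl⟩
    exact ⟨⟨i, hi, rfl⟩, ⟨j, hj, rfl⟩⟩
  · rintro ⟨⟨i, hi, rfl⟩, ⟨j, hj, rfl⟩⟩
    exact ⟨i, j, ⟨hi, hj⟩, rfl, rfl⟩

theorem rl_un (σ τ : ℕ → ℕ) (X Y : Pt) : rl σ τ (X ∪ Y) = rl σ τ X ∪ rl σ τ Y :=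
  Finset.image_union _ _

theorem rl_rl (σ τ σ' τ' : ℕ → ℕ) (X : Pt) :
    rl σ' τ' (rl σ τ X) = rl (fun i => σ' (σ i)) (fun j => τ' (τ j)) X := by
  unfold rl
  rw [Finset.image_image]
  rfl

theorem mem_rl (σ τ : ℕ → ℕ) (X : Pt) (c : ℕ × ℕ) :
    c ∈ rl σ τ X ↔ ∃ d ∈ X, (σ d.1, τ d.2) = c := by
  unfold rl
  exact Finset.mem_image

theorem rl_congr (σ τ σ' τ' : ℕ → ℕ) (X : Pt) (h : ∀ c ∈ X, σ c.1 = σ' c.1 ∧ τ c.2 = τ' c.2) :
    rl σ τ X = rl σ' τ' X := by
  unfold rl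
  apply Finset.image_congr
  intro c hc
  have := h c hc
  simp only [this.1, this.2]

theorem perm {θ : Pt → Pt → ℂ} (h : JCh θ) (σ : ℕ → ℕ) (hσ : Function.Injective σ) (X Y : Pt) :
    θ (rl σ σ X) (rl σ σ Y) = θ X Y :=
  (h.ker.rel _ _ _ _ (Or.inr (Or.inl ⟨σ, hσ, rfl, rfl⟩))).symm

theorem ext_one {θ : Pt → Pt → ℂ} (h : JCh θ) (v : ℕ) (X Y : Pt)
    (hXY : ∀ c : ℕ × ℕ, (c.1 = v ∨ c.2 = v) → (c ∈ X ↔ c ∈ Y)) :
    θ X Y = θ (X.filter (fun c => c.1 ≠ v ∧ c.2 ≠ v)) (Y.filter (fun c => c.1 ≠ v ∧ c.2 ≠ v)) :=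
  h.ker.rel _ _ _ _ (Or.inl ⟨v, hXY, rfl, rfl⟩)

/-- the vertices in `V`, on which the patterns agree, are emptied -/
theorem ext_out {θ : Pt → Pt → ℂ} (h : JCh θ) (V : Finset ℕ) (X Y : Pt)
    (hXY : ∀ c : ℕ × ℕ, (c.1 ∈ V ∨ c.2 ∈ V) → (c ∈ X ↔ c ∈ Y)) :
    θ X Y = θ (X.filter (fun c => c.1 ∉ V ∧ c.2 ∉ V)) (Y.filter (fun c => c.1 ∉ V ∧ c.2 ∉ V)) := by
  classical
  induction V using Finset.induction_on with
  | empty =>
    have e : ∀ Z : Pt, Z.filter (fun c => c.1 ∉ (∅ : Finset ℕ) ∧ c.2 ∉ (∅ : Finset ℕ)) = Z := by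
      intro Z
      apply Finset.filter_true_of_mem
      intro c _
      exact ⟨Finset.notMem_empty _, Finset.notMem_empty _⟩
    rw [e, e]
  | insert v V hv ih =>
    rw [ih (fun c hc => hXY c (by
      rcases hc with hc | hc
      · exact Or.inl (Finset.mem_insert_of_mem hc)
      · exact Or.inr (Finset.mem_insert_of_mem hc)))]
    rw [ext_one h v]
    · have e : ∀ Z : Pt, (Z.filter (fun c => c.1 ∉ V ∧ c.2 ∉ V)).filter (fun c => c.1 ≠ v ∧ c.2 ≠ v) =
          Z.filter (fun c => c.1 ∉ insert v V ∧ c.2 ∉ insert v V) := by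
        intro Z
        rw [Finset.filter_filter]
        apply Finset.filter_congr
        intro c _
        rw [Finset.mem_insert, Finset.mem_insert]
        tauto
      rw [e, e]
    · intro c hc
      rw [Finset.mem_filter, Finset.mem_filter, hXY c (by
        rcases hc with hc | hc
        · exact Or.inl (hc ▸ Finset.mem_insert_self _ _)
        · exact Or.inr (hc ▸ Finset.mem_insert_self _ _))]

/-- patterns which agree outside `J × J` -/
theorem ext_set {θ : Pt → Pt → ℂ} (h : JCh θ) (J : Finset ℕ) (X Y : Pt)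
    (hXY : ∀ c : ℕ × ℕ, ¬ (c.1 ∈ J ∧ c.2 ∈ J) → (c ∈ X ↔ c ∈ Y)) :
    θ X Y = θ (X ∩ J ×ˢ J) (Y ∩ J ×ˢ J) := by
  classical
  obtain ⟨V, hV⟩ : ∃ V : Finset ℕ, V = (X.image Prod.fst ∪ X.image Prod.snd ∪ Y.image Prod.fst ∪
    Y.image Prod.snd) \ J := ⟨_, rfl⟩
  rw [ext_out h V X Y (by
    intro c hc
    apply hXY
    rintro ⟨h1, h2⟩
    rcases hc with hc | hc
    · rw [hV, Finset.mem_sdiff] at hc
      exact hc.2 h1
    · rw [hV, Finset.mem_sdiff] at hc
      exact hc.2 h2)]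
  have e : ∀ Z : Pt, (∀ c ∈ Z, c ∈ X ∨ c ∈ Y) →
      Z.filter (fun c => c.1 ∉ V ∧ c.2 ∉ V) = Z ∩ J ×ˢ J := by
    intro Z hZ
    ext c
    rw [Finset.mem_filter, Finset.mem_inter, Finset.mem_product, hV, Finset.mem_sdiff,
      Finset.mem_sdiff]
    constructor
    · rintro ⟨h1, h2, h3⟩
      refine ⟨h1, ?_, ?_⟩
      · by_contra h4
        apply h2
        refine ⟨?_, h4⟩
        rcases hZ c h1 with h5 | h5
        · simp only [Finset.mem_union, Finset.mem_image]
          exact Or.inl (Or.inl (Or.inl ⟨c, h5, rfl⟩))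
        · simp only [Finset.mem_union, Finset.mem_image]
          exact Or.inl (Or.inr ⟨c, h5, rfl⟩)
      · by_contra h4
        apply h3
        refine ⟨?_, h4⟩
        rcases hZ c h1 with h5 | h5
        · simp only [Finset.mem_union, Finset.mem_image]
          exact Or.inl (Or.inl (Or.inr ⟨c, h5, rfl⟩))
        · simp only [Finset.mem_union, Finset.mem_image]
          exact Or.inr ⟨c, h5, rfl⟩
    · rintro ⟨h1, h2, h3⟩
      exact ⟨h1, fun h4 => h4.2 h2, fun h4 => h4.2 h3⟩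
  rw [e X (fun c hc => Or.inl hc), e Y (fun c hc => Or.inr hc)]

theorem mul_disj {θ : Pt → Pt → ℂ} (h : JCh θ) (V W : Finset ℕ) (hVW : Disjoint V W) (X Y A B : Pt)
    (hX : X ⊆ V ×ˢ V) (hY : Y ⊆ V ×ˢ V) (hA : A ⊆ W ×ˢ W) (hB : B ⊆ W ×ˢ W) :
    θ (X ∪ A) (Y ∪ B) = θ X Y * θ A B := by
  classical
  obtain ⟨σ, hσ⟩ : ∃ σ : ℕ → ℕ, σ = fun v => if v ∈ V then 2 * v else 2 * v + 1 := ⟨_, rfl⟩
  have hinj : Function.Injective σ := by
    intro v w hvw
    rw [hσ] at hvw
    simp only at hvw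
    split_ifs at hvw <;> omega
  have e1 : ∀ Z : Pt, Z ⊆ V ×ˢ V → rl σ σ Z = rl (fun i => 2 * i) (fun i => 2 * i) Z := by
    intro Z hZ
    apply rl_congr
    intro c hc
    have := Finset.mem_product.mp (hZ hc)
    rw [hσ]
    simp only [this.1, this.2, if_true, and_self]
  have e2 : ∀ Z : Pt, Z ⊆ W ×ˢ W → rl σ σ Z = rl (fun i => 2 * i + 1) (fun i => 2 * i + 1) Z := by
    intro Z hZ
    apply rl_congr
    intro c hc
    have := Finset.mem_product.mp (hZ hc)
    have h1 : c.1 ∉ V := fun h2 => Finset.disjoint_left.mp hVW h2 this.1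
    have h3 : c.2 ∉ V := fun h2 => Finset.disjoint_left.mp hVW h2 this.2
    rw [hσ]
    simp only [h1, h3, if_false, and_self]
  have h1 := perm h σ hinj (X ∪ A) (Y ∪ B)
  rw [rl_un, rl_un, e1 X hX, e1 Y hY, e2 A hA, e2 B hB] at h1
  rw [← h1]
  exact h.mul X Y A B

theorem th_le {θ : Pt → Pt → ℂ} (h : JCh θ) (X Y : Pt) : ‖θ X Y‖ ≤ 1 := ker_norm_le h.ker X Y


private theorem mem_bp (X : Pt) (c : ℕ × ℕ) :
    c ∈ rl (fun i => 2 * i) (fun j => 2 * j + 1) X ↔ ∃ d ∈ X, (2 * d.1, 2 * d.2 + 1) = c :=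
  mem_rl _ _ X c

private theorem bp_insert (X : Pt) (c : ℕ × ℕ) :
    rl (fun i => 2 * i) (fun j => 2 * j + 1) (insert c X) =
      insert (2 * c.1, 2 * c.2 + 1) (rl (fun i => 2 * i) (fun j => 2 * j + 1) X) := by
  unfold rl
  exact Finset.image_insert _ _ _

theorem bip_chr {θ : Pt → Pt → ℂ} (h : JCh θ) : Chr (bip θ) := by
  refine ⟨⟨fun X => h.ker.one _, fun X Y => h.ker.herm _ _, ?_, ?_⟩, ?_⟩
  · intro ι _ X c
    exact h.ker.psd ι (fun i => rl (fun i => 2 * i) (fun j => 2 * j + 1) (X i)) c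
  · intro X Y X' Y' hR
    rcases hR with ⟨c, hX, hY, rfl, rfl⟩ | ⟨σ, τ, hσ, hτ, rfl, rfl⟩
    · unfold bip
      rw [bp_insert, bp_insert]
      refine h.ker.rel _ _ _ _ (Or.inr (Or.inr ⟨(2 * c.1, 2 * c.2 + 1), ?_, ?_, ?_, ?_, rfl, rfl⟩))
      · simp only
        omega
      · rw [mem_bp]
        rintro ⟨d, hd, hdc⟩
        rw [Prod.mk.injEq] at hdc
        have e : d = c := Prod.ext (by omega) (by omega)
        exact hX (e ▸ hd)
      · rw [mem_bp]
        rintro ⟨d, hd, hdc⟩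
        rw [Prod.mk.injEq] at hdc
        have e : d = c := Prod.ext (by omega) (by omega)
        exact hY (e ▸ hd)
      · rw [mem_bp, mem_bp]
        constructor
        · rintro ⟨d, hd, hdc⟩
          rw [Prod.swap_prod_mk, Prod.mk.injEq] at hdc
          omega
        · rintro ⟨d, hd, hdc⟩
          rw [Prod.swap_prod_mk, Prod.mk.injEq] at hdc
          omega
    · unfold bip
      rw [rl_rl, rl_rl]
      obtain ⟨ρ, hρ⟩ : ∃ ρ : ℕ → ℕ, ρ = fun v => if v % 2 = 0 then 2 * σ (v / 2)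
        else 2 * τ (v / 2) + 1 := ⟨_, rfl⟩
      have hinj : Function.Injective ρ := by
        intro v w hvw
        rw [hρ] at hvw
        simp only at hvw
        split_ifs at hvw with h1 h2 h2
        · have h3 : σ (v / 2) = σ (w / 2) := by omega
          have h4 := hσ h3
          omega
        · omega
        · omega
        · have h3 : τ (v / 2) = τ (w / 2) := by omega
          have h4 := hτ h3
          omega
      have e : ∀ Z : Pt, rl (fun i => 2 * σ i) (fun j => 2 * τ j + 1) Z =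
          rl ρ ρ (rl (fun i => 2 * i) (fun j => 2 * j + 1) Z) := by
        intro Z
        rw [rl_rl]
        apply rl_congr
        intro c _
        rw [hρ]
        constructor
        · have h1 : 2 * c.1 % 2 = 0 := by omega
          have h2 : 2 * c.1 / 2 = c.1 := by omega
          simp only [h1, h2, if_true]
        · have h1 : ¬ (2 * c.2 + 1) % 2 = 0 := by omega
          have h2 : (2 * c.2 + 1) / 2 = c.2 := by omega
          simp only [h1, h2, if_false]
      rw [e, e]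
      exact (perm h ρ hinj _ _).symm
  · intro X Y A B
    unfold bip m1
    rw [rl_un, rl_un, rl_rl, rl_rl, rl_rl, rl_rl]
    obtain ⟨N, hN⟩ : ∃ N : ℕ, ∀ c ∈ X ∪ Y ∪ A ∪ B, c.1 < N ∧ c.2 < N := by
      refine ⟨(X ∪ Y ∪ A ∪ B).sup (fun c => max c.1 c.2) + 1, fun c hc => ?_⟩
      have h1 : max c.1 c.2 ≤ (X ∪ Y ∪ A ∪ B).sup (fun c => max c.1 c.2) :=
        Finset.le_sup (f := fun c : ℕ × ℕ => max c.1 c.2) hc
      have h2 := le_max_left c.1 c.2
      have h3 := le_max_right c.1 c.2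
      omega
    obtain ⟨V, hV⟩ : ∃ V : Finset ℕ, V = (range (4 * N + 4)).filter (fun v => v % 4 < 2) := ⟨_, rfl⟩
    obtain ⟨W, hW⟩ : ∃ W : Finset ℕ, W = (range (4 * N + 4)).filter (fun v => 2 ≤ v % 4) := ⟨_, rfl⟩
    have hVW : Disjoint V W := by
      rw [Finset.disjoint_left, hV, hW]
      intro v h1 h2
      rw [Finset.mem_filter] at h1 h2
      omega
    have hsV : ∀ Z : Pt, (∀ c ∈ Z, c.1 < N ∧ c.2 < N) →
        rl (fun i => 2 * (2 * i)) (fun j => 2 * (2 * j) + 1) Z ⊆ V ×ˢ V := by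
      intro Z hZ c hc
      rw [mem_rl] at hc
      obtain ⟨d, hd, rfl⟩ := hc
      have := hZ d hd
      rw [Finset.mem_product, hV, Finset.mem_filter, Finset.mem_filter, Finset.mem_range,
        Finset.mem_range]
      simp only
      omega
    have hsW : ∀ Z : Pt, (∀ c ∈ Z, c.1 < N ∧ c.2 < N) →
        rl (fun i => 2 * (2 * i + 1)) (fun j => 2 * (2 * j + 1) + 1) Z ⊆ W ×ˢ W := by
      intro Z hZ c hc
      rw [mem_rl] at hc
      obtain ⟨d, hd, rfl⟩ := hc
      have := hZ d hd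
      rw [Finset.mem_product, hW, Finset.mem_filter, Finset.mem_filter, Finset.mem_range,
        Finset.mem_range]
      simp only
      omega
    rw [mul_disj h V W hVW _ _ _ _ (hsV X fun c hc => hN c (by simp [hc]))
      (hsV Y fun c hc => hN c (by simp [hc])) (hsW A fun c hc => hN c (by simp [hc]))
      (hsW B fun c hc => hN c (by simp [hc]))]
    obtain ⟨ρ, hρ⟩ : ∃ ρ : ℕ → ℕ, ρ = fun v => 4 * (v / 2) + v % 2 := ⟨_, rfl⟩
    have hinj : Function.Injective ρ := by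
      intro v w hvw
      rw [hρ] at hvw
      simp only at hvw
      omega
    obtain ⟨ρ', hρ'⟩ : ∃ ρ' : ℕ → ℕ, ρ' = fun v => 4 * (v / 2) + v % 2 + 2 := ⟨_, rfl⟩
    have hinj' : Function.Injective ρ' := by
      intro v w hvw
      rw [hρ'] at hvw
      simp only at hvw
      omega
    have e : ∀ Z : Pt, rl (fun i => 2 * (2 * i)) (fun j => 2 * (2 * j) + 1) Z =
        rl ρ ρ (rl (fun i => 2 * i) (fun j => 2 * j + 1) Z) := by
      intro Z
      rw [rl_rl]
      apply rl_congr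
      intro c _
      rw [hρ]
      simp only
      omega
    have e' : ∀ Z : Pt, rl (fun i => 2 * (2 * i + 1)) (fun j => 2 * (2 * j + 1) + 1) Z =
        rl ρ' ρ' (rl (fun i => 2 * i) (fun j => 2 * j + 1) Z) := by
      intro Z
      rw [rl_rl]
      apply rl_congr
      intro c _
      rw [hρ']
      simp only
      omega
    rw [e X, e Y, e' A, e' B, perm h ρ hinj, perm h ρ' hinj']

private theorem nest4 (B G A H : Finset ℕ) (h1 : Disjoint B G) (h2 : Disjoint (B ∪ G) A)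
    (h3 : Disjoint (B ∪ G ∪ A) H) : ∀ k l : Fin 4, k ≠ l →
      Disjoint ((![B, G, A, H] : Fin 4 → Finset ℕ) k) ((![B, G, A, H] : Fin 4 → Finset ℕ) l) := by
  rw [Finset.disjoint_union_left] at h2 h3
  rw [Finset.disjoint_union_left] at h3
  obtain ⟨h4, h5⟩ := h2
  obtain ⟨⟨h6, h7⟩, h8⟩ := h3
  intro k l hkl
  fin_cases k <;> fin_cases l
  · exact absurd rfl hkl
  · exact h1
  · exact h4
  · exact h6
  · exact h1.symm
  · exact absurd rfl hkl
  · exact h5
  · exact h7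
  · exact h4.symm
  · exact h5.symm
  · exact absurd rfl hkl
  · exact h8
  · exact h6.symm
  · exact h7.symm
  · exact h8.symm
  · exact absurd rfl hkl

theorem qv_eq {θ : Pt → Pt → ℂ} (h : JCh θ) (B₀ Γ A' H : Finset ℕ) (h1 : Disjoint B₀ Γ)
    (h2 : Disjoint (B₀ ∪ Γ) A') (h3 : Disjoint (B₀ ∪ Γ ∪ A') H) :
    qv θ B₀ Γ A' H = QQ θ B₀.card Γ.card A'.card H.card := by
  set b := B₀.card with hb
  set m := Γ.card with hm
  set s := A'.card with hs
  set e := H.card with he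
  obtain ⟨σ, hσ, hk⟩ := exists_inj 4 ![range b, Ico b (b + m), Ico (b + m) (b + m + s),
    Ico (b + m + s) (b + m + s + e)] ![B₀, Γ, A', H] (nest4 _ _ _ _ (by
      rw [Finset.disjoint_left]
      intro v h1 h2
      rw [Finset.mem_range] at h1
      rw [Finset.mem_Ico] at h2
      omega) (by
      rw [Finset.disjoint_left]
      intro v h1 h2
      rw [Finset.mem_union, Finset.mem_range, Finset.mem_Ico] at h1
      rw [Finset.mem_Ico] at h2
      omega) (by
      rw [Finset.disjoint_left]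
      intro v h1 h2
      rw [Finset.mem_union, Finset.mem_union, Finset.mem_range, Finset.mem_Ico, Finset.mem_Ico] at h1
      rw [Finset.mem_Ico] at h2
      omega)) (nest4 _ _ _ _ h1 h2 h3) (by
      intro k
      fin_cases k
      · simp [hb]
      · simp [hm]
      · simp [hs]
      · simp [he])
  have k0 : (range b).image σ = B₀ := hk 0
  have k1 : (Ico b (b + m)).image σ = Γ := hk 1
  have k2 : (Ico (b + m) (b + m + s)).image σ = A' := hk 2
  have k3 : (Ico (b + m + s) (b + m + s + e)).image σ = H := hk 3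
  unfold QQ qv
  symm
  rw [← perm h σ hσ, rl_prod, rl_prod]
  rw [Finset.image_union, Finset.image_union, Finset.image_union, Finset.image_union, k0, k1, k2, k3]

theorem vw_eq {θ : Pt → Pt → ℂ} (h : JCh θ) (B₀ Γ H S' S : Finset ℕ) (hc : S'.card = S.card)
    (h1 : Disjoint B₀ Γ) (h2 : Disjoint (B₀ ∪ Γ) H) (h3 : Disjoint (B₀ ∪ Γ ∪ H) S')
    (h4 : Disjoint (B₀ ∪ Γ ∪ H ∪ S') S) :
    vw θ B₀ Γ H S' S = VV θ B₀.card Γ.card H.card S.card := by
  have hn5 : ∀ (A0 A1 A2 A3 A4 : Finset ℕ), Disjoint A0 A1 → Disjoint (A0 ∪ A1) A2 →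
      Disjoint (A0 ∪ A1 ∪ A2) A3 → Disjoint (A0 ∪ A1 ∪ A2 ∪ A3) A4 → ∀ k l : Fin 5, k ≠ l →
      Disjoint ((![A0, A1, A2, A3, A4] : Fin 5 → Finset ℕ) k)
        ((![A0, A1, A2, A3, A4] : Fin 5 → Finset ℕ) l) := by
    intro A0 A1 A2 A3 A4 g1 g2 g3 g4
    simp only [Finset.disjoint_union_left] at g2 g3 g4
    obtain ⟨g5, g6⟩ := g2
    obtain ⟨⟨g7, g8⟩, g9⟩ := g3
    obtain ⟨⟨⟨g10, g11⟩, g12⟩, g13⟩ := g4
    intro k l hkl
    fin_cases k <;> fin_cases l
    · exact absurd rfl hkl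
    · exact g1
    · exact g5
    · exact g7
    · exact g10
    · exact g1.symm
    · exact absurd rfl hkl
    · exact g6
    · exact g8
    · exact g11
    · exact g5.symm
    · exact g6.symm
    · exact absurd rfl hkl
    · exact g9
    · exact g12
    · exact g7.symm
    · exact g8.symm
    · exact g9.symm
    · exact absurd rfl hkl
    · exact g13
    · exact g10.symm
    · exact g11.symm
    · exact g12.symm
    · exact g13.symm
    · exact absurd rfl hkl
  set b := B₀.card with hb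
  set m := Γ.card with hm
  set e := H.card with he
  set s := S.card with hs
  obtain ⟨σ, hσ, hk⟩ := exists_inj 5 ![range b, Ico b (b + m), Ico (b + m) (b + m + e),
    Ico (b + m + e) (b + m + e + s), Ico (b + m + e + s) (b + m + e + s + s)] ![B₀, Γ, H, S', S]
    (hn5 _ _ _ _ _ (by
      rw [Finset.disjoint_left]
      intro v h1 h2
      rw [Finset.mem_range] at h1
      rw [Finset.mem_Ico] at h2
      omega) (by
      rw [Finset.disjoint_left]
      intro v h1 h2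
      simp only [Finset.mem_union, Finset.mem_range, Finset.mem_Ico] at h1 h2
      omega) (by
      rw [Finset.disjoint_left]
      intro v h1 h2
      simp only [Finset.mem_union, Finset.mem_range, Finset.mem_Ico] at h1 h2
      omega) (by
      rw [Finset.disjoint_left]
      intro v h1 h2
      simp only [Finset.mem_union, Finset.mem_range, Finset.mem_Ico] at h1 h2
      omega)) (hn5 _ _ _ _ _ h1 h2 h3 h4) (by
      intro k
      fin_cases k
      · simp [hb]
      · simp [hm]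
      · simp [he]
      · simp [hc]
      · simp [hs])
  have k0 : (range b).image σ = B₀ := hk 0
  have k1 : (Ico b (b + m)).image σ = Γ := hk 1
  have k2 : (Ico (b + m) (b + m + e)).image σ = H := hk 2
  have k3 : (Ico (b + m + e) (b + m + e + s)).image σ = S' := hk 3
  have k4 : (Ico (b + m + e + s) (b + m + e + s + s)).image σ = S := hk 4
  unfold VV vw
  symm
  rw [← perm h σ hσ, rl_prod, rl_prod]
  rw [Finset.image_union, Finset.image_union, Finset.image_union, Finset.image_union, k0, k1, k2, k3,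
    k4]

end Pool.Agent.Lib.MP_90b327_co.EX
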