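import Mathlib
import Pool.Agent.Lib.MP_90b327_co.EX.EDefs
import Pool.Agent.Lib.MP_90b327_co.EX.EFacts

/-!
MODULE EChain. Text section 7: positivity along the chain, and the near values.

PROOFS.
`chain_pos`: vertices: full block `[0, G t)`, row-only block `[G t, G t + A t)`, column-only block `[G t + A t, G t + A t + f)`.
`R i = range (G i) ∪ Ico (G t) (G t + A i)`, `CC = range (G t) ∪ Ico (G t + A t) (G t + A t + f)`, `P i = R i ×ˢ CC`. For `i < j`: `ext_out`
at the vertices of `Ico (G t) (G t + A i)` (rows of both, not columns) gives `θ (P i) (P j) = qv θ (range (G i)) (Ico (G i) (G j))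
(Ico (G t + A i) (G t + A j)) (Ico (G j) (G t) ∪ Ico (G t + A t) (G t + A t + f))`, and `qv_eq`. `h.ker.psd` with `ι = Fin (t+1)`, `c = 1`;
the diagonal gives `t + 1`, the pairs `i < j` and `j < i` have the same real part (`herm`).
`qq_near`: `X = B₀ × C`, `Y = (B₀ ∪ Γ ∪ A') × C = X ∪ (Γ ∪ A') × C`, `C = B₀ ∪ Γ ∪ H`: `|Γ ∪ A'| = m + s = |C|`, `C \ (Γ ∪ A') = B₀ ∪ H` has
`b + (s - b) = s` elements: `h.bad` gives `g X Y = 0`, the value is `(0 - D²)/(D - D²) = - D/(1 - D)`.
-/

set_option autoImplicit false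

namespace Pool.Agent.Lib.MP_90b327_co.EX

open Finset MeasureTheory Pool.Agent.Lib.MP_90b327_co Pool.Agent.Lib.MP_90b327_co.RB

theorem chain_sum (F : ℕ → ℕ → ℝ) (hs : ∀ i j, F i j = F j i) (hd : ∀ i, F i i = 1) (n : ℕ) :
    ∑ i ∈ range n, ∑ j ∈ range n, F i j =
      (n : ℝ) + 2 * ∑ j ∈ range n, ∑ i ∈ range j, F i j := by
  induction n with
  | zero => simp
  | succ n ih =>
    rw [Finset.sum_range_succ, Finset.sum_range_succ (fun j => ∑ i ∈ range j, F i j)]
    have h1 : ∀ i ∈ range n, ∑ j ∈ range (n + 1), F i j = ∑ j ∈ range n, F i j + F i n := by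
      intro i _
      rw [Finset.sum_range_succ]
    rw [Finset.sum_congr rfl h1, Finset.sum_add_distrib, ih,
      Finset.sum_range_succ (fun j => F n j), hd n]
    have h2 : ∑ j ∈ range n, F n j = ∑ i ∈ range n, F i n :=
      Finset.sum_congr rfl (fun j _ => hs n j)
    rw [h2]
    push_cast
    ring

/-- the rows of the `i`-th pattern of the chain -/
def chR (G A : ℕ → ℕ) (t i : ℕ) : Finset ℕ := range (G i) ∪ Ico (G t) (G t + A i)

/-- the columns of the chain -/
def chC (G A : ℕ → ℕ) (t f : ℕ) : Finset ℕ := range (G t) ∪ Ico (G t + A t) (G t + A t + f)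

theorem chain_val {θ : Pt → Pt → ℂ} (h : JCh θ) (G A : ℕ → ℕ) (hG : Monotone G) (hA : Monotone A)
    (t f i j : ℕ) (hij : i ≤ j) (hjt : j ≤ t) :
    θ (chR G A t i ×ˢ chC G A t f) (chR G A t j ×ˢ chC G A t f) =
      QQ θ (G i) (G j - G i) (A j - A i) (G t - G j + f) := by
  have g1 : G i ≤ G j := hG hij
  have g2 : G j ≤ G t := hG hjt
  have a1 : A i ≤ A j := hA hij
  have a2 : A j ≤ A t := hA hjt
  have e1 := ext_out h (Ico (G t) (G t + A i)) (chR G A t i ×ˢ chC G A t f)
    (chR G A t j ×ˢ chC G A t f) (by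
      rintro ⟨x, y⟩ hc
      simp only [chR, chC, mem_product, mem_union, mem_range, mem_Ico] at hc ⊢
      omega)
  have e2 : (chR G A t i ×ˢ chC G A t f).filter
      (fun c => c.1 ∉ Ico (G t) (G t + A i) ∧ c.2 ∉ Ico (G t) (G t + A i)) =
      range (G i) ×ˢ (range (G i) ∪ Ico (G i) (G j) ∪
        (Ico (G j) (G t) ∪ Ico (G t + A t) (G t + A t + f))) := by
    ext ⟨x, y⟩
    simp only [chR, chC, mem_filter, mem_product, mem_union, mem_range, mem_Ico]
    omega
  have e3 : (chR G A t j ×ˢ chC G A t f).filter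
      (fun c => c.1 ∉ Ico (G t) (G t + A i) ∧ c.2 ∉ Ico (G t) (G t + A i)) =
      (range (G i) ∪ Ico (G i) (G j) ∪ Ico (G t + A i) (G t + A j)) ×ˢ
        (range (G i) ∪ Ico (G i) (G j) ∪
        (Ico (G j) (G t) ∪ Ico (G t + A t) (G t + A t + f))) := by
    ext ⟨x, y⟩
    simp only [chR, chC, mem_filter, mem_product, mem_union, mem_range, mem_Ico]
    omega
  rw [e1, e2, e3]
  have e4 := qv_eq h (range (G i)) (Ico (G i) (G j)) (Ico (G t + A i) (G t + A j))
    (Ico (G j) (G t) ∪ Ico (G t + A t) (G t + A t + f)) (by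
      rw [Finset.disjoint_left]
      intro x hx hy
      simp only [mem_range, mem_Ico] at hx hy
      omega) (by
      rw [Finset.disjoint_left]
      intro x hx hy
      simp only [mem_union, mem_range, mem_Ico] at hx hy
      omega) (by
      rw [Finset.disjoint_left]
      intro x hx hy
      simp only [mem_union, mem_range, mem_Ico] at hx hy
      omega)
  have c4 : (Ico (G j) (G t) ∪ Ico (G t + A t) (G t + A t + f)).card = G t - G j + f := by
    rw [Finset.card_union_of_disjoint, Nat.card_Ico, Nat.card_Ico]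
    · omega
    · rw [Finset.disjoint_left]
      intro x hx hy
      simp only [mem_Ico] at hx hy
      omega
  rw [c4, Finset.card_range, Nat.card_Ico, Nat.card_Ico] at e4
  have c3 : G t + A j - (G t + A i) = A j - A i := by omega
  rw [c3] at e4
  rw [← e4]
  rfl

theorem chain_pos {θ : Pt → Pt → ℂ} (h : JCh θ) (G A : ℕ → ℕ) (hG : Monotone G) (hA : Monotone A)
    (t f : ℕ) :
    -(((t : ℝ) + 1) / 2) ≤ ∑ j ∈ range (t + 1), ∑ i ∈ range j,
      (QQ θ (G i) (G j - G i) (A j - A i) (G t - G j + f)).re := by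
  have h1 := h.ker.psd (Fin (t + 1)) (fun i => chR G A t i ×ˢ chC G A t f) (fun _ => 1)
  have h2 : (∑ i : Fin (t + 1), ∑ j : Fin (t + 1), (starRingEnd ℂ) (1 : ℂ) * 1 *
      θ (chR G A t i ×ˢ chC G A t f) (chR G A t j ×ˢ chC G A t f)).re =
      ∑ i ∈ range (t + 1), ∑ j ∈ range (t + 1),
        (θ (chR G A t i ×ˢ chC G A t f) (chR G A t j ×ˢ chC G A t f)).re := by
    rw [Complex.re_sum, Finset.sum_range]
    refine Finset.sum_congr rfl (fun i _ => ?_)
    rw [Complex.re_sum, Finset.sum_range]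
    refine Finset.sum_congr rfl (fun j _ => ?_)
    rw [map_one, one_mul, one_mul]
  rw [h2] at h1
  have h3 := chain_sum (fun i j =>
    (θ (chR G A t i ×ˢ chC G A t f) (chR G A t j ×ˢ chC G A t f)).re) (by
      intro i j
      rw [h.ker.herm (chR G A t i ×ˢ chC G A t f) (chR G A t j ×ˢ chC G A t f),
        Complex.conj_re]) (by
      intro i
      rw [h.ker.one, Complex.one_re]) (t + 1)
  rw [h3] at h1
  have h4 : ∑ j ∈ range (t + 1), ∑ i ∈ range j,
      (θ (chR G A t i ×ˢ chC G A t f) (chR G A t j ×ˢ chC G A t f)).re =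
      ∑ j ∈ range (t + 1), ∑ i ∈ range j,
      (QQ θ (G i) (G j - G i) (A j - A i) (G t - G j + f)).re := by
    refine Finset.sum_congr rfl (fun j hj => Finset.sum_congr rfl (fun i hi => ?_))
    rw [mem_range] at hj hi
    rw [chain_val h G A hG hA t f i j hi.le (by omega)]
  rw [h4] at h1
  push_cast at h1
  linarith

theorem qq_near {M : ℕ} {w : ℕ → ℕ} {D : ℝ} {g : Pt → Pt → ℝ} (h : XJK M w D g) (hD : 0 < D)
    (hD1 : D < 1) (b m s : ℕ) (hbs : b ≤ s) (hM : M ≤ m + s) (hw : s ≤ w (m + s)) :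
    QQ (fun X Y => (((g X Y - D ^ 2) / (D - D ^ 2) : ℝ) : ℂ)) b m s (s - b) =
      ((-(D / (1 - D)) : ℝ) : ℂ) := by
  have hI : (Ico b (b + m + s)).card = m + s := by
    rw [Nat.card_Ico]
    omega
  have hJ : (range b ∪ Ico b (b + m) ∪ Ico (b + m + s) (b + m + s + (s - b))).card = m + s := by
    have e1 : range b ∪ Ico b (b + m) = range (b + m) := by
      ext x
      simp only [mem_union, mem_range, mem_Ico]
      omega
    rw [e1, Finset.card_union_of_disjoint, Finset.card_range, Nat.card_Ico]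
    · omega
    · rw [Finset.disjoint_left]
      intro x hx hy
      simp only [mem_range, mem_Ico] at hx hy
      omega
  have hJI : ((range b ∪ Ico b (b + m) ∪ Ico (b + m + s) (b + m + s + (s - b))) \
      Ico b (b + m + s)).card = s := by
    have e1 : (range b ∪ Ico b (b + m) ∪ Ico (b + m + s) (b + m + s + (s - b))) \
        Ico b (b + m + s) = range b ∪ Ico (b + m + s) (b + m + s + (s - b)) := by
      ext x
      simp only [mem_sdiff, mem_union, mem_range, mem_Ico]
      omega
    rw [e1, Finset.card_union_of_disjoint, Finset.card_range, Nat.card_Ico]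
    · omega
    · rw [Finset.disjoint_left]
      intro x hx hy
      simp only [mem_range, mem_Ico] at hx hy
      omega
  have hn : NearX M w (Ico b (b + m + s))
      (range b ∪ Ico b (b + m) ∪ Ico (b + m + s) (b + m + s + (s - b))) := by
    refine ⟨?_, ?_, ?_⟩
    · rw [hI]
      exact hM
    · rw [hI, hJ]
    · rw [hI, hJI]
      exact hw
  have hb := h.bad (range b ×ˢ (range b ∪ Ico b (b + m) ∪
    Ico (b + m + s) (b + m + s + (s - b)))) _ _ hn (by
      rw [Finset.disjoint_left]
      rintro ⟨x, y⟩ hx hy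
      simp only [mem_product, mem_range, mem_Ico] at hx hy
      omega)
  have hY : range b ×ˢ (range b ∪ Ico b (b + m) ∪ Ico (b + m + s) (b + m + s + (s - b))) ∪
      Ico b (b + m + s) ×ˢ (range b ∪ Ico b (b + m) ∪
        Ico (b + m + s) (b + m + s + (s - b))) =
      (range b ∪ Ico b (b + m) ∪ Ico (b + m) (b + m + s)) ×ˢ
        (range b ∪ Ico b (b + m) ∪ Ico (b + m + s) (b + m + s + (s - b))) := by
    rw [← Finset.union_product]
    have e1 : range b ∪ Ico b (b + m + s) =
        range b ∪ Ico b (b + m) ∪ Ico (b + m) (b + m + s) := by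
      ext x
      simp only [mem_union, mem_range, mem_Ico]
      omega
    rw [e1]
  rw [hY] at hb
  unfold QQ qv
  simp only
  rw [hb]
  have h0 : D ≠ 0 := hD.ne'
  have h1 : 1 - D ≠ 0 := by linarith
  have h2 : D - D ^ 2 ≠ 0 := by
    have : D - D ^ 2 = D * (1 - D) := by ring
    rw [this]
    exact mul_ne_zero h0 h1
  have h3 : (0 - D ^ 2) / (D - D ^ 2) = -(D / (1 - D)) := by
    field_simp
    ring
  rw [h3]

end Pool.Agent.Lib.MP_90b327_co.EX
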