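import Mathlib

/-!
Theorem EXB, section 8 (abstract form): definitions, measurability, exhaustion.
-/

set_option autoImplicit false

namespace Pool.Agent.Lib.MP_90b327_co.EX

open Finset MeasureTheory Filter

/-- abstract form of `S4` -/
def A4 (Q : ℕ → ℕ → ℕ → ℕ → ℂ) (q : ℕ) : Prop :=
  ∀ ε : ℝ, 0 < ε → ∃ M : ℕ, ∀ b m s e e' : ℕ, q ∣ b → q ∣ m → q ∣ s → q ∣ e → q ∣ e' →
    M ≤ m + s → M ≤ e → M ≤ e' → ‖Q b m s e - Q b m s e'‖ ≤ ε

/-- abstract form of `S3` -/
def A3 (Q : ℕ → ℕ → ℕ → ℕ → ℂ) (q : ℕ) : Prop :=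
  ∀ ε : ℝ, 0 < ε → ∀ b m₀ s₀ M : ℕ, q ∣ b → q ∣ m₀ → q ∣ s₀ → b ≤ s₀ →
    ∃ K₀ : ℕ, ∀ K : ℕ, K₀ ≤ K → ∃ l₀ : ℕ, ∀ l : ℕ, l₀ ≤ l →
      ‖∑ x ∈ Ico M (M + l), ∑ y ∈ Ico M (M + K),
        Q b (m₀ + q * x) (s₀ + q * y) (s₀ + q * y - b)‖ ≤ ε * l * K

/-- exhaustion of a set by an increasing sequence of measurable properties -/
theorem exhaust {Ω : Type} [MeasurableSpace Ω] (P : Measure Ω) [IsProbabilityMeasure P]
    (S : Set Ω) (hS : MeasurableSet S) (p : ℕ → Ω → Prop) (hp : ∀ n, MeasurableSet {ω | p n ω})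
    (hmono : ∀ n m, n ≤ m → ∀ ω, p n ω → p m ω) (hall : ∀ ω ∈ S, ∃ n, p n ω)
    (ε : ℝ) (hε : 0 < ε) : ∃ n, P.real (S ∩ {ω | ¬ p n ω}) ≤ ε := by
  have h1 : Tendsto (fun n => P (S ∩ {ω | ¬ p n ω})) atTop (nhds 0) := by
    have h2 := tendsto_measure_iInter_atTop (μ := P) (s := fun n => S ∩ {ω | ¬ p n ω})
      (fun n => (hS.inter (hp n).compl).nullMeasurableSet)
      (fun n m hnm ω hω => ⟨hω.1, fun h => hω.2 (hmono n m hnm ω h)⟩)
      ⟨0, measure_ne_top P _⟩
    have h3 : (⋂ n, S ∩ {ω | ¬ p n ω}) = (∅ : Set Ω) := by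
      ext ω
      simp only [Set.mem_iInter, Set.mem_empty_iff_false, iff_false]
      intro h
      obtain ⟨n, hn⟩ := hall ω (h 0).1
      exact (h n).2 hn
    rw [h3, measure_empty] at h2
    exact h2
  have h4 : Tendsto (fun n => P.real (S ∩ {ω | ¬ p n ω})) atTop (nhds 0) := by
    have := (ENNReal.tendsto_toReal ENNReal.zero_ne_top).comp h1
    exact this
  obtain ⟨n, hn⟩ := (h4.eventually (eventually_lt_nhds hε)).exists
  exact ⟨n, hn.le⟩

/-- double limit under the integral, elementary form -/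
theorem dbl_lim {Ω : Type} [MeasurableSpace Ω] (P : Measure Ω) [IsProbabilityMeasure P]
    (S : Set Ω) (hS : MeasurableSet S) (f : ℕ → ℕ → Ω → ℝ) (hf : ∀ K l, Measurable (f K l))
    (C : ℝ) (hf0 : ∀ K l ω, 0 ≤ f K l ω) (hfC : ∀ K l ω, f K l ω ≤ C)
    (hlim : ∀ ω ∈ S, ∀ ε : ℝ, 0 < ε → ∃ K₀, ∀ K, K₀ ≤ K → ∃ l₀, ∀ l, l₀ ≤ l → f K l ω ≤ ε)
    (ε : ℝ) (hε : 0 < ε) :
    ∃ K₀, ∀ K, K₀ ≤ K → ∃ l₀, ∀ l, l₀ ≤ l → ∫ ω in S, f K l ω ∂P ≤ ε := by
  classical
  set C' : ℝ := max C 0 with hC'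
  have hC0 : 0 ≤ C' := le_max_right _ _
  have hfC' : ∀ K l ω, f K l ω ≤ C' := fun K l ω => (hfC K l ω).trans (le_max_left _ _)
  set η : ℝ := ε / (4 * (C' + 1)) with hη
  have hη0 : 0 < η := by positivity
  have hCη : C' * η ≤ ε / 4 := by
    have h1 : (C' + 1) * η = ε / 4 := by
      rw [hη]; field_simp
    nlinarith [hη0.le]
  have hm1 : ∀ K l, MeasurableSet {ω | f K l ω ≤ ε / 4} := fun K l =>
    measurableSet_le (hf K l) measurable_const
  obtain ⟨K₀, hK₀⟩ := exhaust P S hS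
    (fun n ω => ∀ K, n ≤ K → ∃ l₀, ∀ l, l₀ ≤ l → f K l ω ≤ ε / 4)
    (by
      intro n
      rw [measurableSet_setOfPred]
      refine Measurable.forall fun K => ?_
      refine Measurable.imp measurable_const ?_
      refine Measurable.exists fun l₀ => ?_
      refine Measurable.forall fun l => ?_
      refine Measurable.imp measurable_const ?_
      rw [← measurableSet_setOfPred]
      exact hm1 K l)
    (fun n m hnm ω h K hK => h K (hnm.trans hK))
    (fun ω hω => hlim ω hω (ε / 4) (by positivity)) η hη0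
  refine ⟨K₀, fun K hK => ?_⟩
  have hmp : MeasurableSet {ω | ∀ K, K₀ ≤ K → ∃ l₀, ∀ l, l₀ ≤ l → f K l ω ≤ ε / 4} := by
    rw [measurableSet_setOfPred]
    refine Measurable.forall fun K => ?_
    refine Measurable.imp measurable_const ?_
    refine Measurable.exists fun l₀ => ?_
    refine Measurable.forall fun l => ?_
    refine Measurable.imp measurable_const ?_
    rw [← measurableSet_setOfPred]
    exact hm1 K l
  obtain ⟨l₀, hl₀⟩ := exhaust P
    (S ∩ {ω | ∀ K, K₀ ≤ K → ∃ l₀, ∀ l, l₀ ≤ l → f K l ω ≤ ε / 4}) (hS.inter hmp)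
    (fun n ω => ∀ l, n ≤ l → f K l ω ≤ ε / 4)
    (by
      intro n
      rw [measurableSet_setOfPred]
      refine Measurable.forall fun l => ?_
      refine Measurable.imp measurable_const ?_
      rw [← measurableSet_setOfPred]
      exact hm1 K l)
    (fun n m hnm ω h l hl => h l (hnm.trans hl))
    (fun ω hω => hω.2 K hK) η hη0
  refine ⟨l₀, fun l hl => ?_⟩
  set B1 : Set Ω := S ∩ {ω | ¬ ∀ K, K₀ ≤ K → ∃ l₀, ∀ l, l₀ ≤ l → f K l ω ≤ ε / 4} with hB1
  set B2 : Set Ω := (S ∩ {ω | ∀ K, K₀ ≤ K → ∃ l₀, ∀ l, l₀ ≤ l → f K l ω ≤ ε / 4}) ∩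
    {ω | ¬ ∀ l, l₀ ≤ l → f K l ω ≤ ε / 4} with hB2
  have hB1m : MeasurableSet B1 := hS.inter hmp.compl
  have hB2m : MeasurableSet B2 := by
    refine (hS.inter hmp).inter ?_
    have h1 : MeasurableSet {ω | ∀ l, l₀ ≤ l → f K l ω ≤ ε / 4} := by
      rw [measurableSet_setOfPred]
      refine Measurable.forall fun l => ?_
      refine Measurable.imp measurable_const ?_
      rw [← measurableSet_setOfPred]
      exact hm1 K l
    exact h1.compl
  have hpt : ∀ ω, S.indicator (f K l) ω ≤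
      ε / 4 + C' * B1.indicator (fun _ => (1 : ℝ)) ω + C' * B2.indicator (fun _ => (1 : ℝ)) ω := by
    intro ω
    have i1 : 0 ≤ B1.indicator (fun _ => (1 : ℝ)) ω :=
      Set.indicator_nonneg (fun _ _ => zero_le_one) ω
    have i2 : 0 ≤ B2.indicator (fun _ => (1 : ℝ)) ω :=
      Set.indicator_nonneg (fun _ _ => zero_le_one) ω
    by_cases hω : ω ∈ S
    · rw [Set.indicator_of_mem hω]
      by_cases h1 : ω ∈ B1
      · rw [Set.indicator_of_mem h1]
        have := hfC' K l ω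
        nlinarith [mul_nonneg hC0 i2]
      · by_cases h2 : ω ∈ B2
        · rw [Set.indicator_of_mem h2]
          have := hfC' K l ω
          nlinarith [mul_nonneg hC0 i1]
        · have h3 : ∀ K, K₀ ≤ K → ∃ l₀, ∀ l, l₀ ≤ l → f K l ω ≤ ε / 4 := by
            by_contra h; exact h1 ⟨hω, h⟩
          have h4 : ∀ l, l₀ ≤ l → f K l ω ≤ ε / 4 := by
            by_contra h; exact h2 ⟨⟨hω, h3⟩, h⟩
          have := h4 l hl
          nlinarith [mul_nonneg hC0 i1, mul_nonneg hC0 i2]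
    · rw [Set.indicator_of_notMem hω]
      have := mul_nonneg hC0 i1
      have := mul_nonneg hC0 i2
      linarith
  have hint : Integrable (f K l) P := by
    refine Integrable.of_bound (hf K l).aestronglyMeasurable C' ?_
    filter_upwards with ω
    rw [Real.norm_eq_abs, abs_of_nonneg (hf0 K l ω)]
    exact hfC' K l ω
  have hi1 : Integrable (B1.indicator (fun _ => (1 : ℝ))) P :=
    (integrable_const (1 : ℝ)).indicator hB1m
  have hi2 : Integrable (B2.indicator (fun _ => (1 : ℝ))) P :=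
    (integrable_const (1 : ℝ)).indicator hB2m
  calc ∫ ω in S, f K l ω ∂P = ∫ ω, S.indicator (f K l) ω ∂P := (integral_indicator hS).symm
    _ ≤ ∫ ω, (ε / 4 + C' * B1.indicator (fun _ => (1 : ℝ)) ω +
          C' * B2.indicator (fun _ => (1 : ℝ)) ω) ∂P := by
        refine integral_mono (hint.indicator hS) ?_ hpt
        exact ((integrable_const _).add (hi1.const_mul _)).add (hi2.const_mul _)
    _ = ε / 4 + C' * P.real B1 + C' * P.real B2 := by
        have e1 := integral_add (μ := P) (f := fun _ => ε / 4)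
          (g := fun ω => C' * B1.indicator (fun _ => (1 : ℝ)) ω) (integrable_const _)
          (hi1.const_mul _)
        have e2 := integral_add (μ := P)
          (f := fun ω => ε / 4 + C' * B1.indicator (fun _ => (1 : ℝ)) ω)
          (g := fun ω => C' * B2.indicator (fun _ => (1 : ℝ)) ω)
          ((integrable_const _).add (hi1.const_mul _)) (hi2.const_mul _)
        rw [e2, e1, integral_const_mul, integral_const_mul, integral_indicator hB1m,
          integral_indicator hB2m]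
        simp
    _ ≤ ε := by
        have h1 : C' * P.real B1 ≤ C' * η := mul_le_mul_of_nonneg_left hK₀ hC0
        have h2 : C' * P.real B2 ≤ C' * η := mul_le_mul_of_nonneg_left hl₀ hC0
        linarith

end Pool.Agent.Lib.MP_90b327_co.EX
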