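import Mathlib
import Pool.Agent.Lib.MP_90b327_co.EX.EEnd0

/-!
Theorem EXB, section 8 (abstract form): measurability of the two cases, choice of `q`, selection of
the block sizes.
-/

set_option autoImplicit false

namespace Pool.Agent.Lib.MP_90b327_co.EX

open Finset MeasureTheory Filter

theorem A4_iff (Q : ℕ → ℕ → ℕ → ℕ → ℂ) (q : ℕ) : A4 Q q ↔
    ∀ k : ℕ, ∃ M : ℕ, ∀ b m s e e' : ℕ, q ∣ b → q ∣ m → q ∣ s → q ∣ e → q ∣ e' →
      M ≤ m + s → M ≤ e → M ≤ e' → ‖Q b m s e - Q b m s e'‖ ≤ 1 / ((k : ℝ) + 1) := by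
  constructor
  · intro h k
    exact h _ (by positivity)
  · intro h ε hε
    obtain ⟨k, hk⟩ := exists_nat_one_div_lt hε
    obtain ⟨M, hM⟩ := h k
    exact ⟨M, fun b m s e e' h1 h2 h3 h4 h5 h6 h7 h8 =>
      (hM b m s e e' h1 h2 h3 h4 h5 h6 h7 h8).trans hk.le⟩

theorem A3_iff (Q : ℕ → ℕ → ℕ → ℕ → ℂ) (q : ℕ) : A3 Q q ↔
    ∀ k : ℕ, ∀ b m₀ s₀ M : ℕ, q ∣ b → q ∣ m₀ → q ∣ s₀ → b ≤ s₀ →
      ∃ K₀ : ℕ, ∀ K : ℕ, K₀ ≤ K → ∃ l₀ : ℕ, ∀ l : ℕ, l₀ ≤ l →
        ‖∑ x ∈ Ico M (M + l), ∑ y ∈ Ico M (M + K),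
          Q b (m₀ + q * x) (s₀ + q * y) (s₀ + q * y - b)‖ ≤ 1 / ((k : ℝ) + 1) * l * K := by
  constructor
  · intro h k
    exact h _ (by positivity)
  · intro h ε hε b m₀ s₀ M h1 h2 h3 h4
    obtain ⟨k, hk⟩ := exists_nat_one_div_lt hε
    obtain ⟨K₀, hK₀⟩ := h k b m₀ s₀ M h1 h2 h3 h4
    refine ⟨K₀, fun K hK => ?_⟩
    obtain ⟨l₀, hl₀⟩ := hK₀ K hK
    refine ⟨l₀, fun l hl => (hl₀ l hl).trans ?_⟩
    have h5 : (0 : ℝ) ≤ (l : ℝ) := Nat.cast_nonneg _
    have h6 : (0 : ℝ) ≤ (K : ℝ) := Nat.cast_nonneg _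
    exact mul_le_mul_of_nonneg_right (mul_le_mul_of_nonneg_right hk.le h5) h6

section meas

variable {Ω : Type} [MeasurableSpace Ω] (Q : Ω → ℕ → ℕ → ℕ → ℕ → ℂ)
  (hm : ∀ b m s e, Measurable fun ω => Q ω b m s e)

include hm

theorem measA4e (q M : ℕ) (ε : ℝ) : MeasurableSet {ω | ∀ b m s e e' : ℕ, q ∣ b → q ∣ m →
    q ∣ s → q ∣ e → q ∣ e' → M ≤ m + s → M ≤ e → M ≤ e' →
    ‖Q ω b m s e - Q ω b m s e'‖ ≤ ε} := by
  rw [measurableSet_setOfPred]
  refine Measurable.forall fun b => Measurable.forall fun m => Measurable.forall fun s =>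
    Measurable.forall fun e => Measurable.forall fun e' => ?_
  refine Measurable.imp measurable_const (Measurable.imp measurable_const
    (Measurable.imp measurable_const (Measurable.imp measurable_const
    (Measurable.imp measurable_const (Measurable.imp measurable_const
    (Measurable.imp measurable_const (Measurable.imp measurable_const ?_)))))))
  rw [← measurableSet_setOfPred]
  exact measurableSet_le ((hm b m s e).sub (hm b m s e')).norm measurable_const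

theorem measA4 (q : ℕ) : MeasurableSet {ω | A4 (Q ω) q} := by
  have : {ω | A4 (Q ω) q} = {ω | ∀ k : ℕ, ∃ M : ℕ, ω ∈ {ω | ∀ b m s e e' : ℕ, q ∣ b → q ∣ m →
      q ∣ s → q ∣ e → q ∣ e' → M ≤ m + s → M ≤ e → M ≤ e' →
      ‖Q ω b m s e - Q ω b m s e'‖ ≤ 1 / ((k : ℝ) + 1)}} := by
    ext ω
    exact A4_iff (Q ω) q
  rw [this, measurableSet_setOfPred]
  refine Measurable.forall fun k => Measurable.exists fun M => ?_
  rw [← measurableSet_setOfPred]
  exact measA4e Q hm q M _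

theorem meas_sum (q b m₀ s₀ M K l : ℕ) : Measurable (fun ω =>
    ∑ x ∈ Ico M (M + l), ∑ y ∈ Ico M (M + K),
      Q ω b (m₀ + q * x) (s₀ + q * y) (s₀ + q * y - b)) := by
  refine Finset.measurable_sum _ fun x _ => Finset.measurable_sum _ fun y _ => hm _ _ _ _

theorem measA3 (q : ℕ) : MeasurableSet {ω | A3 (Q ω) q} := by
  have : {ω | A3 (Q ω) q} = {ω | ∀ k : ℕ, ∀ b m₀ s₀ M : ℕ, q ∣ b → q ∣ m₀ → q ∣ s₀ → b ≤ s₀ →
      ∃ K₀ : ℕ, ∀ K : ℕ, K₀ ≤ K → ∃ l₀ : ℕ, ∀ l : ℕ, l₀ ≤ l →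
        ‖∑ x ∈ Ico M (M + l), ∑ y ∈ Ico M (M + K),
          Q ω b (m₀ + q * x) (s₀ + q * y) (s₀ + q * y - b)‖ ≤ 1 / ((k : ℝ) + 1) * l * K} := by
    ext ω
    exact A3_iff (Q ω) q
  rw [this, measurableSet_setOfPred]
  refine Measurable.forall fun k => Measurable.forall fun b => Measurable.forall fun m₀ =>
    Measurable.forall fun s₀ => Measurable.forall fun M => ?_
  refine Measurable.imp measurable_const (Measurable.imp measurable_const
    (Measurable.imp measurable_const (Measurable.imp measurable_const ?_)))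
  refine Measurable.exists fun K₀ => Measurable.forall fun K => Measurable.imp measurable_const
    (Measurable.exists fun l₀ => Measurable.forall fun l => Measurable.imp measurable_const ?_)
  rw [← measurableSet_setOfPred]
  exact measurableSet_le (meas_sum Q hm q b m₀ s₀ M K l).norm measurable_const

end meas

/-- choice of `q`: the union of the two cases has almost full measure -/
theorem exists_q {Ω : Type} [MeasurableSpace Ω] (P : Measure Ω) [IsProbabilityMeasure P]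
    (Q : Ω → ℕ → ℕ → ℕ → ℕ → ℂ) (hm : ∀ b m s e, Measurable fun ω => Q ω b m s e)
    (hal : ∀ ω, ∃ q₀, 1 ≤ q₀ ∧ ∀ q, 1 ≤ q → q₀ ∣ q → A4 (Q ω) q ∨ A3 (Q ω) q)
    (ε : ℝ) (hε : 0 < ε) :
    ∃ q, 1 ≤ q ∧ P.real {ω | ¬ (A4 (Q ω) q ∨ A3 (Q ω) q)} ≤ ε := by
  have hmE : ∀ n, MeasurableSet {ω | ∀ j : ℕ, n ≤ j → A4 (Q ω) (Nat.factorial j) ∨ A3 (Q ω) (Nat.factorial j)} := by
    intro n
    rw [measurableSet_setOfPred]
    refine Measurable.forall fun j => Measurable.imp measurable_const (Measurable.or ?_ ?_)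
    · rw [← measurableSet_setOfPred]; exact measA4 Q hm _
    · rw [← measurableSet_setOfPred]; exact measA3 Q hm _
  obtain ⟨n, hn⟩ := exhaust P Set.univ MeasurableSet.univ
    (fun n ω => ∀ j : ℕ, n ≤ j → A4 (Q ω) (Nat.factorial j) ∨ A3 (Q ω) (Nat.factorial j)) hmE
    (fun n m hnm ω h j hj => h j (hnm.trans hj))
    (by
      intro ω _
      obtain ⟨q₀, h1, h2⟩ := hal ω
      exact ⟨q₀, fun j hj => h2 _ (Nat.factorial_pos j) (Nat.dvd_factorial h1 hj)⟩) ε hε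
  refine ⟨n.factorial, Nat.factorial_pos n, le_trans ?_ hn⟩
  refine measureReal_mono (fun ω hω => ?_) (measure_ne_top P _)
  exact ⟨Set.mem_univ _, fun h => hω (h n le_rfl)⟩

end Pool.Agent.Lib.MP_90b327_co.EX
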