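import Mathlib
import Pool.Agent.Lib.MP_90b327_co.EX.EEnd0

/-!
Theorem EXB, section 8 (abstract form): selection of the block sizes.
-/

set_option autoImplicit false

namespace Pool.Agent.Lib.MP_90b327_co.EX

open Finset MeasureTheory Filter

theorem avg_one {Ω : Type} [MeasurableSpace Ω] (P : Measure Ω) [IsProbabilityMeasure P]
    (Q : Ω → ℕ → ℕ → ℕ → ℕ → ℂ) (hm : ∀ b m s e, Measurable fun ω => Q ω b m s e)
    (hb : ∀ ω b m s e, ‖Q ω b m s e‖ ≤ 1) (q : ℕ) (SS : Set Ω) (hSS : MeasurableSet SS)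
    (hA : ∀ ω ∈ SS, A3 (Q ω) q) (b m₀ s₀ M : ℕ) (hqb : q ∣ b) (hqm : q ∣ m₀) (hqs : q ∣ s₀)
    (hbs : b ≤ s₀) (ε : ℝ) (hε : 0 < ε) :
    ∃ K₀ : ℕ, ∀ K : ℕ, K₀ ≤ K → ∃ l₀ : ℕ, ∀ l : ℕ, l₀ ≤ l →
      -(ε * l * K) ≤ ∑ x ∈ Ico M (M + l), ∑ y ∈ Ico M (M + K),
        (∫ ω in SS, Q ω b (m₀ + q * x) (s₀ + q * y) (s₀ + q * y - b) ∂P).re := by
  classical
  set F : ℕ → ℕ → Ω → ℂ := fun K l ω => ∑ x ∈ Ico M (M + l), ∑ y ∈ Ico M (M + K),
    Q ω b (m₀ + q * x) (s₀ + q * y) (s₀ + q * y - b) with hF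
  have hFm : ∀ K l, Measurable (F K l) := fun K l =>
    Finset.measurable_sum _ fun x _ => Finset.measurable_sum _ fun y _ => hm _ _ _ _
  have hFb : ∀ K l ω, ‖F K l ω‖ ≤ l * K := by
    intro K l ω
    calc ‖F K l ω‖ ≤ ∑ x ∈ Ico M (M + l), ‖∑ y ∈ Ico M (M + K),
          Q ω b (m₀ + q * x) (s₀ + q * y) (s₀ + q * y - b)‖ := norm_sum_le _ _
      _ ≤ ∑ x ∈ Ico M (M + l), ∑ y ∈ Ico M (M + K), (1 : ℝ) := by
          refine Finset.sum_le_sum fun x _ => (norm_sum_le _ _).trans ?_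
          exact Finset.sum_le_sum fun y _ => hb _ _ _ _ _
      _ = l * K := by simp
  obtain ⟨K₀, hK₀⟩ := dbl_lim P SS hSS (fun K l ω => ‖F K l ω‖ / ((l : ℝ) * K))
    (fun K l => (hFm K l).norm.div_const _) 1 (fun K l ω => by positivity)
    (fun K l ω => by
      apply div_le_one_of_le₀ (hFb K l ω) (by positivity))
    (by
      intro ω hω η hη
      obtain ⟨K₀, hK₀⟩ := hA ω hω η hη b m₀ s₀ M hqb hqm hqs hbs
      refine ⟨K₀, fun K hK => ?_⟩
      obtain ⟨l₀, hl₀⟩ := hK₀ K hK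
      refine ⟨l₀, fun l hl => ?_⟩
      have h1 := hl₀ l hl
      rcases Nat.eq_zero_or_pos (l * K) with h0 | h0
      · have h2 : (l : ℝ) * K = 0 := by exact_mod_cast h0
        simp only [h2, div_zero]
        exact hη.le
      · have h2 : (0 : ℝ) < (l : ℝ) * K := by exact_mod_cast h0
        rw [div_le_iff₀ h2]
        linarith [h1]) ε hε
  refine ⟨K₀, fun K hK => ?_⟩
  obtain ⟨l₀, hl₀⟩ := hK₀ K hK
  refine ⟨l₀, fun l hl => ?_⟩
  have h1 := hl₀ l hl
  have hint : ∀ b m s e, Integrable (fun ω => Q ω b m s e) (P.restrict SS) := by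
    intro b m s e
    refine Integrable.of_bound (hm b m s e).aestronglyMeasurable 1 ?_
    filter_upwards with ω
    exact hb ω b m s e
  have h2 : ∑ x ∈ Ico M (M + l), ∑ y ∈ Ico M (M + K),
      (∫ ω in SS, Q ω b (m₀ + q * x) (s₀ + q * y) (s₀ + q * y - b) ∂P).re =
      (∫ ω in SS, F K l ω ∂P).re := by
    rw [hF, integral_finsetSum _ (fun x _ => integrable_finsetSum _ fun y _ => hint _ _ _ _),
      Complex.re_sum]
    refine Finset.sum_congr rfl fun x _ => ?_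
    rw [integral_finsetSum _ (fun y _ => hint _ _ _ _), Complex.re_sum]
  rw [h2]
  have h3 : ‖∫ ω in SS, F K l ω ∂P‖ ≤ ε * l * K := by
    refine (norm_integral_le_integral_norm _).trans ?_
    rcases Nat.eq_zero_or_pos (l * K) with h0 | h0
    · have h4 : ∀ ω, ‖F K l ω‖ = 0 := by
        intro ω
        have := hFb K l ω
        have h5 : (l : ℝ) * K = 0 := by exact_mod_cast h0
        rw [h5] at this
        exact le_antisymm this (norm_nonneg _)
      simp only [h4, integral_zero]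
      positivity
    · have h4 : (0 : ℝ) < (l : ℝ) * K := by exact_mod_cast h0
      rw [integral_div, div_le_iff₀ h4] at h1
      linarith
  have h4 := Complex.abs_re_le_norm (∫ ω in SS, F K l ω ∂P)
  have h5 := neg_abs_le (∫ ω in SS, F K l ω ∂P).re
  linarith

theorem select {Ω : Type} [MeasurableSpace Ω] (P : Measure Ω) [IsProbabilityMeasure P]
    (Q : Ω → ℕ → ℕ → ℕ → ℕ → ℂ) (hm : ∀ b m s e, Measurable fun ω => Q ω b m s e)
    (hb : ∀ ω b m s e, ‖Q ω b m s e‖ ≤ 1) (q : ℕ) (hq : 1 ≤ q) (SS : Set Ω)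
    (hSS : MeasurableSet SS) (hA : ∀ ω ∈ SS, A3 (Q ω) q) (M M' : ℕ) (w : ℕ → ℕ)
    (hw : Tendsto w atTop atTop) {ι : Type} (I : Finset ι) (b m₀ s₀ : ι → ℕ)
    (hqb : ∀ i ∈ I, q ∣ b i) (hqm : ∀ i ∈ I, q ∣ m₀ i) (hqs : ∀ i ∈ I, q ∣ s₀ i)
    (hbs : ∀ i ∈ I, b i ≤ s₀ i) (ε : ℝ) (hε : 0 < ε) :
    ∃ x y, M' ≤ x ∧ M' ≤ y ∧
      (∀ i ∈ I, M ≤ m₀ i + q * x + (s₀ i + q * y) ∧
        s₀ i + q * y ≤ w (m₀ i + q * x + (s₀ i + q * y))) ∧
      -ε ≤ ∑ i ∈ I, (∫ ω in SS,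
        Q ω (b i) (m₀ i + q * x) (s₀ i + q * y) (s₀ i + q * y - b i) ∂P).re := by
  classical
  set n : ℝ := (I.card : ℝ) with hn
  have hn0 : 0 ≤ n := Nat.cast_nonneg _
  set ε' : ℝ := ε / (2 * (n + 1)) with hε'
  have hε'0 : 0 < ε' := by positivity
  have hnε : n * ε' ≤ ε / 2 := by
    have h1 : (n + 1) * ε' = ε / 2 := by
      rw [hε']; field_simp
    nlinarith [hε'0.le]
  choose! K₀ hK₀ using fun (i : ι) (hi : i ∈ I) => avg_one P Q hm hb q SS hSS hA (b i) (m₀ i)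
    (s₀ i) M' (hqb i hi) (hqm i hi) (hqs i hi) (hbs i hi) ε' hε'0
  set K : ℕ := (∑ i ∈ I, K₀ i) + 1 with hK
  have hKK : ∀ i ∈ I, K₀ i ≤ K := fun i hi =>
    (Finset.single_le_sum (f := K₀) (fun _ _ => Nat.zero_le _) hi).trans (Nat.le_succ _)
  choose! l₀ hl₀ using fun (i : ι) (hi : i ∈ I) => hK₀ i hi K (hKK i hi)
  -- good `x`
  have hgood : ∀ᶠ x : ℕ in atTop, ∀ i ∈ I, ∀ y ∈ Ico M' (M' + K),
      M ≤ m₀ i + q * x + (s₀ i + q * y) ∧
        s₀ i + q * y ≤ w (m₀ i + q * x + (s₀ i + q * y)) := by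
    rw [Filter.eventually_all_finset]
    intro i _
    rw [Filter.eventually_all_finset]
    intro y _
    have ht : Tendsto (fun x : ℕ => m₀ i + q * x + (s₀ i + q * y)) atTop atTop := by
      refine tendsto_atTop_mono (f := fun x : ℕ => x) (fun x => ?_) tendsto_id
      have : 1 * x ≤ q * x := Nat.mul_le_mul_right x hq
      omega
    exact (ht.eventually_ge_atTop M).and ((hw.comp ht).eventually_ge_atTop _)
  obtain ⟨X₀, hX₀⟩ := eventually_atTop.1 hgood
  by_contra hcon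
  push Not at hcon
  set G : ℕ → ℕ → ℝ := fun x y => ∑ i ∈ I, (∫ ω in SS,
        Q ω (b i) (m₀ i + q * x) (s₀ i + q * y) (s₀ i + q * y - b i) ∂P).re with hG
  have hneg : ∀ x y, M' ≤ x → X₀ ≤ x → y ∈ Ico M' (M' + K) → G x y < -ε := by
    intro x y hx hx' hy
    exact hcon x y hx (Finset.mem_Ico.1 hy).1 (fun i hi => hX₀ x hx' i hi y hy)
  have hGb : ∀ x y, G x y ≤ n := by
    intro x y
    calc G x y ≤ ∑ i ∈ I, (1 : ℝ) := by
          refine Finset.sum_le_sum fun i _ => ?_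
          refine (Complex.re_le_norm _).trans ?_
          refine (norm_integral_le_of_norm_le_const (C := 1) ?_).trans ?_
          · filter_upwards with ω
            exact hb _ _ _ _ _
          · simp [measureReal_le_one]
      _ = n := by simp [hn]
  obtain ⟨L, hL⟩ := exists_nat_gt (2 * (X₀ : ℝ) * (n + ε) / ε)
  set l : ℕ := (∑ i ∈ I, l₀ i) + L + X₀ with hl
  have hll : ∀ i ∈ I, l₀ i ≤ l := fun i hi =>
    (Finset.single_le_sum (f := l₀) (fun _ _ => Nat.zero_le _) hi).trans (by omega)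
  have hlow : -(n * ε' * l * K) ≤ ∑ x ∈ Ico M' (M' + l), ∑ y ∈ Ico M' (M' + K), G x y := by
    have h1 : ∑ x ∈ Ico M' (M' + l), ∑ y ∈ Ico M' (M' + K), G x y =
        ∑ i ∈ I, ∑ x ∈ Ico M' (M' + l), ∑ y ∈ Ico M' (M' + K), (∫ ω in SS,
          Q ω (b i) (m₀ i + q * x) (s₀ i + q * y) (s₀ i + q * y - b i) ∂P).re := by
      rw [hG]
      rw [Finset.sum_comm' (s := I) (t := fun _ => Ico M' (M' + l)) (t' := Ico M' (M' + l))
        (s' := fun _ => I) (by intro x y; tauto)]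
      refine Finset.sum_congr rfl fun x _ => ?_
      rw [Finset.sum_comm]
    rw [h1]
    calc -(n * ε' * l * K) = ∑ i ∈ I, -(ε' * l * K) := by
          rw [Finset.sum_const, nsmul_eq_mul, hn]; ring
      _ ≤ _ := Finset.sum_le_sum fun i hi => hl₀ i hi l (hll i hi)
  have hup : ∑ x ∈ Ico M' (M' + l), ∑ y ∈ Ico M' (M' + K), G x y ≤
      (X₀ : ℝ) * K * (n + ε) - ε * l * K := by
    have h1 : ∀ x ∈ Ico M' (M' + l), ∑ y ∈ Ico M' (M' + K), G x y ≤
        (if x < M' + X₀ then (K : ℝ) * (n + ε) else 0) - ε * K := by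
      intro x hx
      have hx1 := Finset.mem_Ico.1 hx
      split_ifs with h
      · calc ∑ y ∈ Ico M' (M' + K), G x y ≤ ∑ y ∈ Ico M' (M' + K), n :=
              Finset.sum_le_sum fun y _ => hGb x y
          _ = K * n := by simp
          _ = K * (n + ε) - ε * K := by ring
      · calc ∑ y ∈ Ico M' (M' + K), G x y ≤ ∑ y ∈ Ico M' (M' + K), (-ε) :=
              Finset.sum_le_sum fun y hy => (hneg x y hx1.1 (by omega) hy).le
          _ = 0 - ε * K := by simp; ring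
    refine (Finset.sum_le_sum h1).trans ?_
    rw [Finset.sum_sub_distrib]
    have h2 : ∑ x ∈ Ico M' (M' + l), (if x < M' + X₀ then (K : ℝ) * (n + ε) else 0) ≤
        (X₀ : ℝ) * K * (n + ε) := by
      rw [← Finset.sum_filter]
      rw [Finset.sum_const, nsmul_eq_mul]
      have h3 : ((Ico M' (M' + l)).filter (fun x => x < M' + X₀)).card ≤ X₀ := by
        calc ((Ico M' (M' + l)).filter (fun x => x < M' + X₀)).card ≤
              (Ico M' (M' + X₀)).card := by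
              apply Finset.card_le_card
              intro x hx
              simp only [Finset.mem_filter, Finset.mem_Ico] at hx ⊢
              omega
          _ = X₀ := by simp
      have h4 : (((Ico M' (M' + l)).filter (fun x => x < M' + X₀)).card : ℝ) ≤ X₀ := by
        exact_mod_cast h3
      have h5 : 0 ≤ (K : ℝ) * (n + ε) := by positivity
      nlinarith
    have h3 : ∑ x ∈ Ico M' (M' + l), ε * (K : ℝ) = ε * l * K := by
      simp; ring
    linarith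
  have hK1 : (1 : ℝ) ≤ (K : ℝ) := by
    rw [hK]; push_cast
    have : (0 : ℝ) ≤ ((∑ i ∈ I, K₀ i : ℕ) : ℝ) := Nat.cast_nonneg _
    push_cast at this
    linarith
  have hL2 : (L : ℝ) ≤ (l : ℝ) := by
    have : L ≤ l := by omega
    exact_mod_cast this
  have h6 : 2 * (X₀ : ℝ) * (n + ε) < ε * l := by
    rw [div_lt_iff₀ hε] at hL
    nlinarith
  have h7 : ε / 2 * l * K ≤ (X₀ : ℝ) * K * (n + ε) := by
    have h8 : n * ε' * (l * K) ≤ ε / 2 * (l * K) :=
      mul_le_mul_of_nonneg_right hnε (by positivity)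
    nlinarith
  have h8 : (0 : ℝ) < K := by linarith
  nlinarith

end Pool.Agent.Lib.MP_90b327_co.EX
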