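import Mathlib
import Pool.Agent.Lib.MP_90b327_co.EX.EEnd1
import Pool.Agent.Lib.MP_90b327_co.EX.EEnd2

/-!
Theorem EXB, section 8 (abstract form): the chain and the final inequality.
-/

set_option autoImplicit false

namespace Pool.Agent.Lib.MP_90b327_co.EX

open Finset MeasureTheory Filter

/-- one step of the chain: `G j` full vertices, `A j` row-only vertices in the first `j` blocks -/
def CStep (q M M' : ℕ) (w : ℕ → ℕ) (R : ℕ → ℕ → ℕ → ℕ → ℝ) (ε : ℝ) (G A : ℕ → ℕ) (j : ℕ) : Prop :=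
  (∃ x, M' ≤ x ∧ G (j + 1) = G j + q * x) ∧ (∃ y, M' ≤ y ∧ A (j + 1) = A j + G j + q * y) ∧
  (∀ i ≤ j, M ≤ (G (j + 1) - G i) + (A (j + 1) - A i) ∧
    A (j + 1) - A i ≤ w ((G (j + 1) - G i) + (A (j + 1) - A i))) ∧
  -ε ≤ ∑ i ∈ range (j + 1), R (G i) (G (j + 1) - G i) (A (j + 1) - A i) (A (j + 1) - A i - G i)

theorem CStep.congr {q M M' : ℕ} {w : ℕ → ℕ} {R : ℕ → ℕ → ℕ → ℕ → ℝ} {ε : ℝ} {G A G' A' : ℕ → ℕ}
    {j : ℕ} (h : CStep q M M' w R ε G A j) (hG : ∀ i ≤ j + 1, G' i = G i)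
    (hA : ∀ i ≤ j + 1, A' i = A i) : CStep q M M' w R ε G' A' j := by
  obtain ⟨h1, h2, h3, h4⟩ := h
  refine ⟨?_, ?_, ?_, ?_⟩
  · rw [hG _ le_rfl, hG j (by omega)]; exact h1
  · rw [hA _ le_rfl, hA j (by omega), hG j (by omega)]; exact h2
  · intro i hi
    rw [hG _ le_rfl, hA _ le_rfl, hG i (by omega), hA i (by omega)]
    exact h3 i hi
  · have : ∑ i ∈ range (j + 1), R (G' i) (G' (j + 1) - G' i) (A' (j + 1) - A' i)
        (A' (j + 1) - A' i - G' i) = ∑ i ∈ range (j + 1), R (G i) (G (j + 1) - G i)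
        (A (j + 1) - A i) (A (j + 1) - A i - G i) := by
      refine Finset.sum_congr rfl fun i hi => ?_
      have := Finset.mem_range.1 hi
      rw [hG _ le_rfl, hA _ le_rfl, hG i (by omega), hA i (by omega)]
    rw [this]; exact h4

/-- order and divisibility in a chain -/
theorem chain_facts {q M M' : ℕ} {w : ℕ → ℕ} {R : ℕ → ℕ → ℕ → ℕ → ℝ} {ε : ℝ} {G A : ℕ → ℕ}
    {t : ℕ} (hG0 : G 0 = 0) (hA0 : A 0 = 0) (h : ∀ j < t, CStep q M M' w R ε G A j) :
    (∀ i j, i ≤ j → j ≤ t → G i ≤ G j ∧ A i ≤ A j) ∧ (∀ i ≤ t, q ∣ G i ∧ q ∣ A i) := by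
  have hd : ∀ i ≤ t, q ∣ G i ∧ q ∣ A i := by
    intro i
    induction i with
    | zero => intro _; rw [hG0, hA0]; exact ⟨dvd_zero _, dvd_zero _⟩
    | succ i ih =>
      intro hi
      obtain ⟨⟨x, _, hx⟩, ⟨y, _, hy⟩, _⟩ := h i (by omega)
      obtain ⟨h1, h2⟩ := ih (by omega)
      rw [hx, hy]
      exact ⟨h1.add (dvd_mul_right _ _), (h2.add h1).add (dvd_mul_right _ _)⟩
  refine ⟨?_, hd⟩
  intro i j hij hj
  induction j, hij using Nat.le_induction with
  | base => exact ⟨le_rfl, le_rfl⟩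
  | succ j hij ih =>
    obtain ⟨⟨x, _, hx⟩, ⟨y, _, hy⟩, _⟩ := h j (by omega)
    obtain ⟨h1, h2⟩ := ih (by omega)
    rw [hx, hy]
    exact ⟨by omega, by omega⟩

theorem exists_chain {Ω : Type} [MeasurableSpace Ω] (P : Measure Ω) [IsProbabilityMeasure P]
    (Q : Ω → ℕ → ℕ → ℕ → ℕ → ℂ) (hm : ∀ b m s e, Measurable fun ω => Q ω b m s e)
    (hb : ∀ ω b m s e, ‖Q ω b m s e‖ ≤ 1) (q : ℕ) (hq : 1 ≤ q) (SS : Set Ω)
    (hSS : MeasurableSet SS) (hA : ∀ ω ∈ SS, A3 (Q ω) q) (M M' : ℕ) (w : ℕ → ℕ)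
    (hw : Tendsto w atTop atTop) (ε : ℝ) (hε : 0 < ε) (t : ℕ) :
    ∃ G A : ℕ → ℕ, G 0 = 0 ∧ A 0 = 0 ∧ ∀ j < t,
      CStep q M M' w (fun b m s e => (∫ ω in SS, Q ω b m s e ∂P).re) ε G A j := by
  induction t with
  | zero => exact ⟨fun _ => 0, fun _ => 0, rfl, rfl, fun j hj => absurd hj (by omega)⟩
  | succ t ih =>
    obtain ⟨G, A, hG0, hA0, hst⟩ := ih
    obtain ⟨hmono, hdiv⟩ := chain_facts hG0 hA0 hst
    obtain ⟨x, y, hx, hy, hxy, hsum⟩ := select P Q hm hb q hq SS hSS hA M M' w hw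
      (range (t + 1)) (fun i => G i) (fun i => G t - G i) (fun i => A t - A i + G t)
      (fun i hi => (hdiv i (Nat.lt_succ_iff.1 (Finset.mem_range.1 hi))).1)
      (fun i hi => Nat.dvd_sub (hdiv t le_rfl).1
        (hdiv i (Nat.lt_succ_iff.1 (Finset.mem_range.1 hi))).1)
      (fun i hi => (Nat.dvd_sub (hdiv t le_rfl).2
        (hdiv i (Nat.lt_succ_iff.1 (Finset.mem_range.1 hi))).2).add (hdiv t le_rfl).1)
      (fun i hi => by
        have := (hmono i t (Nat.lt_succ_iff.1 (Finset.mem_range.1 hi)) le_rfl).1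
        show G i ≤ A t - A i + G t
        omega) ε hε
    set G' : ℕ → ℕ := Function.update G (t + 1) (G t + q * x) with hG'
    set A' : ℕ → ℕ := Function.update A (t + 1) (A t + G t + q * y) with hA'
    have eG : ∀ i ≤ t, G' i = G i := fun i hi => by
      rw [hG', Function.update_of_ne (by omega)]
    have eA : ∀ i ≤ t, A' i = A i := fun i hi => by
      rw [hA', Function.update_of_ne (by omega)]
    have eG1 : G' (t + 1) = G t + q * x := by rw [hG', Function.update_self]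
    have eA1 : A' (t + 1) = A t + G t + q * y := by rw [hA', Function.update_self]
    refine ⟨G', A', by rw [eG 0 (by omega), hG0], by rw [eA 0 (by omega), hA0], ?_⟩
    intro j hj
    rcases Nat.lt_or_ge j t with hjt | hjt
    · exact (hst j hjt).congr (fun i hi => eG i (by omega)) (fun i hi => eA i (by omega))
    · obtain rfl : j = t := by omega
      have e1 : ∀ i ≤ j, G' (j + 1) - G' i = G j - G i + q * x := by
        intro i hi
        rw [eG1, eG i hi]
        have := (hmono i j hi le_rfl).1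
        omega
      have e2 : ∀ i ≤ j, A' (j + 1) - A' i = A j - A i + G j + q * y := by
        intro i hi
        rw [eA1, eA i hi]
        have := (hmono i j hi le_rfl).2
        omega
      refine ⟨⟨x, hx, by rw [eG1, eG j le_rfl]⟩, ⟨y, hy, by rw [eA1, eA j le_rfl, eG j le_rfl]⟩,
        ?_, ?_⟩
      · intro i hi
        rw [e1 i hi, e2 i hi]
        exact hxy i (Finset.mem_range.2 (by omega))
      · refine hsum.trans (le_of_eq (Finset.sum_congr rfl fun i hi => ?_))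
        have hi' := Nat.lt_succ_iff.1 (Finset.mem_range.1 hi)
        rw [e1 i hi', e2 i hi', eG i hi']

/-- section 8 in abstract form -/
theorem end_abs {Ω : Type} [MeasurableSpace Ω] (P : Measure Ω) [IsProbabilityMeasure P]
    (Q : Ω → ℕ → ℕ → ℕ → ℕ → ℂ) (hm : ∀ b m s e, Measurable fun ω => Q ω b m s e)
    (hb : ∀ ω b m s e, ‖Q ω b m s e‖ ≤ 1)
    (M : ℕ) (w : ℕ → ℕ) (hw : Tendsto w atTop atTop) (c : ℝ) (hc : 0 < c)
    (hbad : ∀ b m s, b ≤ s → M ≤ m + s → s ≤ w (m + s) →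
      ∫ ω, Q ω b m s (s - b) ∂P = -(c : ℂ))
    (hpos : ∀ ω (t : ℕ) (G A : ℕ → ℕ), Monotone G → Monotone A → ∀ f : ℕ,
      -((t : ℝ) + 1) / 2 ≤ ∑ j ∈ range (t + 1), ∑ i ∈ range j,
        (Q ω (G i) (G j - G i) (A j - A i) (G t - G j + f)).re)
    (hal : ∀ ω, ∃ q₀, 1 ≤ q₀ ∧ ∀ q, 1 ≤ q → q₀ ∣ q → A4 (Q ω) q ∨ A3 (Q ω) q) : False := by
  classical
  obtain ⟨t, ht⟩ := exists_nat_gt (2 / c)
  rw [div_lt_iff₀ hc] at ht
  set n : ℝ := (t : ℝ) + 1 with hn
  have hn1 : 1 ≤ n := by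
    have : (0 : ℝ) ≤ t := Nat.cast_nonneg _
    linarith
  set ε : ℝ := 1 / (8 * n ^ 2) with hεd
  have hε : 0 < ε := by positivity
  have hεn : n ^ 2 * ε = 1 / 8 := by
    rw [hεd]; field_simp
  obtain ⟨q, hq, hPq⟩ := exists_q P Q hm hal ε hε
  set AA : Set Ω := {ω | A4 (Q ω) q} with hAA
  set SS : Set Ω := {ω | A3 (Q ω) q} \ AA with hSSd
  have hAAm : MeasurableSet AA := measA4 Q hm q
  have hSSm : MeasurableSet SS := (measA3 Q hm q).diff hAAm
  obtain ⟨M', hM'⟩ := exhaust P AA hAAm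
    (fun M' ω => ∀ b m s e e' : ℕ, q ∣ b → q ∣ m →
      q ∣ s → q ∣ e → q ∣ e' → M' ≤ m + s → M' ≤ e → M' ≤ e' →
      ‖Q ω b m s e - Q ω b m s e'‖ ≤ ε)
    (fun M' => measA4e Q hm q M' ε)
    (fun n m hnm ω h b m' s e e' h1 h2 h3 h4 h5 h6 h7 h8 =>
      h b m' s e e' h1 h2 h3 h4 h5 (hnm.trans h6) (hnm.trans h7) (hnm.trans h8))
    (fun ω hω => hω ε hε) ε hε
  set A1 : Set Ω := AA ∩ {ω | ∀ b m s e e' : ℕ, q ∣ b → q ∣ m →
      q ∣ s → q ∣ e → q ∣ e' → M' ≤ m + s → M' ≤ e → M' ≤ e' →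
      ‖Q ω b m s e - Q ω b m s e'‖ ≤ ε} with hA1
  have hA1m : MeasurableSet A1 := hAAm.inter (measA4e Q hm q M' ε)
  obtain ⟨G, A, hG0, hA0, hst⟩ := exists_chain P Q hm hb q hq SS hSSm
    (fun ω hω => hω.1) M M' w hw ε hε t
  obtain ⟨hmono, hdiv⟩ := chain_facts hG0 hA0 hst
  -- extend to monotone functions
  set G' : ℕ → ℕ := fun i => G (min i t) with hG'
  set A' : ℕ → ℕ := fun i => A (min i t) with hA'
  have hG'm : Monotone G' := fun i j hij => (hmono _ _ (min_le_min_right t hij) (min_le_right _ _)).1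
  have hA'm : Monotone A' := fun i j hij => (hmono _ _ (min_le_min_right t hij) (min_le_right _ _)).2
  -- the far size
  set f : ℕ := q * M' with hf
  set u : Ω → ℕ → ℕ → ℂ := fun ω i j =>
    Q ω (G' i) (G' j - G' i) (A' j - A' i) (A' j - A' i - G' i) with hu
  set v : Ω → ℕ → ℕ → ℂ := fun ω i j =>
    Q ω (G' i) (G' j - G' i) (A' j - A' i) (G' t - G' j + f) with hv
  have hGi : ∀ i ≤ t, G' i = G i := fun i hi => by simp only [hG', min_eq_left hi]
  have hAi : ∀ i ≤ t, A' i = A i := fun i hi => by simp only [hA', min_eq_left hi]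
  -- near values on the good part
  have hnear : ∀ ω ∈ A1, ∀ j ≤ t, ∀ i < j, (v ω i j).re - ε ≤ (u ω i j).re := by
    intro ω hω j hj i hij
    obtain ⟨j, rfl⟩ : ∃ k, j = k + 1 := ⟨j - 1, by omega⟩
    obtain ⟨⟨x, hx, hGx⟩, ⟨y, hy, hAy⟩, _⟩ := hst j (by omega)
    have hi1 : i ≤ j := by omega
    have hm1 := hmono i j hi1 (by omega)
    have hxM : M' ≤ q * x := le_trans hx (Nat.le_mul_of_pos_left x hq)
    have hyM : M' ≤ q * y := le_trans hy (Nat.le_mul_of_pos_left y hq)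
    have hfM : M' ≤ f := Nat.le_mul_of_pos_left M' hq
    have hd1 : q ∣ G i := (hdiv i (by omega)).1
    have hd2 : q ∣ G (j + 1) - G i := Nat.dvd_sub (hdiv _ hj).1 hd1
    have hd3 : q ∣ A (j + 1) - A i := Nat.dvd_sub (hdiv _ hj).2 (hdiv i (by omega)).2
    have hd4 : q ∣ A (j + 1) - A i - G i := Nat.dvd_sub hd3 hd1
    have hd5 : q ∣ G t - G (j + 1) + f :=
      (Nat.dvd_sub (hdiv t le_rfl).1 (hdiv _ hj).1).add (dvd_mul_right _ _)
    have h1 := hω.2 (G i) (G (j + 1) - G i) (A (j + 1) - A i) (A (j + 1) - A i - G i)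
      (G t - G (j + 1) + f) hd1 hd2 hd3 hd4 hd5 (by omega) (by omega) (by omega)
    have h2 := Complex.abs_re_le_norm (Q ω (G i) (G (j + 1) - G i) (A (j + 1) - A i)
      (A (j + 1) - A i - G i) - Q ω (G i) (G (j + 1) - G i) (A (j + 1) - A i)
      (G t - G (j + 1) + f))
    rw [Complex.sub_re] at h2
    have h3 := neg_le_of_abs_le (h2.trans h1)
    simp only [hu, hv]
    rw [hGi i (by omega), hGi _ hj, hGi t le_rfl, hAi i (by omega), hAi _ hj]
    linarith
  -- integrability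
  have hint : ∀ (S : Set Ω) b m s e, Integrable (fun ω => Q ω b m s e) (P.restrict S) := by
    intro S b m s e
    refine Integrable.of_bound (hm b m s e).aestronglyMeasurable 1 ?_
    filter_upwards with ω
    exact hb ω b m s e
  have hure : ∀ (S : Set Ω) (i j : ℕ), Integrable (fun ω => (u ω i j).re) (P.restrict S) :=
    fun S i j => (hint S _ _ _ _).re
  have hintU : ∀ (S : Set Ω), Integrable (fun ω => ∑ j ∈ range (t + 1), ∑ i ∈ range j,
      (u ω i j).re) (P.restrict S) := by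
    intro S
    exact integrable_finsetSum _ fun j _ => integrable_finsetSum _ fun i _ => hure S i j
  set N2 : ℝ := ((∑ j ∈ range (t + 1), j : ℕ) : ℝ) with hN2
  have hN2e : N2 = (t : ℝ) * n / 2 := by
    have := Finset.sum_range_id_mul_two (t + 1)
    have h2 : (((∑ j ∈ range (t + 1), j) * 2 : ℕ) : ℝ) = (((t + 1) * (t + 1 - 1) : ℕ) : ℝ) := by
      rw [this]
    rw [Nat.add_sub_cancel] at h2
    push_cast at h2
    rw [hN2, hn]
    push_cast
    linarith
  have hN2le : N2 ≤ n ^ 2 := by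
    rw [hN2e]
    have : (t : ℝ) ≤ n := by rw [hn]; linarith
    have : (0 : ℝ) ≤ t := Nat.cast_nonneg _
    nlinarith
  have hN20 : 0 ≤ N2 := Nat.cast_nonneg _
  have hcount : ∀ C : ℝ, ∑ j ∈ range (t + 1), ∑ i ∈ range j, C = N2 * C := by
    intro C
    simp only [Finset.sum_const, Finset.card_range, nsmul_eq_mul]
    rw [← Finset.sum_mul, hN2]
    push_cast
    rfl
  -- the whole integral
  have htot : ∫ ω, ∑ j ∈ range (t + 1), ∑ i ∈ range j, (u ω i j).re ∂P = -(c * N2) := by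
    have h0 : ∀ b m s e, Integrable (fun ω => Q ω b m s e) P := by
      intro b m s e
      have := hint Set.univ b m s e
      rwa [Measure.restrict_univ] at this
    have h0' : ∀ (i j : ℕ), Integrable (fun ω => (u ω i j).re) P :=
      fun i j => (h0 _ _ _ _).re
    rw [integral_finsetSum _ (fun j _ => integrable_finsetSum _ fun i _ => h0' i j)]
    have h1 : ∀ j ∈ range (t + 1), ∫ ω, ∑ i ∈ range j, (u ω i j).re ∂P = ∑ i ∈ range j, (-c) := by
      intro j hj
      rw [integral_finsetSum _ (fun i _ => h0' i j)]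
      refine Finset.sum_congr rfl fun i hi => ?_
      have hj' := Nat.lt_succ_iff.1 (Finset.mem_range.1 hj)
      have hi' := Finset.mem_range.1 hi
      obtain ⟨j, rfl⟩ : ∃ k, j = k + 1 := ⟨j - 1, by omega⟩
      obtain ⟨⟨x, hx, hGx⟩, ⟨y, hy, hAy⟩, hw', _⟩ := hst j (by omega)
      have hm1 := hmono i j (by omega) (by omega)
      have h2 : ∫ ω, u ω i (j + 1) ∂P = -(c : ℂ) := by
        simp only [hu]
        rw [hGi i (by omega), hGi _ hj', hAi i (by omega), hAi _ hj']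
        refine hbad _ _ _ ?_ (hw' i (by omega)).1 (hw' i (by omega)).2
        omega
      have h3 : ∫ ω, (u ω i (j + 1)).re ∂P = (∫ ω, u ω i (j + 1) ∂P).re := by
        have := integral_re (𝕜 := ℂ) (μ := P) (f := fun ω => u ω i (j + 1)) (h0 _ _ _ _)
        simpa using this
      rw [h3, h2]
      simp
    rw [Finset.sum_congr rfl h1, hcount]
    ring
  -- splitting
  have hub : ∀ ω i j, |(u ω i j).re| ≤ 1 := fun ω i j =>
    (Complex.abs_re_le_norm _).trans (hb _ _ _ _ _)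
  have hsumb : ∀ ω, -N2 ≤ ∑ j ∈ range (t + 1), ∑ i ∈ range j, (u ω i j).re := by
    intro ω
    have h1 := hcount (-1)
    have h2 : ∑ j ∈ range (t + 1), ∑ i ∈ range j, (-1 : ℝ) ≤
        ∑ j ∈ range (t + 1), ∑ i ∈ range j, (u ω i j).re :=
      Finset.sum_le_sum fun j _ => Finset.sum_le_sum fun i _ => (abs_le.1 (hub ω i j)).1
    linarith
  have hlowset : ∀ (S : Set Ω), MeasurableSet S → P.real S ≤ ε → -(n ^ 2 * ε) ≤
      ∫ ω in S, ∑ j ∈ range (t + 1), ∑ i ∈ range j, (u ω i j).re ∂P := by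
    intro S hS hPS
    have h1 : ∫ ω in S, (-N2) ∂P ≤
        ∫ ω in S, ∑ j ∈ range (t + 1), ∑ i ∈ range j, (u ω i j).re ∂P :=
      integral_mono (integrable_const _) (hintU S) hsumb
    rw [setIntegral_const, smul_eq_mul] at h1
    have h2 : 0 ≤ P.real S := measureReal_nonneg
    nlinarith
  have hA1low : -(n / 2) - n ^ 2 * ε ≤
      ∫ ω in A1, ∑ j ∈ range (t + 1), ∑ i ∈ range j, (u ω i j).re ∂P := by
    have h1 : ∫ ω in A1, (-(n / 2) - n ^ 2 * ε) ∂P ≤
        ∫ ω in A1, ∑ j ∈ range (t + 1), ∑ i ∈ range j, (u ω i j).re ∂P := by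
      refine setIntegral_mono_on (integrable_const _) (hintU A1) hA1m fun ω hω => ?_
      have h2 := hpos ω t G' A' hG'm hA'm f
      have h3 : ∑ j ∈ range (t + 1), ∑ i ∈ range j, ((v ω i j).re - ε) ≤
          ∑ j ∈ range (t + 1), ∑ i ∈ range j, (u ω i j).re :=
        Finset.sum_le_sum fun j hj => Finset.sum_le_sum fun i hi =>
          hnear ω hω j (Nat.lt_succ_iff.1 (Finset.mem_range.1 hj)) i (Finset.mem_range.1 hi)
      have h4 : ∑ j ∈ range (t + 1), ∑ i ∈ range j, ((v ω i j).re - ε) =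
          ∑ j ∈ range (t + 1), ∑ i ∈ range j, (v ω i j).re - N2 * ε := by
        rw [← hcount ε, ← Finset.sum_sub_distrib]
        exact Finset.sum_congr rfl fun j _ => Finset.sum_sub_distrib _ _
      have h5 : N2 * ε ≤ n ^ 2 * ε := mul_le_mul_of_nonneg_right hN2le hε.le
      have h6 : -((t : ℝ) + 1) / 2 = -(n / 2) := by rw [hn]; ring
      rw [h6] at h2
      rw [h4] at h3
      have h7 : -(n / 2) ≤ ∑ j ∈ range (t + 1), ∑ i ∈ range j, (v ω i j).re := h2
      linarith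
    rw [setIntegral_const, smul_eq_mul] at h1
    have h2 : P.real A1 ≤ 1 := measureReal_le_one
    have h3 : 0 ≤ P.real A1 := measureReal_nonneg
    have h4 : 0 ≤ n / 2 + n ^ 2 * ε := by positivity
    nlinarith
  have hSSlow : -(n ^ 2 * ε) ≤
      ∫ ω in SS, ∑ j ∈ range (t + 1), ∑ i ∈ range j, (u ω i j).re ∂P := by
    rw [integral_finsetSum _ (fun j _ => integrable_finsetSum _ fun i _ => hure SS i j)]
    have h1 : ∀ j ∈ range (t + 1), -ε ≤ ∫ ω in SS, ∑ i ∈ range j, (u ω i j).re ∂P := by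
      intro j hj
      have hj' := Nat.lt_succ_iff.1 (Finset.mem_range.1 hj)
      rcases Nat.eq_zero_or_pos j with rfl | hj0
      · simp [hε.le]
      · obtain ⟨j, rfl⟩ : ∃ k, j = k + 1 := ⟨j - 1, by omega⟩
        obtain ⟨_, _, _, hs⟩ := hst j (by omega)
        rw [integral_finsetSum _ (fun i _ => hure SS i (j + 1))]
        refine hs.trans (le_of_eq (Finset.sum_congr rfl fun i hi => ?_))
        have hi' := Finset.mem_range.1 hi
        have h3 : ∫ ω in SS, (u ω i (j + 1)).re ∂P = (∫ ω in SS, u ω i (j + 1) ∂P).re := by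
          have := integral_re (𝕜 := ℂ) (μ := P.restrict SS) (f := fun ω => u ω i (j + 1))
            (hint SS _ _ _ _)
          simpa using this
        rw [h3]
        simp only [hu]
        rw [hGi i (by omega), hGi _ hj', hAi i (by omega), hAi _ hj']
    have h2 : ∑ j ∈ range (t + 1), (-ε) ≤
        ∑ j ∈ range (t + 1), ∫ ω in SS, ∑ i ∈ range j, (u ω i j).re ∂P :=
      Finset.sum_le_sum h1
    have h3 : ∑ j ∈ range (t + 1), (-ε) = -(n * ε) := by
      rw [Finset.sum_const, Finset.card_range, nsmul_eq_mul, hn]; push_cast; ring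
    have h4 : n * ε ≤ n ^ 2 * ε := by
      apply mul_le_mul_of_nonneg_right _ hε.le
      nlinarith
    linarith
  -- the four parts
  set A2 : Set Ω := AA ∩ {ω | ¬ ∀ b m s e e' : ℕ, q ∣ b → q ∣ m →
      q ∣ s → q ∣ e → q ∣ e' → M' ≤ m + s → M' ≤ e → M' ≤ e' →
      ‖Q ω b m s e - Q ω b m s e'‖ ≤ ε} with hA2
  have hA2m : MeasurableSet A2 := hAAm.inter (measA4e Q hm q M' ε).compl
  set NN : Set Ω := {ω | ¬ (A4 (Q ω) q ∨ A3 (Q ω) q)} with hNN
  have hNNm : MeasurableSet NN := (hAAm.union (measA3 Q hm q)).compl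
  have hsplit : ∀ F : Ω → ℝ, Integrable F P → ∫ ω, F ω ∂P =
      ∫ ω in A1, F ω ∂P + ∫ ω in A2, F ω ∂P + ∫ ω in SS, F ω ∂P + ∫ ω in NN, F ω ∂P := by
    intro F hF
    have d1 : Disjoint A1 A2 := by
      rw [Set.disjoint_left]; intro ω h1 h2; exact h2.2 h1.2
    have e1 : A1 ∪ A2 = AA := by
      ext ω
      constructor
      · rintro (h | h) <;> exact h.1
      · intro h
        by_cases h' : ∀ b m s e e' : ℕ, q ∣ b → q ∣ m →
            q ∣ s → q ∣ e → q ∣ e' → M' ≤ m + s → M' ≤ e → M' ≤ e' →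
            ‖Q ω b m s e - Q ω b m s e'‖ ≤ ε
        · exact Or.inl ⟨h, h'⟩
        · exact Or.inr ⟨h, h'⟩
    have d2 : Disjoint SS NN := by
      rw [Set.disjoint_left]; intro ω h1 h2; exact h2 (Or.inr h1.1)
    have e2 : SS ∪ NN = AAᶜ := by
      ext ω
      constructor
      · rintro (h | h)
        · exact h.2
        · exact fun h' => h (Or.inl h')
      · intro h
        by_cases h' : A3 (Q ω) q
        · exact Or.inl ⟨h', h⟩
        · exact Or.inr (fun h2 => h2.elim h h')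
    have s1 := setIntegral_union d1 hA2m hF.integrableOn hF.integrableOn (f := F) (μ := P)
    have s2 := setIntegral_union d2 hNNm hF.integrableOn hF.integrableOn (f := F) (μ := P)
    rw [e1] at s1
    rw [e2] at s2
    have s3 := integral_add_compl hAAm hF
    linarith
  have hfin := hsplit _ (by
    have := hintU Set.univ
    rwa [Measure.restrict_univ] at this)
  rw [htot] at hfin
  have hA2low := hlowset A2 hA2m hM'
  have hNNlow := hlowset NN hNNm hPq
  have h9 : c * N2 ≤ n / 2 + 4 * (n ^ 2 * ε) := by linarith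
  rw [hεn, hN2e] at h9
  nlinarith

end Pool.Agent.Lib.MP_90b327_co.EX
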