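import Mathlib
import Pool.Agent.Lib.MP_90b327_co.EX.EDefs

/-!
MODULE ERem. Text section 2: removal of a common cell whose transposed cell is not a difference cell.
-/

set_option autoImplicit false

namespace Pool.Agent.Lib.MP_90b327_co.EX

open Finset Pool.Agent.Lib.MP_90b327_co Pool.Agent.Lib.MP_90b327_co.RB

/-- vertices on which the patterns agree are emptied, one after the other -/
theorem JK.rem_set {D : ℝ} {g : Pt → Pt → ℝ} (h : JK D g) (C : Finset ℕ) : ∀ X Y : Pt,
    (∀ c : ℕ × ℕ, (c.1 ∈ C ∨ c.2 ∈ C) → (c ∈ X ↔ c ∈ Y)) →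
      g X Y = g (X.filter (fun c => c.1 ∉ C ∧ c.2 ∉ C)) (Y.filter (fun c => c.1 ∉ C ∧ c.2 ∉ C)) := by
  induction C using Finset.induction_on with
  | empty =>
    intro X Y _
    simp
  | insert v C hv ih =>
    intro X Y hXY
    have h1 : ∀ Z : Pt, (Z.filter (fun c => c.1 ≠ v ∧ c.2 ≠ v)).filter
        (fun c => c.1 ∉ C ∧ c.2 ∉ C) =
        Z.filter (fun c => c.1 ∉ insert v C ∧ c.2 ∉ insert v C) := by
      intro Z
      ext d
      simp only [mem_filter, mem_insert, not_or]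
      tauto
    rw [h.rem X Y v (fun c hc => hXY c (hc.imp (fun e => by rw [e]; exact mem_insert_self _ _)
      (fun e => by rw [e]; exact mem_insert_self _ _))),
      ih (X.filter (fun c => c.1 ≠ v ∧ c.2 ≠ v)) (Y.filter (fun c => c.1 ≠ v ∧ c.2 ≠ v)) ?_, h1, h1]
    intro c hc
    simp only [mem_filter]
    have := hXY c (hc.imp (fun e => mem_insert_of_mem e) (fun e => mem_insert_of_mem e))
    tauto

section copies

private def rmv (p m a : ℕ) : ℕ := if a = p then m else a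

private def cpy (p m : ℕ) (Z : Pt) : Pt :=
  rl (rmv p m) (rmv p m) (Z.filter (fun c => c.1 = p ∨ c.2 = p))

private def nop (p : ℕ) (Z : Pt) : Pt := Z.filter (fun c => c.1 ≠ p ∧ c.2 ≠ p)

private def WC {ι : Type} [Fintype ι] (p : ℕ) (f : ι → ℕ) (U : Pt) (V : ι → Pt) : Pt :=
  nop p U ∪ univ.biUnion (fun s => cpy p (f s) (V s))

private def Bd (n : ℕ) (Z : Pt) : Prop := ∀ c ∈ Z, c.1 < n ∧ c.2 < n

private theorem mem_cpy (p m : ℕ) (Z : Pt) (c : ℕ × ℕ) : c ∈ cpy p m Z ↔
    ∃ d ∈ Z, (d.1 = p ∨ d.2 = p) ∧ rmv p m d.1 = c.1 ∧ rmv p m d.2 = c.2 := by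
  unfold cpy rl
  simp only [mem_image, mem_filter, Prod.ext_iff]
  constructor
  · rintro ⟨d, ⟨h1, h2⟩, h3⟩; exact ⟨d, h1, h2, h3⟩
  · rintro ⟨d, h1, h2, h3⟩; exact ⟨d, ⟨h1, h2⟩, h3⟩

private theorem mem_WC {ι : Type} [Fintype ι] (p : ℕ) (f : ι → ℕ) (U : Pt) (V : ι → Pt)
    (c : ℕ × ℕ) : c ∈ WC p f U V ↔ (c ∈ U ∧ c.1 ≠ p ∧ c.2 ≠ p) ∨ ∃ s, ∃ d ∈ V s,
      (d.1 = p ∨ d.2 = p) ∧ rmv p (f s) d.1 = c.1 ∧ rmv p (f s) d.2 = c.2 := by
  unfold WC nop
  simp only [mem_union, mem_filter, mem_biUnion, mem_univ, true_and, mem_cpy]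

private theorem rmv_self (p m : ℕ) : rmv p m p = m := if_pos rfl

private theorem rmv_ne {p m a : ℕ} (h : a ≠ p) : rmv p m a = a := if_neg h

/-- the two patterns agree at the copy `f s` -/
private theorem agree_copy {ι : Type} [Fintype ι] {p n : ℕ} {f : ι → ℕ}
    (hfn : ∀ s, n ≤ f s) (hfi : ∀ s s', f s = f s' → s = s') {U U' : Pt} {V V' : ι → Pt}
    (hU : Bd n U) (hU' : Bd n U') (hV : ∀ s, Bd n (V s)) (hV' : ∀ s, Bd n (V' s)) (s : ι)
    (hs : V s = V' s) (c : ℕ × ℕ) (hc : c.1 = f s ∨ c.2 = f s) :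
    c ∈ WC p f U V ↔ c ∈ WC p f U' V' := by
  have key : ∀ {U U' : Pt} {V V' : ι → Pt}, Bd n U → (∀ s, Bd n (V s)) → V s = V' s →
      c ∈ WC p f U V → c ∈ WC p f U' V' := by
    intro U U' V V' hU hV hs hm
    rw [mem_WC] at hm ⊢
    have hn := hfn s
    rcases hm with ⟨h1, _⟩ | ⟨s', d, hd, h1, h2, h3⟩
    · have := hU c h1
      rcases hc with h | h <;> omega
    · right
      have hss : s' = s := by
        by_contra hne
        have hne' : f s' ≠ f s := fun h => hne (hfi _ _ h)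
        have hdn := hV s' d hd
        rcases hc with h | h
        · rw [h] at h2
          by_cases hd1 : d.1 = p
          · rw [hd1, rmv_self] at h2; exact hne' h2
          · rw [rmv_ne hd1] at h2; omega
        · rw [h] at h3
          by_cases hd1 : d.2 = p
          · rw [hd1, rmv_self] at h3; exact hne' h3
          · rw [rmv_ne hd1] at h3; omega
      subst hss
      exact ⟨s', d, hs ▸ hd, h1, h2, h3⟩
  exact ⟨key hU hV hs, key hU' hV' hs.symm⟩

/-- the two patterns agree at `q` -/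
private theorem agree_q {ι : Type} [Fintype ι] {p q n : ℕ} {f : ι → ℕ} (hqn : q < n)
    (hpq : p ≠ q) (hfn : ∀ s, n ≤ f s) {U : Pt} {V V' : ι → Pt}
    (h1 : ∀ s, (p, q) ∈ V s ↔ (p, q) ∈ V' s) (h2 : ∀ s, (q, p) ∈ V s ↔ (q, p) ∈ V' s)
    (c : ℕ × ℕ) (hc : c.1 = q ∨ c.2 = q) : c ∈ WC p f U V ↔ c ∈ WC p f U V' := by
  have key : ∀ {V V' : ι → Pt}, (∀ s, (p, q) ∈ V s ↔ (p, q) ∈ V' s) →
      (∀ s, (q, p) ∈ V s ↔ (q, p) ∈ V' s) → c ∈ WC p f U V → c ∈ WC p f U V' := by
    intro V V' h1 h2 hm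
    rw [mem_WC] at hm ⊢
    rcases hm with h | ⟨s, d, hd, h3, h4, h5⟩
    · exact Or.inl h
    · right
      have hn := hfn s
      refine ⟨s, d, ?_, h3, h4, h5⟩
      obtain ⟨a, b⟩ := d
      simp only at h3 h4 h5
      rcases hc with h | h
      · rw [h] at h4
        have ha : a ≠ p := by
          rintro rfl
          rw [rmv_self] at h4; omega
        rw [rmv_ne ha] at h4
        have hb : b = p := h3.resolve_left ha
        subst h4; subst hb
        exact (h2 s).1 hd
      · rw [h] at h5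
        have hb : b ≠ p := by
          rintro rfl
          rw [rmv_self] at h5; omega
        rw [rmv_ne hb] at h5
        have ha : a = p := h3.resolve_right hb
        subst h5; subst ha
        exact (h1 s).1 hd
  exact ⟨key h1 h2, key (fun s => (h1 s).symm) (fun s => (h2 s).symm)⟩

/-- emptying the vertices of `C` -/
private theorem filter_WC {ι : Type} [Fintype ι] {p : ℕ} {f : ι → ℕ} {C : Finset ℕ} (hp : p ∉ C)
    (U : Pt) (V : ι → Pt) : (WC p f U V).filter (fun c => c.1 ∉ C ∧ c.2 ∉ C) =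
      WC p f (U.filter (fun c => c.1 ∉ C ∧ c.2 ∉ C))
        (fun s => if f s ∈ C then ∅ else (V s).filter (fun c => c.1 ∉ C ∧ c.2 ∉ C)) := by
  ext c
  rw [mem_filter, mem_WC, mem_WC, mem_filter]
  constructor
  · rintro ⟨h | ⟨s, d, hd, h1, h2, h3⟩, h4, h5⟩
    · left; exact ⟨⟨h.1, h4, h5⟩, h.2⟩
    · right
      have hfs : f s ∉ C := by
        rcases h1 with h1 | h1
        · rw [h1, rmv_self] at h2; rw [h2]; exact h4
        · rw [h1, rmv_self] at h3; rw [h3]; exact h5
      refine ⟨s, d, ?_, h1, h2, h3⟩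
      rw [if_neg hfs, mem_filter]
      refine ⟨hd, ?_, ?_⟩
      · by_cases hdp : d.1 = p
        · rw [hdp]; exact hp
        · rw [rmv_ne hdp] at h2; rw [h2]; exact h4
      · by_cases hdp : d.2 = p
        · rw [hdp]; exact hp
        · rw [rmv_ne hdp] at h3; rw [h3]; exact h5
  · rintro (⟨⟨h1, h2⟩, h3⟩ | ⟨s, d, hd, h1, h2, h3⟩)
    · exact ⟨Or.inl ⟨h1, h3⟩, h2⟩
    · by_cases hfs : f s ∈ C
      · rw [if_pos hfs] at hd
        exact absurd hd (notMem_empty _)
      · rw [if_neg hfs, mem_filter] at hd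
        refine ⟨Or.inr ⟨s, d, hd.1, h1, h2, h3⟩, ?_, ?_⟩
        · rw [← h2]
          by_cases hdp : d.1 = p
          · rw [hdp, rmv_self]; exact hfs
          · rw [rmv_ne hdp]; exact hd.2.1
        · rw [← h3]
          by_cases hdp : d.2 = p
          · rw [hdp, rmv_self]; exact hfs
          · rw [rmv_ne hdp]; exact hd.2.2

/-- only one copy left: a relabelling -/
private theorem WC_one {ι : Type} [Fintype ι] [DecidableEq ι] {p n : ℕ} {f : ι → ℕ}
    (hfn : ∀ s, n ≤ f s) (s : ι) (U Z : Pt) (hZ : Bd n Z)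
    (hUZ : ∀ c : ℕ × ℕ, c.1 ≠ p → c.2 ≠ p → (c ∈ U ↔ c ∈ Z)) (V : ι → Pt) (hVs : V s = Z)
    (hV : ∀ s', s' ≠ s → V s' = ∅) :
    WC p f U V = rl (Equiv.swap p (f s)) (Equiv.swap p (f s)) Z := by
  have hn := hfn s
  have hsw : ∀ a, a < n → Equiv.swap p (f s) a = rmv p (f s) a := by
    intro a ha
    by_cases h : a = p
    · rw [h, Equiv.swap_apply_left, rmv_self]
    · rw [Equiv.swap_apply_of_ne_of_ne h (by omega), rmv_ne h]
  ext c
  rw [mem_WC]
  unfold rl
  rw [mem_image]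
  constructor
  · rintro (⟨h1, h2, h3⟩ | ⟨s', d, hd, h1, h2, h3⟩)
    · have hc := (hUZ c h2 h3).1 h1
      refine ⟨c, hc, ?_⟩
      rw [hsw _ (hZ c hc).1, hsw _ (hZ c hc).2, rmv_ne h2, rmv_ne h3]
    · by_cases hss : s' = s
      · subst hss
        rw [hVs] at hd
        refine ⟨d, hd, ?_⟩
        rw [hsw _ (hZ d hd).1, hsw _ (hZ d hd).2, h2, h3]
      · rw [hV s' hss] at hd
        exact absurd hd (notMem_empty _)
  · rintro ⟨d, hd, rfl⟩
    have h1 := hZ d hd
    by_cases h2 : d.1 = p ∨ d.2 = p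
    · right
      exact ⟨s, d, hVs ▸ hd, h2, (hsw _ h1.1).symm, (hsw _ h1.2).symm⟩
    · left
      push Not at h2
      show (Equiv.swap p (f s) d.1, Equiv.swap p (f s) d.2) ∈ U ∧
        Equiv.swap p (f s) d.1 ≠ p ∧ Equiv.swap p (f s) d.2 ≠ p
      rw [hsw _ h1.1, hsw _ h1.2, rmv_ne h2.1, rmv_ne h2.2]
      exact ⟨(hUZ d h2.1 h2.2).2 hd, h2.1, h2.2⟩

/-- two copies left: a relabelling of a fixed pattern -/
private theorem WC_two {ι : Type} [Fintype ι] [DecidableEq ι] {p n : ℕ} {f : ι → ℕ}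
    (s s' : ι) (hss : s ≠ s') (U Z Z' : Pt) (hU : Bd n U) (hZ : Bd n Z) (hZ' : Bd n Z')
    (V : ι → Pt) (hVs : V s = Z) (hVs' : V s' = Z') (hV : ∀ s'', s'' ≠ s → s'' ≠ s' → V s'' = ∅)
    (τ : ℕ → ℕ) (hτ : ∀ a < n, τ a = a) (hτ0 : τ n = f s) (hτ1 : τ (n + 1) = f s') :
    WC p f U V = rl τ τ (WC p (fun b : Bool => if b then n + 1 else n) U
      (fun b : Bool => if b then Z' else Z)) := by
  have e : ∀ (m a : ℕ), a < n → τ (rmv p m a) = rmv p (τ m) a := by
    intro m a ha
    by_cases h : a = p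
    · rw [h, rmv_self, rmv_self]
    · rw [rmv_ne h, rmv_ne h, hτ a ha]
  ext c
  rw [mem_WC]
  unfold rl
  rw [mem_image]
  constructor
  · rintro (⟨h1, h2⟩ | ⟨t, d, hd, h1, h2, h3⟩)
    · refine ⟨c, (mem_WC _ _ _ _ _).2 (Or.inl ⟨h1, h2⟩), ?_⟩
      rw [hτ _ (hU c h1).1, hτ _ (hU c h1).2]
    · by_cases ht : t = s
      · subst ht
        rw [hVs] at hd
        refine ⟨(rmv p n d.1, rmv p n d.2), (mem_WC _ _ _ _ _).2
          (Or.inr ⟨false, d, by simpa using hd, h1, by simp, by simp⟩), ?_⟩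
        show (τ (rmv p n d.1), τ (rmv p n d.2)) = c
        rw [e _ _ (hZ d hd).1, e _ _ (hZ d hd).2, hτ0, h2, h3]
      · by_cases ht' : t = s'
        · subst ht'
          rw [hVs'] at hd
          refine ⟨(rmv p (n + 1) d.1, rmv p (n + 1) d.2), (mem_WC _ _ _ _ _).2
            (Or.inr ⟨true, d, by simpa using hd, h1, by simp, by simp⟩), ?_⟩
          show (τ (rmv p (n + 1) d.1), τ (rmv p (n + 1) d.2)) = c
          rw [e _ _ (hZ' d hd).1, e _ _ (hZ' d hd).2, hτ1, h2, h3]
        · rw [hV t ht ht'] at hd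
          exact absurd hd (notMem_empty _)
  · rintro ⟨x, hx, rfl⟩
    rw [mem_WC] at hx
    rcases hx with ⟨h1, h2, h3⟩ | ⟨b, d, hd, h1, h2, h3⟩
    · left
      rw [hτ _ (hU x h1).1, hτ _ (hU x h1).2]
      exact ⟨h1, h2, h3⟩
    · right
      cases b
      · simp only [Bool.false_eq_true, if_false] at hd h2 h3
        refine ⟨s, d, hVs ▸ hd, h1, ?_, ?_⟩
        · rw [← h2, e _ _ (hZ d hd).1, hτ0]
        · rw [← h3, e _ _ (hZ d hd).2, hτ0]
      · simp only [if_true] at hd h2 h3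
        refine ⟨s', d, hVs' ▸ hd, h1, ?_, ?_⟩
        · rw [← h2, e _ _ (hZ' d hd).1, hτ1]
        · rw [← h3, e _ _ (hZ' d hd).2, hτ1]

theorem rem_family {D : ℝ} {g : Pt → Pt → ℝ} (h : JK D g) (X Y : Pt) (p q : ℕ) (hpq : p ≠ q)
    (hX : (p, q) ∉ X) (hY : (p, q) ∉ Y) (hs : (q, p) ∈ X ↔ (q, p) ∈ Y) :
    ∃ ρ : ℝ, ∀ T : ℕ, ∃ (x : Pt) (y : Fin T × Bool → Pt), (∀ t, g x (y (t, false)) = g X Y) ∧
      (∀ t, g x (y (t, true)) = g (insert (p, q) X) (insert (p, q) Y)) ∧
      ∀ s s', s ≠ s' → g (y s) (y s') = ρ := by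
  obtain ⟨n, hpn, hqn, hXn, hYn⟩ : ∃ n, p < n ∧ q < n ∧ Bd n X ∧ Bd n Y := by
    refine ⟨p + q + X.sup Prod.fst + X.sup Prod.snd + Y.sup Prod.fst + Y.sup Prod.snd + 1,
      by omega, by omega, fun c hc => ?_, fun c hc => ?_⟩
    · have h1 : c.1 ≤ X.sup Prod.fst := Finset.le_sup (f := Prod.fst) hc
      have h2 : c.2 ≤ X.sup Prod.snd := Finset.le_sup (f := Prod.snd) hc
      omega
    · have h1 : c.1 ≤ Y.sup Prod.fst := Finset.le_sup (f := Prod.fst) hc
      have h2 : c.2 ≤ Y.sup Prod.snd := Finset.le_sup (f := Prod.snd) hc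
      omega
  set XX : Bool → Pt := fun b => if b then insert (p, q) X else X with hXX
  set YY : Bool → Pt := fun b => if b then insert (p, q) Y else Y with hYY
  have hXXn : ∀ b, Bd n (XX b) := by
    intro b
    cases b
    · exact hXn
    · intro c hc
      simp only [hXX, if_true, mem_insert] at hc
      rcases hc with rfl | hc
      · exact ⟨hpn, hqn⟩
      · exact hXn c hc
  have hYYn : ∀ b, Bd n (YY b) := by
    intro b
    cases b
    · exact hYn
    · intro c hc
      simp only [hYY, if_true, mem_insert] at hc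
      rcases hc with rfl | hc
      · exact ⟨hpn, hqn⟩
      · exact hYn c hc
  have hXp : ∀ b, ∀ c : ℕ × ℕ, c.1 ≠ p → c.2 ≠ p → (c ∈ X ↔ c ∈ XX b) := by
    intro b c h1 h2
    cases b
    · rfl
    · simp only [hXX, if_true, mem_insert]
      constructor
      · exact Or.inr
      · rintro (rfl | h)
        · exact absurd rfl h1
        · exact h
  have hYp : ∀ b, ∀ c : ℕ × ℕ, c.1 ≠ p → c.2 ≠ p → (c ∈ Y ↔ c ∈ YY b) := by
    intro b c h1 h2
    cases b
    · rfl
    · simp only [hYY, if_true, mem_insert]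
      constructor
      · exact Or.inr
      · rintro (rfl | h)
        · exact absurd rfl h1
        · exact h
  -- the fixed reference
  set Xq : Pt := X.filter (fun c => c.1 ≠ q ∧ c.2 ≠ q) with hXq
  set Yq : Pt := Y.filter (fun c => c.1 ≠ q ∧ c.2 ≠ q) with hYq
  have hXqn : Bd n Xq := fun c hc => hXn c (mem_filter.1 hc).1
  have hYqn : Bd n Yq := fun c hc => hYn c (mem_filter.1 hc).1
  refine ⟨g (WC p (fun b : Bool => if b then n + 1 else n) Yq (fun b : Bool => if b then Xq else Yq))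
    (WC p (fun b : Bool => if b then n + 1 else n) Yq (fun b : Bool => if b then Yq else Xq)),
    fun T => ?_⟩
  obtain ⟨f, hf⟩ : ∃ f : Fin T × Bool → ℕ, f = fun s => n + 2 * s.1.1 + (if s.2 then 1 else 0) :=
    ⟨_, rfl⟩
  have hfn : ∀ s, n ≤ f s := by
    intro s
    rw [hf]
    dsimp only
    omega
  have hfi : ∀ s s', f s = f s' → s = s' := by
    rintro ⟨⟨t, ht⟩, b⟩ ⟨⟨t', ht'⟩, b'⟩ hpp
    rw [hf] at hpp
    dsimp only at hpp
    have h1 : t = t' ∧ b = b' := by
      cases b <;> cases b' <;> simp at hpp ⊢ <;> omega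
    obtain ⟨rfl, rfl⟩ := h1
    rfl
  set Vx : Fin T × Bool → Pt := fun s => XX s.2 with hVx
  set Vy : Fin T × Bool → Fin T × Bool → Pt := fun s s' => if s' = s then YY s.2 else XX s'.2
    with hVy
  have hVxn : ∀ s, Bd n (Vx s) := fun s => hXXn _
  have hVyn : ∀ s s', Bd n (Vy s s') := by
    intro s s'
    simp only [hVy]
    split_ifs
    · exact hYYn _
    · exact hXXn _
  -- part (b)
  have hb : ∀ s : Fin T × Bool, g (WC p f X Vx) (WC p f Y (Vy s)) = g (XX s.2) (YY s.2) := by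
    intro s
    have hpC : p ∉ (univ.erase s).image f := by
      intro hm
      obtain ⟨s', _, h2⟩ := mem_image.1 hm
      have := hfn s'
      omega
    have hfC : ∀ s', f s' ∈ (univ.erase s).image f ↔ s' ≠ s := by
      intro s'
      rw [mem_image]
      constructor
      · rintro ⟨s'', h1, h2⟩
        rw [← hfi _ _ h2]
        exact (mem_erase.1 h1).1
      · intro h1
        exact ⟨s', mem_erase.2 ⟨h1, mem_univ _⟩, rfl⟩
    have hbd : ∀ Z : Pt, Bd n Z → Z.filter (fun c => c.1 ∉ (univ.erase s).image f ∧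
        c.2 ∉ (univ.erase s).image f) = Z := by
      intro Z hZ
      rw [filter_eq_self]
      intro c hc
      have h1 := hZ c hc
      constructor
      · intro hm
        obtain ⟨s', _, h2⟩ := mem_image.1 hm
        have := hfn s'
        omega
      · intro hm
        obtain ⟨s', _, h2⟩ := mem_image.1 hm
        have := hfn s'
        omega
    rw [h.rem_set ((univ.erase s).image f) _ _ ?_, filter_WC hpC, filter_WC hpC, hbd X hXn,
      hbd Y hYn, WC_one hfn s X (XX s.2) (hXXn _) (hXp _) _ ?_ ?_,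
      WC_one hfn s Y (YY s.2) (hYYn _) (hYp _) _ ?_ ?_]
    · exact h.inv _ (Equiv.swap p (f s)).injective _ _
    · rw [if_neg (by rw [hfC]; simp), hbd _ (hVyn s s)]
      simp [hVy]
    · intro s' hs'
      rw [if_pos ((hfC s').2 hs')]
    · rw [if_neg (by rw [hfC]; simp), hbd _ (hVxn s)]
    · intro s' hs'
      rw [if_pos ((hfC s').2 hs')]
    · intro c hc
      have : ∃ s', s' ≠ s ∧ (c.1 = f s' ∨ c.2 = f s') := by
        rcases hc with hc | hc
        · obtain ⟨s', h1, h2⟩ := mem_image.1 hc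
          exact ⟨s', (mem_erase.1 h1).1, Or.inl h2.symm⟩
        · obtain ⟨s', h1, h2⟩ := mem_image.1 hc
          exact ⟨s', (mem_erase.1 h1).1, Or.inr h2.symm⟩
      obtain ⟨s', h1, h2⟩ := this
      refine agree_copy hfn hfi hXn hYn hVxn (hVyn s) s' ?_ c h2
      simp only [hVx, hVy]
      rw [if_neg h1]
  refine ⟨WC p f X Vx, fun s => WC p f Y (Vy s), fun t => ?_, fun t => ?_, ?_⟩
  · exact hb (t, false)
  · exact hb (t, true)
  -- part (c)
  intro s s' hss
  set C : Finset ℕ := insert q (((univ.erase s).erase s').image f) with hC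
  have hpC : p ∉ C := by
    rw [hC, mem_insert, not_or]
    refine ⟨hpq, fun hm => ?_⟩
    obtain ⟨s', _, h2⟩ := mem_image.1 hm
    have := hfn s'
    omega
  have hfC : ∀ s'', f s'' ∈ C ↔ (s'' ≠ s ∧ s'' ≠ s') := by
    intro s''
    rw [hC, mem_insert, mem_image]
    constructor
    · rintro (h1 | ⟨t, h1, h2⟩)
      · have := hfn s''
        omega
      · rw [← hfi _ _ h2]
        have h3 := mem_erase.1 h1
        exact ⟨(mem_erase.1 h3.2).1, h3.1⟩
    · rintro ⟨h1, h2⟩
      exact Or.inr ⟨s'', mem_erase.2 ⟨h2, mem_erase.2 ⟨h1, mem_univ _⟩⟩, rfl⟩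
  have hbd : ∀ Z : Pt, Bd n Z → Z.filter (fun c => c.1 ∉ C ∧ c.2 ∉ C) =
      Z.filter (fun c => c.1 ≠ q ∧ c.2 ≠ q) := by
    intro Z hZ
    refine filter_congr fun c hc => ?_
    have h1 := hZ c hc
    have h2 : ∀ a, a < n → (a ∉ C ↔ a ≠ q) := by
      intro a ha
      rw [hC, mem_insert, not_or]
      constructor
      · exact fun h => h.1
      · intro h
        refine ⟨h, fun hm => ?_⟩
        obtain ⟨s', _, h2⟩ := mem_image.1 hm
        have := hfn s'
        omega
    rw [h2 _ h1.1, h2 _ h1.2]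
  have hXXq : ∀ b, (XX b).filter (fun c => c.1 ≠ q ∧ c.2 ≠ q) = Xq := by
    intro b
    cases b
    · rfl
    · simp only [hXX, if_true]
      rw [filter_insert, if_neg (by simp)]
  have hYYq : ∀ b, (YY b).filter (fun c => c.1 ≠ q ∧ c.2 ≠ q) = Yq := by
    intro b
    cases b
    · rfl
    · simp only [hYY, if_true]
      rw [filter_insert, if_neg (by simp)]
  obtain ⟨τ, hτd⟩ : ∃ τ : ℕ → ℕ, τ = fun k => if k < n then k else if k = n then f s else
    if k = n + 1 then f s' else f s + f s' + k := ⟨_, rfl⟩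
  have hτ : ∀ a < n, τ a = a := by intro a ha; rw [hτd]; simp [ha]
  have hτ0 : τ n = f s := by rw [hτd]; simp
  have hτ1 : τ (n + 1) = f s' := by rw [hτd]; simp
  have hfne : f s ≠ f s' := fun h => hss (hfi _ _ h)
  have hτi : Function.Injective τ := by
    intro a b hab
    have h1 := hfn s
    have h2 := hfn s'
    rw [hτd] at hab
    dsimp only at hab
    split_ifs at hab <;> omega
  have hmX : ∀ b, ((p, q) ∈ XX b ↔ (p, q) ∈ YY b) ∧ ((q, p) ∈ XX b ↔ (q, p) ∈ YY b) := by
    intro b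
    cases b
    · exact ⟨⟨fun h => absurd h hX, fun h => absurd h hY⟩, hs⟩
    · simp only [hXX, hYY, if_true, mem_insert, true_or, iff_self, true_and]
      rw [hs]
  rw [h.rem_set C _ _ ?_, filter_WC hpC, filter_WC hpC, hbd Y hYn,
    WC_two (n := n) s s' hss Yq Yq Xq hYqn hYqn hXqn _ ?_ ?_ ?_ τ hτ hτ0 hτ1,
    WC_two (n := n) s s' hss Yq Xq Yq hYqn hXqn hYqn _ ?_ ?_ ?_ τ hτ hτ0 hτ1]
  · exact h.inv τ hτi _ _
  · rw [if_neg (by rw [hfC]; tauto), hbd _ (hVyn _ _)]
    simp only [hVy]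
    rw [if_neg hss, hXXq]
  · rw [if_neg (by rw [hfC]; tauto), hbd _ (hVyn _ _)]
    simp only [hVy, if_true]
    exact hYYq _
  · intro s'' h1 h2
    rw [if_pos ((hfC s'').2 ⟨h1, h2⟩)]
  · rw [if_neg (by rw [hfC]; tauto), hbd _ (hVyn _ _)]
    simp only [hVy, if_true]
    exact hYYq _
  · rw [if_neg (by rw [hfC]; tauto), hbd _ (hVyn _ _)]
    simp only [hVy]
    rw [if_neg hss.symm, hXXq]
  · intro s'' h1 h2
    rw [if_pos ((hfC s'').2 ⟨h1, h2⟩)]
  · intro c hc
    have hcase : (c.1 = q ∨ c.2 = q) ∨ ∃ s'', s'' ≠ s ∧ s'' ≠ s' ∧ (c.1 = f s'' ∨ c.2 = f s'') := by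
      rcases hc with hc | hc
      · rw [hC, mem_insert] at hc
        rcases hc with hc | hc
        · exact Or.inl (Or.inl hc)
        · obtain ⟨t, h1, h2⟩ := mem_image.1 hc
          have h3 := mem_erase.1 h1
          exact Or.inr ⟨t, (mem_erase.1 h3.2).1, h3.1, Or.inl h2.symm⟩
      · rw [hC, mem_insert] at hc
        rcases hc with hc | hc
        · exact Or.inl (Or.inr hc)
        · obtain ⟨t, h1, h2⟩ := mem_image.1 hc
          have h3 := mem_erase.1 h1
          exact Or.inr ⟨t, (mem_erase.1 h3.2).1, h3.1, Or.inr h2.symm⟩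
    rcases hcase with hc | ⟨t, h1, h2, h3⟩
    · refine agree_q hqn hpq hfn (fun t => ?_) (fun t => ?_) c hc
      · simp only [hVy]
        by_cases e1 : t = s
        · rw [if_pos e1, if_neg (by rw [e1]; exact hss), e1]; exact (hmX _).1.symm
        · rw [if_neg e1]
          by_cases e2 : t = s'
          · rw [if_pos e2, e2]; exact (hmX _).1
          · rw [if_neg e2]
      · simp only [hVy]
        by_cases e1 : t = s
        · rw [if_pos e1, if_neg (by rw [e1]; exact hss), e1]; exact (hmX _).2.symm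
        · rw [if_neg e1]
          by_cases e2 : t = s'
          · rw [if_pos e2, e2]; exact (hmX _).2
          · rw [if_neg e2]
    · refine agree_copy hfn hfi hYn hYn (hVyn s) (hVyn s') t ?_ c h3
      simp only [hVy]
      rw [if_neg h1, if_neg h2]

end copies

/-! ### positivity -/

private noncomputable def re_w (T : ℕ) (p : Fin T × Bool) : ℝ :=
  if p.2 = true then -(1 / (T : ℝ)) else 1 / T

private theorem re_w_sum (T : ℕ) : ∑ p : Fin T × Bool, re_w T p = 0 := by
  rw [Fintype.sum_prod_type]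
  refine Finset.sum_eq_zero fun t _ => ?_
  rw [Fintype.sum_bool]
  simp [re_w]

private theorem re_w_sq (T : ℕ) (hT : 1 ≤ T) : ∑ p : Fin T × Bool, re_w T p * re_w T p = 2 / T := by
  have hT0 : (T : ℝ) ≠ 0 := by
    have : (1 : ℝ) ≤ T := by exact_mod_cast hT
    linarith
  rw [Fintype.sum_prod_type]
  have h1 : ∀ t : Fin T, ∑ b : Bool, re_w T (t, b) * re_w T (t, b) = 2 / (T : ℝ) ^ 2 := by
    intro t
    rw [Fintype.sum_bool]
    simp only [re_w, if_true, Bool.false_eq_true, if_false]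
    field_simp
    norm_num
  rw [Finset.sum_congr rfl fun t _ => h1 t, Finset.sum_const, Finset.card_univ, Fintype.card_fin,
    nsmul_eq_mul]
  field_simp

private theorem re_double (T : ℕ) (hT : 1 ≤ T) (D q : ℝ) (G : Fin T × Bool → Fin T × Bool → ℝ)
    (hd : ∀ p, G p p = D) (ho : ∀ p p', p ≠ p' → G p p' = q) :
    ∑ p, ∑ p', re_w T p * re_w T p' * G p p' = 2 / T * (D - q) := by
  classical
  have h1 : ∀ p, ∑ p', re_w T p * re_w T p' * G p p' =
      re_w T p * (∑ p', re_w T p') * q + (D - q) * (re_w T p * re_w T p) := by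
    intro p
    have h2 : ∀ p', re_w T p * re_w T p' * G p p' = re_w T p * re_w T p' * q +
        (if p = p' then (D - q) * (re_w T p * re_w T p') else 0) := by
      intro p'
      by_cases h : p = p'
      · subst h
        rw [if_pos rfl, hd]
        ring
      · rw [if_neg h, ho p p' h, add_zero]
    rw [Finset.sum_congr rfl fun p' _ => h2 p', Finset.sum_add_distrib, Finset.sum_ite_eq,
      if_pos (Finset.mem_univ p), ← Finset.sum_mul, ← Finset.mul_sum]
  rw [Finset.sum_congr rfl fun p _ => h1 p, Finset.sum_add_distrib, re_w_sum, ← Finset.mul_sum,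
    re_w_sq T hT]
  simp only [mul_zero, zero_mul, Finset.sum_const_zero, zero_add]
  ring

/-- removal lemma -/
theorem JK.removal {D : ℝ} {g : Pt → Pt → ℝ} (h : JK D g) (X Y : Pt) (c : ℕ × ℕ)
    (hc : c.1 ≠ c.2) (hX : c ∉ X) (hY : c ∉ Y) (hs : c.swap ∈ X ↔ c.swap ∈ Y) :
    g (insert c X) (insert c Y) = g X Y := by
  obtain ⟨p, q⟩ := c
  obtain ⟨r, hr⟩ := rem_family h X Y p q hc hX hY hs
  obtain ⟨e, he⟩ : ∃ e, e = g X Y - g (insert (p, q) X) (insert (p, q) Y) := ⟨_, rfl⟩
  have key : ∀ T : ℕ, 1 ≤ T → e ^ 2 ≤ (D - D ^ 2) * (2 * (D - r)) / T := by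
    intro T hT
    obtain ⟨x, y, h1, h2, h3⟩ := hr T
    have hT0 : (0 : ℝ) < T := by exact_mod_cast hT
    have hlam : ∀ lam : ℝ, 0 ≤ (D - D ^ 2) * (lam * lam) + (2 * e) * lam + 2 / T * (D - r) := by
      intro lam
      have hp := h.psd (Option (Fin T × Bool)) (fun o => o.elim x y) (fun o => o.elim lam (re_w T))
      have h4 : ∑ p, re_w T p * g x (y p) = e := by
        rw [Fintype.sum_prod_type]
        have h5 : ∀ t : Fin T, ∑ b : Bool, re_w T (t, b) * g x (y (t, b)) = e / T := by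
          intro t
          rw [Fintype.sum_bool, h1, h2, he]
          simp only [re_w, if_true, Bool.false_eq_true, if_false]
          ring
        rw [Finset.sum_congr rfl fun t _ => h5 t, Finset.sum_const, Finset.card_univ,
          Fintype.card_fin, nsmul_eq_mul]
        field_simp
      have h5 : ∑ p, ∑ p', re_w T p * re_w T p' * g (y p) (y p') = 2 / T * (D - r) :=
        re_double T hT D r (fun p p' => g (y p) (y p')) (fun p => h.diag _) h3
      simp only [Fintype.sum_option, Option.elim_none, Option.elim_some] at hp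
      rw [re_w_sum, add_zero, Finset.sum_add_distrib, h5, h.diag] at hp
      have h6 : ∑ p, lam * re_w T p * g x (y p) = lam * e := by
        rw [← h4, Finset.mul_sum]
        exact Finset.sum_congr rfl fun p _ => by ring
      have h7 : ∑ p, re_w T p * lam * g (y p) x = lam * e := by
        rw [← h4, Finset.mul_sum]
        refine Finset.sum_congr rfl fun p _ => ?_
        rw [h.symm (y p) x]
        ring
      rw [h6, h7] at hp
      linarith
    have hd := discrim_le_zero hlam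
    unfold discrim at hd
    have h8 : (D - D ^ 2) * (2 * (D - r)) / T = (D - D ^ 2) * (2 / T * (D - r)) := by ring
    rw [h8]
    linarith
  have he0 : e = 0 := by
    by_contra hne
    have hpos : 0 < e ^ 2 := by positivity
    obtain ⟨n, hn⟩ := exists_nat_gt ((D - D ^ 2) * (2 * (D - r)) / e ^ 2)
    have h1 := key (n + 1) (by omega)
    have hn1 : (0 : ℝ) < ((n + 1 : ℕ) : ℝ) := by positivity
    rw [le_div_iff₀ hn1] at h1
    rw [div_lt_iff₀ hpos] at hn
    push_cast at h1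
    nlinarith
  rw [he] at he0
  linarith

end Pool.Agent.Lib.MP_90b327_co.EX
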