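import Mathlib
import Pool.Agent.Lib.MP_90b327_co.EX.EDefs
import Pool.Agent.Lib.MP_90b327_co.EX.ERem
import Pool.Agent.Lib.MP_90b327_co.RB.RepC

/-!
MODULE ELev. Text section 3: level one of the joint kernel.
-/

set_option autoImplicit false

namespace Pool.Agent.Lib.MP_90b327_co.EX

open Finset Pool.Agent.Lib.MP_90b327_co Pool.Agent.Lib.MP_90b327_co.RB

private theorem lv_un (σ τ : ℕ → ℕ) (X Y : Pt) : rl σ τ (X ∪ Y) = rl σ τ X ∪ rl σ τ Y :=
  Finset.image_union _ _

private theorem lv_mem (σ τ : ℕ → ℕ) (X : Pt) (c : ℕ × ℕ) :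
    c ∈ rl σ τ X ↔ ∃ d ∈ X, (σ d.1, τ d.2) = c := by
  unfold rl
  exact Finset.mem_image

private theorem lv_mJ (X A : Pt) (c : ℕ × ℕ) :
    c ∈ mJ X A ↔ (∃ d ∈ X, (2 * d.1, 2 * d.2) = c) ∨ (∃ d ∈ A, (2 * d.1 + 1, 2 * d.2 + 1) = c) := by
  unfold mJ
  rw [Finset.mem_union, lv_mem, lv_mem]

private theorem lv_even (X A : Pt) (c : ℕ × ℕ) : (2 * c.1, 2 * c.2) ∈ mJ X A ↔ c ∈ X := by
  rw [lv_mJ]
  constructor
  · rintro (⟨d, hd, hdc⟩ | ⟨d, hd, hdc⟩)
    · rw [Prod.mk.injEq] at hdc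
      have e : d = c := Prod.ext (by omega) (by omega)
      exact e ▸ hd
    · rw [Prod.mk.injEq] at hdc
      omega
  · intro hc
    exact Or.inl ⟨c, hc, rfl⟩

private theorem lv_out {k : Pt → Pt → ℂ} (hk : ∀ X Y X' Y', RJ X Y X' Y' → k X Y = k X' Y')
    (V : Finset ℕ) (X Y : Pt) (hXY : ∀ c : ℕ × ℕ, (c.1 ∈ V ∨ c.2 ∈ V) → (c ∈ X ↔ c ∈ Y)) :
    k X Y = k (X.filter (fun c => c.1 ∉ V ∧ c.2 ∉ V)) (Y.filter (fun c => c.1 ∉ V ∧ c.2 ∉ V)) := by
  classical
  induction V using Finset.induction_on with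
  | empty =>
    have e : ∀ Z : Pt, Z.filter (fun c => c.1 ∉ (∅ : Finset ℕ) ∧ c.2 ∉ (∅ : Finset ℕ)) = Z := by
      intro Z
      apply Finset.filter_true_of_mem
      intro c _
      exact ⟨Finset.notMem_empty _, Finset.notMem_empty _⟩
    rw [e, e]
  | insert v V hv ih =>
    rw [ih (fun c hc => hXY c (by
      rcases hc with hc | hc
      · exact Or.inl (Finset.mem_insert_of_mem hc)
      · exact Or.inr (Finset.mem_insert_of_mem hc)))]
    have e : ∀ Z : Pt, (Z.filter (fun c => c.1 ∉ V ∧ c.2 ∉ V)).filter (fun c => c.1 ≠ v ∧ c.2 ≠ v) =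
        Z.filter (fun c => c.1 ∉ insert v V ∧ c.2 ∉ insert v V) := by
      intro Z
      rw [Finset.filter_filter]
      apply Finset.filter_congr
      intro c _
      rw [Finset.mem_insert, Finset.mem_insert]
      tauto
    refine hk _ _ _ _ (Or.inl ⟨v, ?_, (e X).symm, (e Y).symm⟩)
    intro c hc
    rw [Finset.mem_filter, Finset.mem_filter, hXY c (by
      rcases hc with hc | hc
      · exact Or.inl (hc ▸ Finset.mem_insert_self _ _)
      · exact Or.inr (hc ▸ Finset.mem_insert_self _ _))]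

private theorem lv_rel1 (X A : Pt) (v : ℕ) :
    mJ (X.filter (fun c => c.1 ≠ v ∧ c.2 ≠ v)) A =
      (mJ X A).filter (fun c => c.1 ≠ 2 * v ∧ c.2 ≠ 2 * v) := by
  ext c
  rw [Finset.mem_filter, lv_mJ, lv_mJ]
  constructor
  · rintro (⟨d, hd, rfl⟩ | ⟨d, hd, rfl⟩)
    · rw [Finset.mem_filter] at hd
      refine ⟨Or.inl ⟨d, hd.1, rfl⟩, ?_⟩
      simp only
      omega
    · refine ⟨Or.inr ⟨d, hd, rfl⟩, ?_⟩
      simp only
      omega
  · rintro ⟨⟨d, hd, rfl⟩ | ⟨d, hd, rfl⟩, h2⟩
    · refine Or.inl ⟨d, Finset.mem_filter.mpr ⟨hd, ?_⟩, rfl⟩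
      simp only at h2
      omega
    · exact Or.inr ⟨d, hd, rfl⟩

private theorem lv_agree (X Y A B : Pt) (v : ℕ)
    (hv : ∀ c : ℕ × ℕ, (c.1 = v ∨ c.2 = v) → (c ∈ X ↔ c ∈ Y)) (c : ℕ × ℕ)
    (hc : c.1 = 2 * v ∨ c.2 = 2 * v) (h : c ∈ mJ X A) : c ∈ mJ Y B := by
  rw [lv_mJ] at h ⊢
  rcases h with ⟨d, hd, rfl⟩ | ⟨d, hd, rfl⟩
  · refine Or.inl ⟨d, ?_, rfl⟩
    simp only at hc
    exact (hv d (by omega)).mp hd
  · simp only at hc
    omega

theorem mrgJ : Mrg mJ RJ := by
  refine ⟨?_, ?_, ?_⟩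
  · intro X Y X' Y' A B hR
    rcases hR with ⟨v, hv, rfl, rfl⟩ | ⟨σ, hσ, rfl, rfl⟩ | ⟨c, hc, hX, hY, hs, rfl, rfl⟩
    · refine Or.inl ⟨2 * v, ?_, lv_rel1 X A v, lv_rel1 Y B v⟩
      intro c hc
      exact ⟨lv_agree X Y A B v hv c hc,
        lv_agree Y X B A v (fun c hc => (hv c hc).symm) c hc⟩
    · obtain ⟨ρ, hρ⟩ : ∃ ρ : ℕ → ℕ, ρ = fun v => if v % 2 = 0 then 2 * σ (v / 2) else v := ⟨_, rfl⟩
      have hinj : Function.Injective ρ := by
        intro v w hvw
        rw [hρ] at hvw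
        simp only at hvw
        split_ifs at hvw with h1 h2 h2
        · have h3 : σ (v / 2) = σ (w / 2) := by omega
          have h4 := hσ h3
          omega
        · omega
        · omega
        · exact hvw
      have r0 : ∀ i, ρ (2 * i) = 2 * σ i := by
        intro i
        have h1 : 2 * i % 2 = 0 := by omega
        have h2 : 2 * i / 2 = i := by omega
        rw [hρ]
        simp only [h1, h2, if_true]
      have r1 : ∀ i, ρ (2 * i + 1) = 2 * i + 1 := by
        intro i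
        have h1 : ¬ (2 * i + 1) % 2 = 0 := by omega
        rw [hρ]
        simp only [h1, if_false]
      have e : ∀ Z C : Pt, mJ (rl σ σ Z) C = rl ρ ρ (mJ Z C) := by
        intro Z C
        unfold mJ
        rw [lv_un]
        unfold rl
        rw [Finset.image_image, Finset.image_image, Finset.image_image]
        congr 1
        · apply Finset.image_congr
          intro c _
          simp only [Function.comp_apply, r0]
        · apply Finset.image_congr
          intro c _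
          simp only [Function.comp_apply, r1]
      exact Or.inr (Or.inl ⟨ρ, hinj, e X A, e Y B⟩)
    · have e : ∀ Z C : Pt, mJ (insert c Z) C = insert (2 * c.1, 2 * c.2) (mJ Z C) := by
        intro Z C
        unfold mJ rl
        rw [Finset.image_insert, Finset.insert_union]
      refine Or.inr (Or.inr ⟨(2 * c.1, 2 * c.2), ?_, ?_, ?_, ?_, e X A, e Y B⟩)
      · simp only
        omega
      · rw [lv_even]
        exact hX
      · rw [lv_even]
        exact hY
      · rw [Prod.swap_prod_mk]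
        have h1 : ((2 * c.2, 2 * c.1) : ℕ × ℕ) = (2 * c.swap.1, 2 * c.swap.2) := rfl
        rw [h1, lv_even, lv_even]
        exact hs
  · intro k hk X Y A
    obtain ⟨V, hV⟩ : ∃ V : Finset ℕ, V = (A.image Prod.fst ∪ A.image Prod.snd).image
      (fun i => 2 * i + 1) := ⟨_, rfl⟩
    have hodd : ∀ v ∈ V, ∃ i, v = 2 * i + 1 := by
      intro v hv
      rw [hV, Finset.mem_image] at hv
      obtain ⟨i, _, rfl⟩ := hv
      exact ⟨i, rfl⟩
    have hA : ∀ d ∈ A, 2 * d.1 + 1 ∈ V := by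
      intro d hd
      rw [hV, Finset.mem_image]
      exact ⟨d.1, Finset.mem_union_left _ (Finset.mem_image.mpr ⟨d, hd, rfl⟩), rfl⟩
    rw [lv_out hk V (mJ X A) (mJ Y A)]
    · have e : ∀ Z : Pt, (mJ Z A).filter (fun c => c.1 ∉ V ∧ c.2 ∉ V) =
          rl (fun i => 2 * i) (fun i => 2 * i) Z := by
        intro Z
        ext c
        rw [Finset.mem_filter, lv_mJ, lv_mem]
        constructor
        · rintro ⟨⟨d, hd, rfl⟩ | ⟨d, hd, rfl⟩, h2⟩
          · exact ⟨d, hd, rfl⟩
          · exact absurd (hA d hd) h2.1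
        · rintro ⟨d, hd, rfl⟩
          refine ⟨Or.inl ⟨d, hd, rfl⟩, ?_, ?_⟩
          · intro h1
            obtain ⟨i, hi⟩ := hodd _ h1
            simp only at hi
            omega
          · intro h1
            obtain ⟨i, hi⟩ := hodd _ h1
            simp only at hi
            omega
      rw [e, e]
      exact (hk _ _ _ _ (Or.inr (Or.inl ⟨fun i => 2 * i, fun a b hab => by
        simp only at hab
        omega, rfl, rfl⟩))).symm
    · intro c hc
      rw [lv_mJ, lv_mJ]
      have h1 : ∀ d : ℕ × ℕ, (2 * d.1, 2 * d.2) = c → False := by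
        rintro d rfl
        rcases hc with hc | hc
        · obtain ⟨i, hi⟩ := hodd _ hc
          simp only at hi
          omega
        · obtain ⟨i, hi⟩ := hodd _ hc
          simp only at hi
          omega
      constructor
      · rintro (⟨d, _, h2⟩ | h2)
        · exact (h1 d h2).elim
        · exact Or.inr h2
      · rintro (⟨d, _, h2⟩ | h2)
        · exact (h1 d h2).elim
        · exact Or.inr h2
  · intro k hk X A B
    obtain ⟨V, hV⟩ : ∃ V : Finset ℕ, V = (X.image Prod.fst ∪ X.image Prod.snd).image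
      (fun i => 2 * i) := ⟨_, rfl⟩
    have hev : ∀ v ∈ V, ∃ i, v = 2 * i := by
      intro v hv
      rw [hV, Finset.mem_image] at hv
      obtain ⟨i, _, rfl⟩ := hv
      exact ⟨i, rfl⟩
    have hX : ∀ d ∈ X, 2 * d.1 ∈ V := by
      intro d hd
      rw [hV, Finset.mem_image]
      exact ⟨d.1, Finset.mem_union_left _ (Finset.mem_image.mpr ⟨d, hd, rfl⟩), rfl⟩
    rw [lv_out hk V (mJ X A) (mJ X B)]
    · have e : ∀ Z : Pt, (mJ X Z).filter (fun c => c.1 ∉ V ∧ c.2 ∉ V) =
          rl (fun i => 2 * i + 1) (fun i => 2 * i + 1) Z := by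
        intro Z
        ext c
        rw [Finset.mem_filter, lv_mJ, lv_mem]
        constructor
        · rintro ⟨⟨d, hd, rfl⟩ | ⟨d, hd, rfl⟩, h2⟩
          · exact absurd (hX d hd) h2.1
          · exact ⟨d, hd, rfl⟩
        · rintro ⟨d, hd, rfl⟩
          refine ⟨Or.inr ⟨d, hd, rfl⟩, ?_, ?_⟩
          · intro h1
            obtain ⟨i, hi⟩ := hev _ h1
            simp only at hi
            omega
          · intro h1
            obtain ⟨i, hi⟩ := hev _ h1
            simp only at hi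
            omega
      rw [e, e]
      exact (hk _ _ _ _ (Or.inr (Or.inl ⟨fun i => 2 * i + 1, fun a b hab => by
        simp only at hab
        omega, rfl, rfl⟩))).symm
    · intro c hc
      rw [lv_mJ, lv_mJ]
      have h1 : ∀ d : ℕ × ℕ, (2 * d.1 + 1, 2 * d.2 + 1) = c → False := by
        rintro d rfl
        rcases hc with hc | hc
        · obtain ⟨i, hi⟩ := hev _ hc
          simp only at hi
          omega
        · obtain ⟨i, hi⟩ := hev _ hc
          simp only at hi
          omega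
      constructor
      · rintro (h2 | ⟨d, _, h2⟩)
        · exact Or.inl h2
        · exact (h1 d h2).elim
      · rintro (h2 | ⟨d, _, h2⟩)
        · exact Or.inl h2
        · exact (h1 d h2).elim

private theorem lv_re (p q p' q' r : ℝ) :
    ((starRingEnd ℂ) (⟨p, q⟩ : ℂ) * (⟨p', q'⟩ : ℂ) * ((r : ℝ) : ℂ)).re = (p * p' + q * q') * r := by
  simp only [Complex.mul_re, Complex.mul_im, Complex.conj_re, Complex.conj_im, Complex.ofReal_re,
    Complex.ofReal_im]
  ring

private theorem lv_ker {D : ℝ} {g : Pt → Pt → ℝ} (h : JK D g) (hD : 0 < D)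
    (hD1 : D < 1) : Ker RJ (fun X Y => (((g X Y - D ^ 2) / (D - D ^ 2) : ℝ) : ℂ)) := by
  have hpos : 0 < D - D ^ 2 := by nlinarith
  refine ⟨fun X => ?_, fun X Y => ?_, fun ι _ X c => ?_, fun X Y X' Y' hR => ?_⟩
  · rw [h.diag, div_self hpos.ne', Complex.ofReal_one]
  · rw [Complex.conj_ofReal, h.symm]
  · rw [Complex.re_sum]
    have h1 : ∀ i, (∑ j, (starRingEnd ℂ) (c i) * c j * (((g (X i) (X j) - D ^ 2) / (D - D ^ 2) : ℝ) : ℂ)).re =
        ∑ j, ((c i).re * (c j).re + (c i).im * (c j).im) * ((g (X i) (X j) - D ^ 2) / (D - D ^ 2)) := by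
      intro i
      rw [Complex.re_sum]
      refine Finset.sum_congr rfl fun j _ => ?_
      exact lv_re _ _ _ _ _
    rw [Finset.sum_congr rfl fun i _ => h1 i]
    have h2 : ∑ i, ∑ j, ((c i).re * (c j).re + (c i).im * (c j).im) *
        ((g (X i) (X j) - D ^ 2) / (D - D ^ 2)) =
        ((∑ i, ∑ j, (c i).re * (c j).re * g (X i) (X j) - D ^ 2 * (∑ i, (c i).re) ^ 2) +
          (∑ i, ∑ j, (c i).im * (c j).im * g (X i) (X j) - D ^ 2 * (∑ i, (c i).im) ^ 2)) /
            (D - D ^ 2) := by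
      rw [sq (∑ i, (c i).re), sq (∑ i, (c i).im), Finset.sum_mul_sum, Finset.sum_mul_sum,
        Finset.mul_sum, Finset.mul_sum, ← Finset.sum_sub_distrib, ← Finset.sum_sub_distrib,
        ← Finset.sum_add_distrib, Finset.sum_div]
      refine Finset.sum_congr rfl fun i _ => ?_
      rw [Finset.mul_sum, Finset.mul_sum, ← Finset.sum_sub_distrib, ← Finset.sum_sub_distrib,
        ← Finset.sum_add_distrib, Finset.sum_div]
      refine Finset.sum_congr rfl fun j _ => ?_
      ring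
    rw [h2]
    have h3 := h.psd ι X (fun i => (c i).re)
    have h4 := h.psd ι X (fun i => (c i).im)
    exact div_nonneg (by linarith) hpos.le
  · have h1 : g X' Y' = g X Y := by
      rcases hR with ⟨v, hv, h1, h2⟩ | ⟨σ, h1, h2, h3⟩ | ⟨c, hc, h1, h2, h3, h4, h5⟩
      · rw [h1, h2]
        exact (h.rem X Y v hv).symm
      · rw [h2, h3]
        exact h.inv σ h1 X Y
      · rw [h4, h5]
        exact h.removal X Y c hc h1 h2 h3
    rw [h1]

theorem level_one {D : ℝ} {g : Pt → Pt → ℝ} (h : JK D g) (hD : 0 < D) (X Y : Pt) (h0 : g X Y = 0) :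
    D ≤ 1 / 2 ∧
      Nonempty (Repr mJ RJ (fun X Y => (((g X Y - D ^ 2) / (D - D ^ 2) : ℝ) : ℂ))) := by
  have h2 := h.psd Bool (fun o => if o = true then X else Y) (fun _ => 1)
  simp only [Fintype.sum_bool, if_true, Bool.false_eq_true, if_false, mul_one, one_mul] at h2
  rw [h.symm Y X, h0, h.diag, h.diag] at h2
  have hD1 : D ≤ 1 / 2 := by nlinarith
  exact ⟨hD1, rep mrgJ _ (lv_ker h hD (by linarith))⟩

end Pool.Agent.Lib.MP_90b327_co.EX
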