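import Mathlib
import Pool.Agent.Lib.MP_90b327_co.RB.RDefs

/-!
MODULE ECs. Cauchy-Schwarz with many copies of every vector (text 5).

PROOF. `ker_cs`: positivity at the points `y`, `x i` with the coefficients `-conj S`, `conj (c i)`, `S = ∑ c i * k (x i) y`.
`cs_copies`: `ker_cs` for `ι × Fin n` with the coefficients `lam i / n`; the diagonal terms cost `C / n`; `n → ∞`.
-/

set_option autoImplicit false

namespace Pool.Agent.Lib.MP_90b327_co.EX

open Finset MeasureTheory Pool.Agent.Lib.MP_90b327_co Pool.Agent.Lib.MP_90b327_co.RB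

theorem ker_cs {𝒳 : Type} {R : 𝒳 → 𝒳 → 𝒳 → 𝒳 → Prop} {k : 𝒳 → 𝒳 → ℂ} (hk : Ker R k) {κ : Type}
    [Fintype κ] (x : κ → 𝒳) (c : κ → ℂ) (y : 𝒳) :
    ‖∑ i, c i * k (x i) y‖ ^ 2 ≤ (∑ i, ∑ j, c i * (starRingEnd ℂ) (c j) * k (x i) (x j)).re := by
  obtain ⟨S, hS⟩ : ∃ S : ℂ, S = ∑ i, c i * k (x i) y := ⟨_, rfl⟩
  obtain ⟨Q, hQ⟩ : ∃ Q : ℂ, Q = ∑ i, ∑ j, c i * (starRingEnd ℂ) (c j) * k (x i) (x j) := ⟨_, rfl⟩
  rw [← hS, ← hQ]
  have h1 := hk.psd (Option κ) (fun o => o.elim y x)
    (fun o => o.elim (-(starRingEnd ℂ) S) (fun i => (starRingEnd ℂ) (c i)))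
  have e1 : (∑ i : Option κ, ∑ j : Option κ,
      (starRingEnd ℂ) ((fun o : Option κ => o.elim (-(starRingEnd ℂ) S)
        (fun i => (starRingEnd ℂ) (c i))) i) *
        (fun o : Option κ => o.elim (-(starRingEnd ℂ) S) (fun i => (starRingEnd ℂ) (c i))) j *
        k ((fun o : Option κ => o.elim y x) i) ((fun o : Option κ => o.elim y x) j)) =
      S * (starRingEnd ℂ) S - S * (starRingEnd ℂ) S - S * (starRingEnd ℂ) S + Q := by
    rw [Fintype.sum_option]
    simp only [Fintype.sum_option, Option.elim, hk.one, mul_one, map_neg, Complex.conj_conj]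
    rw [Finset.sum_add_distrib]
    have e2 : ∑ j, -S * (starRingEnd ℂ) (c j) * k y (x j) = -(S * (starRingEnd ℂ) S) := by
      have : (starRingEnd ℂ) S = ∑ j, (starRingEnd ℂ) (c j) * k y (x j) := by
        rw [hS, map_sum]
        refine Finset.sum_congr rfl (fun j _ => ?_)
        rw [map_mul, ← hk.herm (x j) y]
      rw [this, Finset.mul_sum, ← Finset.sum_neg_distrib]
      exact Finset.sum_congr rfl (fun j _ => by ring)
    have e3 : ∑ i, c i * -(starRingEnd ℂ) S * k (x i) y = -(S * (starRingEnd ℂ) S) := by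
      rw [show ∑ i, c i * -(starRingEnd ℂ) S * k (x i) y =
        -((∑ i, c i * k (x i) y) * (starRingEnd ℂ) S) by
          rw [Finset.sum_mul, ← Finset.sum_neg_distrib]
          exact Finset.sum_congr rfl (fun j _ => by ring)]
      rw [← hS]
    rw [e2, e3, ← hQ]
    ring
  rw [e1] at h1
  have e4 : (S * (starRingEnd ℂ) S).re = ‖S‖ ^ 2 := by
    rw [Complex.mul_conj, Complex.ofReal_re, Complex.normSq_eq_norm_sq]
  simp only [Complex.add_re, Complex.sub_re, e4] at h1
  linarith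

theorem cs_copies {𝒳 : Type} {R : 𝒳 → 𝒳 → 𝒳 → 𝒳 → Prop} {k : 𝒳 → 𝒳 → ℂ} (hk : Ker R k) {ι : Type}
    [Fintype ι] (u : ι → ℂ) (M : ι → ι → ℂ)
    (h : ∀ n : ℕ, 0 < n → ∃ (x : ι → Fin n → 𝒳) (y : 𝒳), (∀ i r, k (x i r) y = u i) ∧
      ∀ i r j s, (i, r) ≠ (j, s) → k (x i r) (x j s) = M i j) (lam : ι → ℂ) :
    ‖∑ i, lam i * u i‖ ^ 2 ≤ (∑ i, ∑ j, lam i * (starRingEnd ℂ) (lam j) * M i j).re := by
  classical
  obtain ⟨C, hC⟩ : ∃ C : ℝ, C = ∑ i, (lam i * (starRingEnd ℂ) (lam i) * (1 - M i i)).re := ⟨_, rfl⟩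
  have key : ∀ n : ℕ, 0 < n → ‖∑ i, lam i * u i‖ ^ 2 ≤
      (∑ i, ∑ j, lam i * (starRingEnd ℂ) (lam j) * M i j).re + C / n := by
    intro n hn
    obtain ⟨x, y, h1, h2⟩ := h n hn
    have hn0 : (n : ℂ) ≠ 0 := by exact_mod_cast hn.ne'
    have hn1 : (n : ℝ) ≠ 0 := by exact_mod_cast hn.ne'
    have h3 := ker_cs hk (fun p : ι × Fin n => x p.1 p.2) (fun p => lam p.1 / n) y
    have e1 : ∑ p : ι × Fin n, lam p.1 / n * k (x p.1 p.2) y = ∑ i, lam i * u i := by
      rw [Fintype.sum_prod_type]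
      refine Finset.sum_congr rfl fun i _ => ?_
      simp only [h1]
      rw [Finset.sum_const, card_univ, Fintype.card_fin, nsmul_eq_mul]
      field_simp
    have e2 : ∑ p : ι × Fin n, ∑ q : ι × Fin n, lam p.1 / n * (starRingEnd ℂ) (lam q.1 / n) *
        k (x p.1 p.2) (x q.1 q.2) = ∑ i, ∑ j, lam i * (starRingEnd ℂ) (lam j) * M i j +
        (∑ i, lam i * (starRingEnd ℂ) (lam i) * (1 - M i i)) / n := by
      have e3 : ∀ p q : ι × Fin n, lam p.1 / n * (starRingEnd ℂ) (lam q.1 / n) *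
          k (x p.1 p.2) (x q.1 q.2) = lam p.1 * (starRingEnd ℂ) (lam q.1) * M p.1 q.1 / n ^ 2 +
          if p = q then lam p.1 * (starRingEnd ℂ) (lam p.1) * (1 - M p.1 p.1) / n ^ 2 else 0 := by
        intro p q
        rw [map_div₀, Complex.conj_natCast]
        by_cases hpq : p = q
        · subst hpq
          rw [if_pos rfl, hk.one]
          field_simp
          ring
        · rw [if_neg hpq, h2 p.1 p.2 q.1 q.2 (by simpa using hpq), add_zero]
          field_simp
      simp only [e3, Finset.sum_add_distrib, Finset.sum_ite_eq, mem_univ, if_true]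
      congr 1
      · have e4 : ∀ i j : ι, ∑ _r : Fin n, ∑ _s : Fin n,
            lam i * (starRingEnd ℂ) (lam j) * M i j / (n : ℂ) ^ 2 =
              lam i * (starRingEnd ℂ) (lam j) * M i j := by
          intro i j
          simp only [Finset.sum_const, card_univ, Fintype.card_fin, nsmul_eq_mul]
          field_simp
        rw [Fintype.sum_prod_type]
        refine Finset.sum_congr rfl fun i _ => ?_
        simp only [Fintype.sum_prod_type]
        rw [Finset.sum_comm]
        exact Finset.sum_congr rfl fun j _ => e4 i j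
      · rw [Fintype.sum_prod_type, Finset.sum_div]
        refine Finset.sum_congr rfl fun i _ => ?_
        have e5 : ∑ _r : Fin n, lam i * (starRingEnd ℂ) (lam i) * (1 - M i i) / (n : ℂ) ^ 2 =
            lam i * (starRingEnd ℂ) (lam i) * (1 - M i i) / n := by
          rw [Finset.sum_const, card_univ, Fintype.card_fin, nsmul_eq_mul]
          field_simp
        exact e5
    rw [e1, e2, Complex.add_re] at h3
    refine h3.trans_eq ?_
    congr 1
    rw [hC, ← Complex.ofReal_natCast, Complex.div_ofReal_re, Complex.re_sum]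
  refine le_of_forall_pos_le_add fun ε hε => ?_
  obtain ⟨n, hn⟩ := exists_nat_gt (|C| / ε)
  have hn0 : (0 : ℝ) < n := lt_of_le_of_lt (div_nonneg (abs_nonneg C) hε.le) hn
  have h1 := key n (by exact_mod_cast hn0)
  have h2 : C / n ≤ ε := by
    rw [div_le_iff₀ hn0]
    rw [div_lt_iff₀ hε] at hn
    have := le_abs_self C
    linarith
  linarith

end Pool.Agent.Lib.MP_90b327_co.EX
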