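import Mathlib
import Pool.Agent.Lib.MP_90b327_co.RB.RDefs

/-!
MODULE EMom. Fresh disjoint sets of given sizes; squares of linear combinations of powers in a one-sided space
(text 5).
-/

set_option autoImplicit false

namespace Pool.Agent.Lib.MP_90b327_co.EX

open Finset MeasureTheory Pool.Agent.Lib.MP_90b327_co Pool.Agent.Lib.MP_90b327_co.RB

/-- disjoint sets of given sizes outside a given set -/
theorem fresh_sets {κ : Type} [Fintype κ] (S : Finset ℕ) (sz : κ → ℕ) :
    ∃ A : κ → Finset ℕ, (∀ p, (A p).card = sz p) ∧ (∀ p, Disjoint S (A p)) ∧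
      ∀ p q, p ≠ q → Disjoint (A p) (A q) := by
  classical
  obtain ⟨L, hL⟩ : ∃ L : ℕ, L = S.sup id + 1 + ∑ i, sz i := ⟨_, rfl⟩
  have hc : ∀ i, sz i < L := by
    intro i
    have h1 : sz i ≤ ∑ i, sz i := Finset.single_le_sum (f := sz) (fun _ _ => Nat.zero_le _) (mem_univ i)
    omega
  have hS : ∀ v ∈ S, v < L := by
    intro v hv
    have h1 : id v ≤ S.sup id := le_sup hv
    simp only [id] at h1
    omega
  let f : κ → ℕ := fun p => (Fintype.equivFin κ p : ℕ)
  have hf : Function.Injective f := fun p q hpq => (Fintype.equivFin κ).injective (Fin.ext hpq)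
  have hA : ∀ (i : κ) (v : ℕ), v ∈ Ico ((f i + 1) * L) ((f i + 1) * L + sz i) → v / L = f i + 1 := by
    intro i v hv
    rw [mem_Ico] at hv
    have h1 := hc i
    apply Nat.div_eq_of_lt_le
    · exact hv.1
    · have h2 : (f i + 1 + 1) * L = (f i + 1) * L + L := by ring
      rw [h2]
      omega
  refine ⟨fun i => Ico ((f i + 1) * L) ((f i + 1) * L + sz i), ?_, ?_, ?_⟩
  · intro i
    rw [Nat.card_Ico]
    omega
  · intro i
    rw [disjoint_left]
    intro v hv hv'
    have h1 := hS v hv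
    have h2 := hA i v hv'
    rw [Nat.div_eq_of_lt h1] at h2
    omega
  · intro i j hij
    rw [disjoint_left]
    intro v hv hv'
    have h1 := hA i v hv
    have h2 := hA j v hv'
    apply hij
    apply hf
    omega

theorem flt_prod (A B V : Finset ℕ) :
    (A ×ˢ B).filter (fun c => c.1 ∉ V ∧ c.2 ∉ V) = (A \ V) ×ˢ (B \ V) := by
  ext c
  simp only [mem_filter, mem_product, mem_sdiff]
  constructor
  · rintro ⟨⟨h1, h2⟩, h3, h4⟩
    exact ⟨⟨h1, h3⟩, h2, h4⟩
  · rintro ⟨⟨h1, h3⟩, h2, h4⟩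
    exact ⟨⟨h1, h2⟩, h3, h4⟩

theorem sp_int (s : Sp) (x y : Finset ℕ) (a b : ℕ) :
    Integrable (fun ω => s.z x y ω ^ a * s.z y x ω ^ b) s.P := by
  refine Integrable.of_bound (((s.meas x y).pow_const a).mul
    ((s.meas y x).pow_const b)).aestronglyMeasurable 1 (Filter.Eventually.of_forall fun ω => ?_)
  rw [norm_mul, norm_pow, norm_pow]
  exact mul_le_one₀ (pow_le_one₀ (norm_nonneg _) (s.norm_le _ _ _)) (by positivity)
    (pow_le_one₀ (norm_nonneg _) (s.norm_le _ _ _))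

/-- the square of a combination of powers -/
theorem sp_sq (s : Sp) (x y : Finset ℕ) {ι : Type} [Fintype ι] (e : ι → ℕ) (lam : ι → ℂ) :
    (∑ i, ∑ j, lam i * (starRingEnd ℂ) (lam j) *
      ∫ ω, s.z x y ω ^ e i * s.z y x ω ^ e j ∂s.P).re =
      ∫ ω, ‖∑ i, lam i * s.z x y ω ^ e i‖ ^ 2 ∂s.P := by
  have h1 : ∑ i, ∑ j, lam i * (starRingEnd ℂ) (lam j) *
      ∫ ω, s.z x y ω ^ e i * s.z y x ω ^ e j ∂s.P =
      ∫ ω, ∑ i, ∑ j, lam i * (starRingEnd ℂ) (lam j) * (s.z x y ω ^ e i * s.z y x ω ^ e j) ∂s.P := by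
    rw [integral_finsetSum _ (fun i _ => integrable_finsetSum _ (fun j _ =>
      (sp_int s x y (e i) (e j)).const_mul _))]
    refine Finset.sum_congr rfl fun i _ => ?_
    rw [integral_finsetSum _ (fun j _ => (sp_int s x y (e i) (e j)).const_mul _)]
    refine Finset.sum_congr rfl fun j _ => ?_
    rw [integral_const_mul]
  have h2 : ∀ ω, ∑ i, ∑ j, lam i * (starRingEnd ℂ) (lam j) * (s.z x y ω ^ e i * s.z y x ω ^ e j) =
      ((‖∑ i, lam i * s.z x y ω ^ e i‖ ^ 2 : ℝ) : ℂ) := by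
    intro ω
    rw [← Complex.normSq_eq_norm_sq, ← Complex.mul_conj, map_sum, Finset.sum_mul_sum]
    refine Finset.sum_congr rfl fun i _ => Finset.sum_congr rfl fun j _ => ?_
    rw [map_mul, map_pow, ← s.herm x y ω]
    ring
  rw [h1]
  simp only [h2]
  rw [integral_complex_ofReal, Complex.ofReal_re]

end Pool.Agent.Lib.MP_90b327_co.EX
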