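import Mathlib
import Pool.Agent.Lib.MP_90b327_co.EX.EDefs
import Pool.Agent.Lib.MP_90b327_co.EX.EFacts
import Pool.Agent.Lib.MP_90b327_co.RB.ToTwoB
import Pool.Agent.Lib.MP_90b327_co.RB.RowMul
import Pool.Agent.Lib.MP_90b327_co.RB.RowSpace

/-!
MODULE ETwo. Text (4.3), (4.4).

PROOFS.
`exists_two_wv`: the proof of `RB.exists_two` in RB/ToTwoC.lean constructs `T` with `W := wv θ`; its lemmas are private,
copy the file and change the last statement.
`th_wv`: an injection `σ` with `σ '' {2 i | i ∈ e} = e` etc.: by `exists_inj` (EFacts, `n = 4`, sets `(2·) '' e`, `(2·) '' f`, `(2·+1) '' x`,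
`(2·+1) '' y`) and `perm`, `bip θ (neg e' f' x' y') (pos e' f' x' y')`... : `w_inv (bip_chr h) e f x y` gives
`bip θ (neg e f x y) (pos e f x y) = wv (bip θ) |f| |e| |y| |x|`, and `bip θ (neg e f x y) _` is `θ` of `neg` of the images
`(2·) '' e`, `(2·) '' f`, `(2·+1) '' x`, `(2·+1) '' y`; `perm` moves them to `e`, `f`, `x`, `y` (pairwise disjoint).
`ctx_ker`: `one`, `herm`, `psd` from `h.ker`. `rel`: insertion of a common cell `c = (i, j)` not in `X`, `Y`: third part of
`RJ` with `(2 i, 2 j + 1)`: it is not in `al × C` (`2 i` is even), not in the images of `X`, `Y` (injectivity), and the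
transposed cell `(2 j + 1, 2 i)` is in neither pattern (`2 i ∉ C`; rows of the images are even). Relabelling of the rows by `σ`:
second part of `RJ` with `ρ (2 i) = 2 σ i`, `ρ v = v` for odd `v` (injective; `al`, `C` are fixed).
-/

set_option autoImplicit false

namespace Pool.Agent.Lib.MP_90b327_co.EX

open Finset MeasureTheory Pool.Agent.Lib.MP_90b327_co Pool.Agent.Lib.MP_90b327_co.RB

private theorem ETwo_mom {θ : Pt → Pt → ℂ} (h : Chr θ) {s : Sp} (hs : IsRow θ s)
    (x y : Finset ℕ) (hxy : Disjoint x y) (p q : ℕ) :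
    ∫ ω, s.z x y ω ^ p * s.z y x ω ^ q ∂s.P = wv θ p q y.card x.card := by
  have hd : Disjoint (Finset.Ico p (p + q)) (Finset.range p) := by
    rw [Finset.disjoint_left]
    intro a ha hb
    have := (Finset.mem_Ico.mp ha).1
    have := Finset.mem_range.mp hb
    omega
  have h1 := row_four hs (Finset.Ico p (p + q)) (Finset.range p) ∅ ∅ x y ∅ ∅ hd
    (Finset.disjoint_empty_left _) (by simp)
  have h2 : neg ∅ ∅ ∅ ∅ = (∅ : Pt) := by simp [neg]
  have h3 : pos ∅ ∅ ∅ ∅ = (∅ : Pt) := by simp [pos]
  rw [h2, h3, Finset.union_empty, Finset.union_empty, w_inv h _ _ _ _ hd hxy] at h1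
  simp only [Finset.card_range, Nat.card_Ico, Nat.add_sub_cancel_left, Finset.card_empty, pow_zero,
    mul_one] at h1
  exact h1

private theorem ETwo_ind {θ : Pt → Pt → ℂ} (h : Chr θ) {s : Sp} (hs : IsRow θ s)
    (x y u v : Finset ℕ) (hxy : Disjoint x y) (huv : Disjoint u v) (hd : Disjoint (x ∪ y) (u ∪ v))
    (p q p' q' : ℕ) :
    ∫ ω, (s.z x y ω ^ p * s.z y x ω ^ q) * (s.z u v ω ^ p' * s.z v u ω ^ q') ∂s.P =
      wv θ p q y.card x.card * wv θ p' q' v.card u.card := by
  have hef : Disjoint (Finset.Ico p (p + q)) (Finset.range p) := by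
    rw [Finset.disjoint_left]
    intro a ha hb
    have := (Finset.mem_Ico.mp ha).1
    have := Finset.mem_range.mp hb
    omega
  have hgh : Disjoint (Finset.Ico (p + q + p') (p + q + p' + q')) (Finset.Ico (p + q) (p + q + p')) := by
    rw [Finset.disjoint_left]
    intro a ha hb
    have := (Finset.mem_Ico.mp ha).1
    have := (Finset.mem_Ico.mp hb).2
    omega
  have hdd : Disjoint (Finset.Ico p (p + q) ∪ Finset.range p)
      (Finset.Ico (p + q + p') (p + q + p' + q') ∪ Finset.Ico (p + q) (p + q + p')) := by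
    rw [Finset.disjoint_left]
    intro a ha hb
    simp only [Finset.mem_union, Finset.mem_Ico, Finset.mem_range] at ha hb
    omega
  have h1 := row_four hs (Finset.Ico p (p + q)) (Finset.range p)
    (Finset.Ico (p + q + p') (p + q + p' + q')) (Finset.Ico (p + q) (p + q + p')) x y u v hef hgh hdd
  have h2 := chr_mul h (neg (Finset.Ico p (p + q)) (Finset.range p) x y)
    (pos (Finset.Ico p (p + q)) (Finset.range p) x y)
    (neg (Finset.Ico (p + q + p') (p + q + p' + q')) (Finset.Ico (p + q) (p + q + p')) u v)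
    (pos (Finset.Ico (p + q + p') (p + q + p' + q')) (Finset.Ico (p + q) (p + q + p')) u v) (by
      rintro ⟨c1, c2⟩ hc ⟨c1', c2'⟩ hc'
      have h3 : c1 ∈ Finset.Ico p (p + q) ∪ Finset.range p ∧ c2 ∈ x ∪ y := by
        unfold neg pos at hc
        simp only [Finset.mem_union, Finset.mem_product] at hc ⊢
        tauto
      have h4 : c1' ∈ Finset.Ico (p + q + p') (p + q + p' + q') ∪ Finset.Ico (p + q) (p + q + p') ∧
          c2' ∈ u ∪ v := by
        unfold neg pos at hc'
        simp only [Finset.mem_union, Finset.mem_product] at hc' ⊢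
        tauto
      constructor
      · intro h5
        have h5' : c1 = c1' := h5
        exact Finset.disjoint_left.mp hdd h3.1 (h5' ▸ h4.1)
      · intro h5
        have h5' : c2 = c2' := h5
        exact Finset.disjoint_left.mp hd h3.2 (h5' ▸ h4.2))
  rw [h2, w_inv h _ _ _ _ hef hxy, w_inv h _ _ _ _ hgh huv] at h1
  simp only [Finset.card_range, Nat.card_Ico, Nat.add_sub_cancel_left] at h1
  exact h1

private theorem ETwo_wv (θ : Pt → Pt → ℂ) (p q a b : ℕ) :
    wv (fun X Y => θ (tr X) (tr Y)) p q a b = wv θ a b p q := by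
  unfold wv
  beta_reduce
  rw [tr_neg, tr_pos]

private theorem ETwo_neg (x y u v e f g h : Finset ℕ) :
    neg e f (x ∪ u) (y ∪ v) ∪ neg g h u v = neg e f x y ∪ neg (e ∪ g) (f ∪ h) u v := by
  ext ⟨a, b⟩
  unfold neg
  simp only [Finset.mem_union, Finset.mem_product]
  tauto

private theorem ETwo_pos (x y u v e f g h : Finset ℕ) :
    pos e f (x ∪ u) (y ∪ v) ∪ pos g h u v = pos e f x y ∪ pos (e ∪ g) (f ∪ h) u v := by
  ext ⟨a, b⟩
  unfold pos
  simp only [Finset.mem_union, Finset.mem_product]
  tauto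

theorem exists_two_wv {θ : Pt → Pt → ℂ} (h : Chr θ) : ∃ T : Two, T.W = wv θ := by
  obtain ⟨s, hs⟩ := exists_row h
  obtain ⟨s', hs'⟩ := exists_row (chr_tr h)
  refine ⟨{ W := wv θ
            r := s
            c := s'
            mom := fun x y hxy p q => ETwo_mom h hs x y hxy p q
            mom' := fun x y hxy a b => by
              rw [ETwo_mom (chr_tr h) hs' x y hxy a b, ETwo_wv]
            ind := fun x y u v hxy huv hd p q p' q' => ETwo_ind h hs x y u v hxy huv hd p q p' q'
            ind' := fun x y u v hxy huv hd a b a' b' => by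
              rw [ETwo_ind (chr_tr h) hs' x y u v hxy huv hd a b a' b', ETwo_wv, ETwo_wv]
            tor := fun x y u v e f g h' hxy huv hd hef hgh hd' => by
              rw [row_four hs e f g h' (x ∪ u) (y ∪ v) u v hef hgh hd',
                row_four hs' x y u v e f (e ∪ g) (f ∪ h') hxy huv hd, tr_union, tr_union, tr_neg,
                tr_neg, tr_pos, tr_pos, ETwo_neg, ETwo_pos] }, rfl⟩

/-- pairwise disjoint families of four sets -/
private theorem ETwo_four (A0 A1 A2 A3 : Finset ℕ) (h01 : Disjoint A0 A1) (h02 : Disjoint A0 A2)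
    (h03 : Disjoint A0 A3) (h12 : Disjoint A1 A2) (h13 : Disjoint A1 A3) (h23 : Disjoint A2 A3) :
    ∀ k l : Fin 4, k ≠ l →
      Disjoint ((![A0, A1, A2, A3] : Fin 4 → Finset ℕ) k)
        ((![A0, A1, A2, A3] : Fin 4 → Finset ℕ) l) := by
  intro k l hkl
  fin_cases k <;> fin_cases l
  · exact absurd rfl hkl
  · exact h01
  · exact h02
  · exact h03
  · exact h01.symm
  · exact absurd rfl hkl
  · exact h12
  · exact h13
  · exact h02.symm
  · exact h12.symm
  · exact absurd rfl hkl
  · exact h23
  · exact h03.symm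
  · exact h13.symm
  · exact h23.symm
  · exact absurd rfl hkl

private theorem ETwo_Einj : Function.Injective (fun i : ℕ => 2 * i) := fun a b h => by
  simp only at h
  omega

private theorem ETwo_Oinj : Function.Injective (fun i : ℕ => 2 * i + 1) := fun a b h => by
  simp only at h
  omega

private theorem ETwo_EO (A B : Finset ℕ) :
    Disjoint (A.image (fun i => 2 * i)) (B.image (fun i => 2 * i + 1)) := by
  rw [Finset.disjoint_left]
  intro v h1 h2
  rw [Finset.mem_image] at h1 h2
  obtain ⟨a, -, ha⟩ := h1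
  obtain ⟨b, -, hb⟩ := h2
  omega

/-- rows `e`, `f` and columns `x`, `y`, all disjoint -/
theorem th_wv {θ : Pt → Pt → ℂ} (h : JCh θ) (e f x y : Finset ℕ) (hef : Disjoint e f)
    (hxy : Disjoint x y) (hd : Disjoint (e ∪ f) (x ∪ y)) :
    θ (neg e f x y) (pos e f x y) = wv (bip θ) f.card e.card y.card x.card := by
  rw [← w_inv (bip_chr h) e f x y hef hxy]
  rw [Finset.disjoint_union_left, Finset.disjoint_union_right, Finset.disjoint_union_right] at hd
  obtain ⟨⟨hex, hey⟩, hfx, hfy⟩ := hd
  obtain ⟨σ, hσ, hk⟩ := exists_inj 4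
    ![e.image (fun i => 2 * i), f.image (fun i => 2 * i), x.image (fun i => 2 * i + 1),
      y.image (fun i => 2 * i + 1)] ![e, f, x, y]
    (ETwo_four _ _ _ _ ((Finset.disjoint_image ETwo_Einj).mpr hef) (ETwo_EO e x) (ETwo_EO e y)
      (ETwo_EO f x) (ETwo_EO f y) ((Finset.disjoint_image ETwo_Oinj).mpr hxy))
    (ETwo_four _ _ _ _ hef hex hey hfx hfy hxy) (by
      intro k
      fin_cases k
      · exact Finset.card_image_of_injective _ ETwo_Einj
      · exact Finset.card_image_of_injective _ ETwo_Einj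
      · exact Finset.card_image_of_injective _ ETwo_Oinj
      · exact Finset.card_image_of_injective _ ETwo_Oinj)
  have k0 : (e.image (fun i => 2 * i)).image σ = e := hk 0
  have k1 : (f.image (fun i => 2 * i)).image σ = f := hk 1
  have k2 : (x.image (fun i => 2 * i + 1)).image σ = x := hk 2
  have k3 : (y.image (fun i => 2 * i + 1)).image σ = y := hk 3
  unfold bip
  rw [← perm h σ hσ (rl (fun i => 2 * i) (fun j => 2 * j + 1) (neg e f x y))]
  unfold neg pos
  rw [rl_un, rl_prod, rl_prod, rl_un, rl_prod, rl_prod, rl_un, rl_prod, rl_prod, rl_un, rl_prod,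
    rl_prod, k0, k1, k2, k3]

private theorem ETwo_mem (X : Pt) (c : ℕ × ℕ) :
    c ∈ rl (fun i => 2 * i) (fun j => 2 * j + 1) X ↔ ∃ d ∈ X, (2 * d.1, 2 * d.2 + 1) = c :=
  mem_rl _ _ X c

private theorem ETwo_insert (X : Pt) (c : ℕ × ℕ) :
    rl (fun i => 2 * i) (fun j => 2 * j + 1) (insert c X) =
      insert (2 * c.1, 2 * c.2 + 1) (rl (fun i => 2 * i) (fun j => 2 * j + 1) X) := by
  unfold rl
  exact Finset.image_insert _ _ _

/-- the kernel of the even rows in the context `al × C`, odd vertices -/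
theorem ctx_ker {θ : Pt → Pt → ℂ} (h : JCh θ) (al C : Finset ℕ) (hal : ∀ v ∈ al, v % 2 = 1)
    (hC : ∀ v ∈ C, v % 2 = 1) :
    Ker R2 (fun X Y => θ (al ×ˢ C ∪ rl (fun i => 2 * i) (fun j => 2 * j + 1) X)
      (al ×ˢ C ∪ rl (fun i => 2 * i) (fun j => 2 * j + 1) Y)) := by
  refine ⟨fun X => h.ker.one _, fun X Y => h.ker.herm _ _, ?_, ?_⟩
  · intro ι _ X c
    exact h.ker.psd ι (fun i => al ×ˢ C ∪ rl (fun i => 2 * i) (fun j => 2 * j + 1) (X i)) c
  · intro X Y X' Y' hR
    rcases hR with ⟨c, hX, hY, rfl, rfl⟩ | ⟨σ, hσ, rfl, rfl⟩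
    · beta_reduce
      rw [ETwo_insert, ETwo_insert, Finset.union_insert, Finset.union_insert]
      have hnot : ∀ Z : Pt, c ∉ Z → (2 * c.1, 2 * c.2 + 1) ∉
          al ×ˢ C ∪ rl (fun i => 2 * i) (fun j => 2 * j + 1) Z := by
        intro Z hZ hm
        rw [Finset.mem_union, Finset.mem_product, ETwo_mem] at hm
        rcases hm with ⟨h1, -⟩ | ⟨d, hd, hdc⟩
        · have := hal _ h1
          simp only at this
          omega
        · rw [Prod.mk.injEq] at hdc
          have e : d = c := Prod.ext (by omega) (by omega)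
          exact hZ (e ▸ hd)
      have hsw : ∀ Z : Pt, ((2 * c.1, 2 * c.2 + 1) : ℕ × ℕ).swap ∉
          al ×ˢ C ∪ rl (fun i => 2 * i) (fun j => 2 * j + 1) Z := by
        intro Z hm
        rw [Prod.swap_prod_mk, Finset.mem_union, Finset.mem_product, ETwo_mem] at hm
        rcases hm with ⟨-, h1⟩ | ⟨d, hd, hdc⟩
        · have := hC _ h1
          simp only at this
          omega
        · rw [Prod.mk.injEq] at hdc
          omega
      refine h.ker.rel _ _ _ _ (Or.inr (Or.inr ⟨(2 * c.1, 2 * c.2 + 1), ?_, hnot X hX, hnot Y hY,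
        ⟨fun hm => absurd hm (hsw X), fun hm => absurd hm (hsw Y)⟩, rfl, rfl⟩))
      simp only
      omega
    · beta_reduce
      obtain ⟨ρ, hρ⟩ : ∃ ρ : ℕ → ℕ, ρ = fun v => if v % 2 = 0 then 2 * σ (v / 2) else v := ⟨_, rfl⟩
      have hinj : Function.Injective ρ := by
        intro v w hvw
        rw [hρ] at hvw
        simp only at hvw
        split_ifs at hvw with h1 h2 h2
        · have h3 : σ (v / 2) = σ (w / 2) := by omega
          have h4 := hσ h3
          omega
        · omega
        · omega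
        · exact hvw
      have e : ∀ Z : Pt, al ×ˢ C ∪ rl (fun i => 2 * i) (fun j => 2 * j + 1) (rl σ id Z) =
          rl ρ ρ (al ×ˢ C ∪ rl (fun i => 2 * i) (fun j => 2 * j + 1) Z) := by
        intro Z
        rw [rl_un, rl_rl, rl_rl]
        congr 1
        · have e1 : rl ρ ρ (al ×ˢ C) = rl id id (al ×ˢ C) := by
            apply rl_congr
            intro c hc
            rw [Finset.mem_product] at hc
            have h1 : ¬ c.1 % 2 = 0 := by have := hal _ hc.1; omega
            have h2 : ¬ c.2 % 2 = 0 := by have := hC _ hc.2; omega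
            rw [hρ]
            simp only [h1, h2, if_false, id_eq, and_self]
          rw [e1, rl_prod, Finset.image_id, Finset.image_id]
        · apply rl_congr
          intro c _
          rw [hρ]
          have h1 : 2 * c.1 % 2 = 0 := by omega
          have h2 : 2 * c.1 / 2 = c.1 := by omega
          have h3 : ¬ (2 * c.2 + 1) % 2 = 0 := by omega
          simp only [h1, h2, h3, if_true, if_false, id_eq, and_self]
      rw [e, e]
      exact (perm h ρ hinj _ _).symm

end Pool.Agent.Lib.MP_90b327_co.EX
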