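import Mathlib
import Pool.Agent.Lib.MP_90b327_co.EX.EDefs
import Pool.Agent.Lib.MP_90b327_co.EX.ECs
import Pool.Agent.Lib.MP_90b327_co.EX.EFacts
import Pool.Agent.Lib.MP_90b327_co.EX.ETwo
import Pool.Agent.Lib.MP_90b327_co.EX.EMom

/-!
MODULE ECol (owner helper18). Text section 5, (COL).

PROOF. `gm = Γ ∪ A'`, `B` a large set of fresh vertices, `C0 = B₀ ∪ Γ`. For `H ⊆ B`: `X_H := B₀ × (C0 ∪ B) ∪ gm × (B \ H)`,
`Y := (B₀ ∪ gm) × (C0 ∪ B)`. `ext_out` at the vertices of `B \ H`: `θ X_H Y = qv θ B₀ Γ A' H`, `= QQ θ b m s |H|` (`qv_eq`). For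
disjoint `H`, `H'`: `X_H`, `X_H'` agree outside `J × J`, `J = gm ∪ H ∪ H'`, and are `gm × H'` resp. `gm × H` on `J × J`:
`θ X_H X_H' = θ (gm × H') (gm × H) = wv (bip θ) |gm| 0 |H| |H'|` (`th_wv`) `= ∫ z^|H| * conj z^|H'|` (`T.mom'`). `cs_copies` with
`n * card` disjoint sets in `B`, `|H i r| = e i`.
-/

set_option autoImplicit false

namespace Pool.Agent.Lib.MP_90b327_co.EX

open Finset MeasureTheory Pool.Agent.Lib.MP_90b327_co Pool.Agent.Lib.MP_90b327_co.RB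

private theorem col_a1 {B₀ Γ A' B K : Finset ℕ} (b1 : ∀ v, v ∈ B₀ → v ∉ B) (b2 : ∀ v, v ∈ Γ → v ∉ B)
    (b3 : ∀ v, v ∈ A' → v ∉ B) (c : ℕ × ℕ) (hc : c.1 ∈ B \ K ∨ c.2 ∈ B \ K) :
    c ∈ B₀ ×ˢ (B₀ ∪ Γ ∪ B) ∪ (Γ ∪ A') ×ˢ (B \ K) ↔ c ∈ (B₀ ∪ Γ ∪ A') ×ˢ (B₀ ∪ Γ ∪ B) := by
  rcases hc with hc | hc
  · have h0 : c.1 ∈ B := (mem_sdiff.1 hc).1
    have h1 : c.1 ∉ B₀ := fun h => b1 _ h h0
    have h2 : c.1 ∉ Γ := fun h => b2 _ h h0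
    have h3 : c.1 ∉ A' := fun h => b3 _ h h0
    simp only [mem_union, mem_product, h1, h2, h3, false_and, or_self]
  · obtain ⟨h0, h1⟩ := mem_sdiff.1 hc
    simp only [mem_union, mem_product, mem_sdiff, h0, h1, or_true, and_true, not_false_iff, or_assoc]

private theorem col_f1 {B₀ Γ A' B K : Finset ℕ} (b1 : ∀ v, v ∈ B₀ → v ∉ B) (b2 : ∀ v, v ∈ Γ → v ∉ B)
    (hK : ∀ v, v ∈ K → v ∈ B) :
    (B₀ ×ˢ (B₀ ∪ Γ ∪ B) ∪ (Γ ∪ A') ×ˢ (B \ K)).filter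
        (fun c => c.1 ∉ B \ K ∧ c.2 ∉ B \ K) = B₀ ×ˢ (B₀ ∪ Γ ∪ K) := by
  rw [filter_union, flt_prod, flt_prod, sdiff_self, bot_eq_empty, product_empty, union_empty]
  congr 1
  · exact sdiff_eq_self_of_disjoint (disjoint_left.2 fun v hv hv' => b1 v hv (mem_sdiff.1 hv').1)
  · ext v
    have g1 := b1 v
    have g2 := b2 v
    have g3 := hK v
    simp only [mem_union, mem_sdiff]
    tauto

private theorem col_f2 {B₀ Γ A' B K : Finset ℕ} (b1 : ∀ v, v ∈ B₀ → v ∉ B) (b2 : ∀ v, v ∈ Γ → v ∉ B)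
    (b3 : ∀ v, v ∈ A' → v ∉ B) (hK : ∀ v, v ∈ K → v ∈ B) :
    ((B₀ ∪ Γ ∪ A') ×ˢ (B₀ ∪ Γ ∪ B)).filter
        (fun c => c.1 ∉ B \ K ∧ c.2 ∉ B \ K) = (B₀ ∪ Γ ∪ A') ×ˢ (B₀ ∪ Γ ∪ K) := by
  rw [flt_prod]
  congr 1
  · ext v
    have g1 := b1 v
    have g2 := b2 v
    have g3 := b3 v
    simp only [mem_union, mem_sdiff]
    tauto
  · ext v
    have g1 := b1 v
    have g2 := b2 v
    have g3 := hK v
    simp only [mem_union, mem_sdiff]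
    tauto

private theorem col_a2 {B₀ Γ A' B K K' : Finset ℕ} (b1 : ∀ v, v ∈ B₀ → v ∉ B)
    (b2 : ∀ v, v ∈ Γ → v ∉ B) (b3 : ∀ v, v ∈ A' → v ∉ B) (d1 : ∀ v, v ∈ B₀ → v ∉ Γ)
    (d2 : ∀ v, v ∈ B₀ → v ∉ A') (c : ℕ × ℕ)
    (hc : c.1 ∈ B₀ ∪ (B \ (K ∪ K')) ∨ c.2 ∈ B₀ ∪ (B \ (K ∪ K'))) :
    c ∈ B₀ ×ˢ (B₀ ∪ Γ ∪ B) ∪ (Γ ∪ A') ×ˢ (B \ K) ↔
      c ∈ B₀ ×ˢ (B₀ ∪ Γ ∪ B) ∪ (Γ ∪ A') ×ˢ (B \ K') := by
  rcases hc with hc | hc
  · rcases mem_union.1 hc with hc | hc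
    · have h2 := d1 _ hc
      have h3 := d2 _ hc
      simp only [mem_union, mem_product, h2, h3, false_and, or_self, or_false]
    · have h0 : c.1 ∈ B := (mem_sdiff.1 hc).1
      have h2 : c.1 ∉ Γ := fun h => b2 _ h h0
      have h3 : c.1 ∉ A' := fun h => b3 _ h h0
      simp only [mem_union, mem_product, h2, h3, false_and, or_self, or_false]
  · rcases mem_union.1 hc with hc | hc
    · have h2 := b1 _ hc
      simp only [mem_union, mem_product, mem_sdiff, h2, false_and, and_false, or_false]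
    · obtain ⟨h0, h1⟩ := mem_sdiff.1 hc
      rw [mem_union, not_or] at h1
      simp only [mem_union, mem_product, mem_sdiff, h0, h1.1, h1.2, not_false_iff]

private theorem col_f3 {B₀ Γ A' B K K' : Finset ℕ} (b1 : ∀ v, v ∈ B₀ → v ∉ B)
    (b2 : ∀ v, v ∈ Γ → v ∉ B) (b3 : ∀ v, v ∈ A' → v ∉ B) (d1 : ∀ v, v ∈ B₀ → v ∉ Γ)
    (d2 : ∀ v, v ∈ B₀ → v ∉ A') (k1 : ∀ v, v ∈ K' → v ∈ B) (k2 : ∀ v, v ∈ K → v ∉ K') :
    (B₀ ×ˢ (B₀ ∪ Γ ∪ B) ∪ (Γ ∪ A') ×ˢ (B \ K)).filter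
        (fun c => c.1 ∉ B₀ ∪ (B \ (K ∪ K')) ∧ c.2 ∉ B₀ ∪ (B \ (K ∪ K'))) =
        (Γ ∪ A') ×ˢ K' := by
  rw [filter_union, flt_prod, flt_prod]
  have e1 : B₀ \ (B₀ ∪ (B \ (K ∪ K'))) = ∅ := by
    rw [sdiff_eq_empty_iff_subset]
    exact subset_union_left
  have e2 : (Γ ∪ A') \ (B₀ ∪ (B \ (K ∪ K'))) = Γ ∪ A' := by
    apply sdiff_eq_self_of_disjoint
    rw [disjoint_left]
    intro v hv hv'
    rcases mem_union.1 hv' with h1 | h1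
    · rcases mem_union.1 hv with h2 | h2
      · exact d1 v h1 h2
      · exact d2 v h1 h2
    · rcases mem_union.1 hv with h2 | h2
      · exact b2 v h2 (mem_sdiff.1 h1).1
      · exact b3 v h2 (mem_sdiff.1 h1).1
  have e3 : (B \ K) \ (B₀ ∪ (B \ (K ∪ K'))) = K' := by
    ext v
    have g1 := b1 v
    have g2 := k1 v
    have g3 := k2 v
    simp only [mem_union, mem_sdiff]
    tauto
  rw [e1, e2, e3, empty_product, empty_union]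

theorem col_ineq {θ : Pt → Pt → ℂ} (h : JCh θ) (T : Two) (hT : T.W = wv (bip θ)) (b m s : ℕ)
    {ι : Type} [Fintype ι] (e : ι → ℕ) (lam : ι → ℂ) :
    ‖∑ k, lam k * QQ θ b m s (e k)‖ ^ 2 ≤
      ∫ ω, ‖∑ k, lam k * T.c.z ∅ (range (m + s)) ω ^ e k‖ ^ 2 ∂T.c.P := by
  classical
  obtain ⟨B₀, hB₀⟩ : ∃ B₀ : Finset ℕ, B₀ = range b := ⟨_, rfl⟩
  obtain ⟨Γ, hΓ⟩ : ∃ Γ : Finset ℕ, Γ = Ico b (b + m) := ⟨_, rfl⟩
  obtain ⟨A', hA'⟩ : ∃ A' : Finset ℕ, A' = Ico (b + m) (b + m + s) := ⟨_, rfl⟩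
  have cB : B₀.card = b := by rw [hB₀, card_range]
  have cΓ : Γ.card = m := by rw [hΓ, Nat.card_Ico]; omega
  have cA : A'.card = s := by rw [hA', Nat.card_Ico]; omega
  have d1 : ∀ v, v ∈ B₀ → v ∉ Γ := by
    intro v h1 h2
    rw [hB₀, mem_range] at h1
    rw [hΓ, mem_Ico] at h2
    omega
  have d2 : ∀ v, v ∈ B₀ → v ∉ A' := by
    intro v h1 h2
    rw [hB₀, mem_range] at h1
    rw [hA', mem_Ico] at h2
    omega
  have d3 : ∀ v, v ∈ Γ → v ∉ A' := by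
    intro v h1 h2
    rw [hΓ, mem_Ico] at h1
    rw [hA', mem_Ico] at h2
    omega
  have hM : ∀ i j, wv (bip θ) (m + s) 0 (e i) (e j) =
      ∫ ω, T.c.z ∅ (range (m + s)) ω ^ e i * T.c.z (range (m + s)) ∅ ω ^ e j ∂T.c.P := by
    intro i j
    rw [T.mom' ∅ (range (m + s)) (disjoint_empty_left _) (e i) (e j), hT, card_range, card_empty]
  have key := cs_copies h.ker (fun i => QQ θ b m s (e i))
    (fun i j => wv (bip θ) (m + s) 0 (e i) (e j)) ?_ lam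
  · refine key.trans_eq ?_
    simp only [hM]
    exact sp_sq T.c ∅ (range (m + s)) e lam
  intro n _
  obtain ⟨A, hAc, hAS, hAA⟩ := fresh_sets (B₀ ∪ Γ ∪ A') (fun p : ι × Fin n => e p.1)
  obtain ⟨B, hB⟩ : ∃ B : Finset ℕ, ∀ v, v ∈ B ↔ ∃ p, v ∈ A p :=
    ⟨univ.biUnion A, fun v => by simp only [mem_biUnion, mem_univ, true_and]⟩
  have hAB : ∀ p v, v ∈ A p → v ∈ B := fun p v hv => (hB v).2 ⟨p, hv⟩
  have b1 : ∀ v, v ∈ B₀ → v ∉ B := by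
    intro v hv hv'
    obtain ⟨p, hp⟩ := (hB v).1 hv'
    exact disjoint_left.1 (hAS p) (mem_union_left _ (mem_union_left _ hv)) hp
  have b2 : ∀ v, v ∈ Γ → v ∉ B := by
    intro v hv hv'
    obtain ⟨p, hp⟩ := (hB v).1 hv'
    exact disjoint_left.1 (hAS p) (mem_union_left _ (mem_union_right _ hv)) hp
  have b3 : ∀ v, v ∈ A' → v ∉ B := by
    intro v hv hv'
    obtain ⟨p, hp⟩ := (hB v).1 hv'
    exact disjoint_left.1 (hAS p) (mem_union_right _ hv) hp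
  have hAj : ∀ p q, p ≠ q → ∀ v, v ∈ A p → v ∉ A q := fun p q hpq v hv =>
    disjoint_left.1 (hAA p q hpq) hv
  refine ⟨fun i r => B₀ ×ˢ (B₀ ∪ Γ ∪ B) ∪ (Γ ∪ A') ×ˢ (B \ A (i, r)),
    (B₀ ∪ Γ ∪ A') ×ˢ (B₀ ∪ Γ ∪ B), ?_, ?_⟩
  · intro i r
    obtain ⟨K, hK⟩ : ∃ K : Finset ℕ, K = A (i, r) := ⟨_, rfl⟩
    have hKB : ∀ v, v ∈ K → v ∈ B := fun v hv => hAB (i, r) v (hK ▸ hv)
    have e0 := ext_out h (B \ K) (B₀ ×ˢ (B₀ ∪ Γ ∪ B) ∪ (Γ ∪ A') ×ˢ (B \ K))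
      ((B₀ ∪ Γ ∪ A') ×ˢ (B₀ ∪ Γ ∪ B)) (col_a1 b1 b2 b3)
    have e1 := col_f1 (A' := A') b1 b2 hKB
    have e2 := col_f2 b1 b2 b3 hKB
    rw [e1, e2] at e0
    show θ (B₀ ×ˢ (B₀ ∪ Γ ∪ B) ∪ (Γ ∪ A') ×ˢ (B \ A (i, r))) ((B₀ ∪ Γ ∪ A') ×ˢ (B₀ ∪ Γ ∪ B)) =
      QQ θ b m s (e i)
    rw [← hK, e0]
    have e3 := qv_eq h B₀ Γ A' K (disjoint_left.2 d1) (by
      rw [disjoint_left]
      intro v hv
      rcases mem_union.1 hv with hv | hv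
      · exact d2 v hv
      · exact d3 v hv) (by rw [hK]; exact hAS (i, r))
    have cK : K.card = e i := by rw [hK]; exact hAc (i, r)
    rw [cB, cΓ, cA, cK] at e3
    exact e3
  · intro i r j t hne
    obtain ⟨K, hK⟩ : ∃ K : Finset ℕ, K = A (i, r) := ⟨_, rfl⟩
    obtain ⟨K', hK'⟩ : ∃ K' : Finset ℕ, K' = A (j, t) := ⟨_, rfl⟩
    have hKB : ∀ v, v ∈ K → v ∈ B := fun v hv => hAB (i, r) v (hK ▸ hv)
    have hKB' : ∀ v, v ∈ K' → v ∈ B := fun v hv => hAB (j, t) v (hK' ▸ hv)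
    have hKK : ∀ v, v ∈ K → v ∉ K' := by
      intro v hv
      rw [hK] at hv
      rw [hK']
      exact hAj _ _ hne v hv
    have e0 := ext_out h (B₀ ∪ (B \ (K ∪ K'))) (B₀ ×ˢ (B₀ ∪ Γ ∪ B) ∪ (Γ ∪ A') ×ˢ (B \ K))
      (B₀ ×ˢ (B₀ ∪ Γ ∪ B) ∪ (Γ ∪ A') ×ˢ (B \ K')) (col_a2 b1 b2 b3 d1 d2)
    have e2 := col_f3 b1 b2 b3 d1 d2 hKB (fun v hv hv' => hKK v hv' hv)
    rw [union_comm K' K] at e2
    rw [col_f3 b1 b2 b3 d1 d2 hKB' hKK, e2] at e0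
    show θ (B₀ ×ˢ (B₀ ∪ Γ ∪ B) ∪ (Γ ∪ A') ×ˢ (B \ A (i, r)))
      (B₀ ×ˢ (B₀ ∪ Γ ∪ B) ∪ (Γ ∪ A') ×ˢ (B \ A (j, t))) = wv (bip θ) (m + s) 0 (e i) (e j)
    rw [← hK, ← hK', e0]
    have e3 := th_wv h ∅ (Γ ∪ A') K' K (disjoint_empty_left _)
      (disjoint_left.2 fun v hv hv' => hKK v hv' hv) (by
        rw [empty_union, disjoint_left]
        intro v hv hv'
        have g1 := b2 v
        have g2 := b3 v
        have g3 := hKB v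
        have g4 := hKB' v
        rcases mem_union.1 hv with hv | hv <;> rcases mem_union.1 hv' with hv' | hv' <;> tauto)
    have e4 : neg ∅ (Γ ∪ A') K' K = (Γ ∪ A') ×ˢ K' := by
      unfold neg
      rw [empty_product, union_empty]
    have e5 : pos ∅ (Γ ∪ A') K' K = (Γ ∪ A') ×ˢ K := by
      unfold pos
      rw [empty_product, union_empty]
    have cG : (Γ ∪ A').card = m + s := by
      rw [card_union_of_disjoint (disjoint_left.2 d3), cΓ, cA]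
    have cK : K.card = e i := by rw [hK]; exact hAc (i, r)
    have cK' : K'.card = e j := by rw [hK']; exact hAc (j, t)
    rw [e4, e5, cG, cK, cK', card_empty] at e3
    exact e3

end Pool.Agent.Lib.MP_90b327_co.EX
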