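import Mathlib
import Pool.Agent.Lib.MP_90b327_co.EX.EDefs
import Pool.Agent.Lib.MP_90b327_co.EX.ECs
import Pool.Agent.Lib.MP_90b327_co.EX.EFacts
import Pool.Agent.Lib.MP_90b327_co.EX.ETwo
import Pool.Agent.Lib.MP_90b327_co.EX.EMom

/-!
MODULE ERow (owner helper18). Text section 5, (ROW).

PROOF. `B₀`, `Γ`, `H` sets of odd vertices, `C = B₀ ∪ Γ ∪ H`; `k X Y = θ (B₀ × C ∪ rl X) (B₀ × C ∪ rl Y)` is `Ker R2`
(`ctx_ker`), `exists_row2` gives `s : Sp`; `zeta = s.z ∅ C'`, `C' = {j | 2 j + 1 ∈ C}`: for disjoint sets `S`, `S'` of even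
vertices `θ ((B₀ ∪ S') × C) ((B₀ ∪ S) × C) = ∫ zeta^|S| * conj zeta^|S'|`. `B`, `S ⊆ B` fresh even vertices:
`X_S := (B₀ ∪ (B \ S)) × C`, `Y := (B₀ ∪ Γ ∪ B) × C`. `ext_out` at `B \ S`: `θ X_S Y = qv θ B₀ Γ S H`. For disjoint `S`, `S'`:
`ext_out` at `B \ (S ∪ S')`: `θ X_S X_S' = θ ((B₀ ∪ S') × C) ((B₀ ∪ S) × C)`. `cs_copies`.
-/

set_option autoImplicit false

namespace Pool.Agent.Lib.MP_90b327_co.EX

open Finset MeasureTheory Pool.Agent.Lib.MP_90b327_co Pool.Agent.Lib.MP_90b327_co.RB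

private def ev (I : Finset ℕ) : Finset ℕ := I.image (fun i => 2 * i)

private def od (I : Finset ℕ) : Finset ℕ := I.image (fun i => 2 * i + 1)

private theorem mem_ev {I : Finset ℕ} {v : ℕ} (h : v ∈ ev I) : v % 2 = 0 := by
  obtain ⟨i, _, rfl⟩ := mem_image.1 h
  omega

private theorem mem_od {I : Finset ℕ} {v : ℕ} (h : v ∈ od I) : v % 2 = 1 := by
  obtain ⟨i, _, rfl⟩ := mem_image.1 h
  omega

private theorem inj_ev : Function.Injective (fun i : ℕ => 2 * i) := fun a b h => by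
  have h1 : 2 * a = 2 * b := h
  omega

private theorem inj_od : Function.Injective (fun i : ℕ => 2 * i + 1) := fun a b h => by
  have h1 : 2 * a + 1 = 2 * b + 1 := h
  omega

private theorem card_ev (I : Finset ℕ) : (ev I).card = I.card :=
  card_image_of_injective _ inj_ev

private theorem card_od (I : Finset ℕ) : (od I).card = I.card :=
  card_image_of_injective _ inj_od

private theorem ev_disj {I J : Finset ℕ} (h : Disjoint I J) : Disjoint (ev I) (ev J) := by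
  rw [disjoint_left]
  intro v hv hv'
  obtain ⟨i, hi, rfl⟩ := mem_image.1 hv
  obtain ⟨j, hj, h1⟩ := mem_image.1 hv'
  have h2 : j = i := inj_ev h1
  exact disjoint_left.1 h hi (h2 ▸ hj)

private theorem od_disj {I J : Finset ℕ} (h : Disjoint I J) : Disjoint (od I) (od J) := by
  rw [disjoint_left]
  intro v hv hv'
  obtain ⟨i, hi, rfl⟩ := mem_image.1 hv
  obtain ⟨j, hj, h1⟩ := mem_image.1 hv'
  have h2 : j = i := inj_od h1
  exact disjoint_left.1 h hi (h2 ▸ hj)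

private theorem oe_disj (I J : Finset ℕ) : Disjoint (od I) (ev J) := by
  rw [disjoint_left]
  intro v hv hv'
  have h1 := mem_od hv
  have h2 := mem_ev hv'
  omega

/-- rows `I'` in the first pattern, rows `I` in the second one -/
private theorem row_val {θ : Pt → Pt → ℂ} (B C : Finset ℕ) {sp : Sp}
    (hs : IsRow (fun X Y => θ (od B ×ˢ od C ∪ rl (fun i => 2 * i) (fun j => 2 * j + 1) X)
      (od B ×ˢ od C ∪ rl (fun i => 2 * i) (fun j => 2 * j + 1) Y)) sp) (I I' : Finset ℕ)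
    (hd : Disjoint I I') :
    θ ((od B ∪ ev I') ×ˢ od C) ((od B ∪ ev I) ×ˢ od C) =
      ∫ ω, sp.z ∅ C ω ^ I.card * sp.z C ∅ ω ^ I'.card ∂sp.P := by
  have h1 := hs 2 ![I, I'] ![∅, C] ![C, ∅] (by
    intro k l hkl
    fin_cases k <;> fin_cases l <;> first | exact absurd rfl hkl | exact hd | exact hd.symm)
  have e1 : stk ![I, I'] ![∅, C] = I' ×ˢ C := by
    unfold stk
    ext c
    simp only [mem_biUnion, mem_univ, true_and, Fin.exists_fin_two, Matrix.cons_val_zero,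
      Matrix.cons_val_one, product_empty, notMem_empty, false_or]
  have e2 : stk ![I, I'] ![C, ∅] = I ×ˢ C := by
    unfold stk
    ext c
    simp only [mem_biUnion, mem_univ, true_and, Fin.exists_fin_two, Matrix.cons_val_zero,
      Matrix.cons_val_one, product_empty, notMem_empty, or_false]
  rw [e1, e2] at h1
  simp only [Fin.prod_univ_two, Matrix.cons_val_zero, Matrix.cons_val_one] at h1
  rw [rl_prod, rl_prod] at h1
  rw [union_product, union_product]
  exact h1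

private theorem row_a1 {B₀ Γ Bt K Cc : Finset ℕ} (k1 : ∀ v, v ∈ Bt → v ∉ Cc) (c : ℕ × ℕ)
    (hc : c.1 ∈ Bt \ K ∨ c.2 ∈ Bt \ K) :
    c ∈ (B₀ ∪ (Bt \ K)) ×ˢ Cc ↔ c ∈ (B₀ ∪ Γ ∪ Bt) ×ˢ Cc := by
  rcases hc with hc | hc
  · have h0 := (mem_sdiff.1 hc).1
    simp only [mem_union, mem_product, hc, h0, or_true, true_and]
  · have h0 := k1 _ (mem_sdiff.1 hc).1
    simp only [mem_product, h0, and_false]

private theorem row_a2 {B₀ Bt K K' Cc : Finset ℕ} (k1 : ∀ v, v ∈ Bt → v ∉ Cc) (c : ℕ × ℕ)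
    (hc : c.1 ∈ Bt \ (K ∪ K') ∨ c.2 ∈ Bt \ (K ∪ K')) :
    c ∈ (B₀ ∪ (Bt \ K)) ×ˢ Cc ↔ c ∈ (B₀ ∪ (Bt \ K')) ×ˢ Cc := by
  rcases hc with hc | hc
  · obtain ⟨h0, h1⟩ := mem_sdiff.1 hc
    rw [mem_union, not_or] at h1
    simp only [mem_union, mem_product, mem_sdiff, h0, h1.1, h1.2, not_false_iff]
  · have h0 := k1 _ (mem_sdiff.1 hc).1
    simp only [mem_product, h0, and_false]

private theorem row_f {B₀ V Z Z' Cc : Finset ℕ} (h1 : ∀ v, v ∈ V → v ∉ Cc)
    (h2 : (B₀ ∪ Z) \ V = B₀ ∪ Z') :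
    ((B₀ ∪ Z) ×ˢ Cc).filter (fun c => c.1 ∉ V ∧ c.2 ∉ V) = (B₀ ∪ Z') ×ˢ Cc := by
  rw [flt_prod, h2, sdiff_eq_self_of_disjoint (disjoint_left.2 fun v hv hv' => h1 v hv' hv)]

theorem row_ineq {θ : Pt → Pt → ℂ} (h : JCh θ) (b m e : ℕ) :
    ∃ (sp : Sp) (C : Finset ℕ),
      (∀ (ι : Type) [Fintype ι] (s : ι → ℕ) (lam : ι → ℂ),
        ‖∑ k, lam k * QQ θ b m (s k) e‖ ^ 2 ≤
          ∫ ω, ‖∑ k, lam k * sp.z ∅ C ω ^ s k‖ ^ 2 ∂sp.P) ∧
      ∀ s : ℕ, VV θ b m e s = ((∫ ω, ‖sp.z ∅ C ω‖ ^ (2 * s) ∂sp.P : ℝ) : ℂ) := by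
  classical
  obtain ⟨B₀, hB₀⟩ : ∃ B₀ : Finset ℕ, B₀ = od (range b) := ⟨_, rfl⟩
  obtain ⟨Γ, hΓ⟩ : ∃ Γ : Finset ℕ, Γ = od (Ico b (b + m)) := ⟨_, rfl⟩
  obtain ⟨H, hH⟩ : ∃ H : Finset ℕ, H = od (Ico (b + m) (b + m + e)) := ⟨_, rfl⟩
  obtain ⟨Cc, hCc⟩ : ∃ Cc : Finset ℕ, Cc = od (range (b + m + e)) := ⟨_, rfl⟩
  have hU : B₀ ∪ Γ ∪ H = Cc := by
    rw [hB₀, hΓ, hH, hCc]
    unfold od
    rw [← image_union, ← image_union]
    congr 1
    ext v
    simp only [mem_union, mem_range, mem_Ico]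
    omega
  have cB : B₀.card = b := by rw [hB₀, card_od, card_range]
  have cΓ : Γ.card = m := by rw [hΓ, card_od, Nat.card_Ico]; omega
  have cH : H.card = e := by rw [hH, card_od, Nat.card_Ico]; omega
  have d1 : Disjoint B₀ Γ := by
    rw [hB₀, hΓ]
    apply od_disj
    rw [disjoint_left]
    intro v hv hv'
    rw [mem_range] at hv
    rw [mem_Ico] at hv'
    omega
  have d2 : Disjoint (B₀ ∪ Γ) H := by
    rw [disjoint_union_left, hB₀, hΓ, hH]
    constructor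
    · apply od_disj
      rw [disjoint_left]
      intro v hv hv'
      rw [mem_range] at hv
      rw [mem_Ico] at hv'
      omega
    · apply od_disj
      rw [disjoint_left]
      intro v hv hv'
      rw [mem_Ico] at hv hv'
      omega
  have dC : ∀ J, Disjoint Cc (ev J) := fun J => by rw [hCc]; exact oe_disj _ _
  have dV : ∀ J v, v ∈ ev J → v ∉ Cc := fun J v hv hv' => disjoint_left.1 (dC J) hv' hv
  have hk := ctx_ker h B₀ Cc (fun v hv => by rw [hB₀] at hv; exact mem_od hv)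
    (fun v hv => by rw [hCc] at hv; exact mem_od hv)
  obtain ⟨sp, hsp⟩ := exists_row2 hk
  rw [hB₀, hCc] at hsp
  have hval := fun I I' hd => row_val (range b) (range (b + m + e)) hsp I I' hd
  rw [← hB₀, ← hCc] at hval
  refine ⟨sp, range (b + m + e), ?_, ?_⟩
  · intro ι _ s lam
    have key := cs_copies h.ker (fun i => QQ θ b m (s i) e)
      (fun i j => ∫ ω, sp.z ∅ (range (b + m + e)) ω ^ s i * sp.z (range (b + m + e)) ∅ ω ^ s j ∂sp.P)
      ?_ lam
    · exact key.trans_eq (sp_sq sp ∅ (range (b + m + e)) s lam)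
    intro n _
    obtain ⟨I, hIc, -, hII⟩ := fresh_sets ∅ (fun p : ι × Fin n => s p.1)
    obtain ⟨B, hB⟩ : ∃ B : Finset ℕ, B = univ.biUnion I := ⟨_, rfl⟩
    have hIB : ∀ p, ev (I p) ⊆ ev B := by
      intro p
      apply image_subset_image
      rw [hB]
      exact subset_biUnion_of_mem I (mem_univ p)
    refine ⟨fun i r => (B₀ ∪ (ev B \ ev (I (i, r)))) ×ˢ Cc, (B₀ ∪ Γ ∪ ev B) ×ˢ Cc, ?_, ?_⟩
    · intro i r
      have e0 := ext_out h (ev B \ ev (I (i, r))) ((B₀ ∪ (ev B \ ev (I (i, r)))) ×ˢ Cc)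
        ((B₀ ∪ Γ ∪ ev B) ×ˢ Cc) (row_a1 (dV B))
      have hV : ∀ v, v ∈ ev B \ ev (I (i, r)) → v ∉ Cc := fun v hv => dV B v (mem_sdiff.1 hv).1
      have hV0 : ∀ v, v ∈ B₀ ∪ Γ → v ∈ Cc := fun v hv => by
        rw [← hU]; exact mem_union_left _ hv
      have e1 := row_f (B₀ := B₀) (Z := ev B \ ev (I (i, r))) (Z' := ∅) hV (by
        rw [union_sdiff_distrib, sdiff_self, sdiff_eq_self_of_disjoint]
        · rfl
        · rw [disjoint_left]
          intro v hv hv'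
          exact hV v hv' (hV0 v (mem_union_left _ hv)))
      have e2 := row_f (B₀ := B₀ ∪ Γ) (Z := ev B) (Z' := ev (I (i, r))) hV (by
        rw [union_sdiff_distrib, sdiff_eq_self_of_disjoint (s := B₀ ∪ Γ),
          Finset.sdiff_sdiff_eq_self (hIB (i, r))]
        rw [disjoint_left]
        intro v hv hv'
        exact hV v hv' (hV0 v hv))
      show θ ((B₀ ∪ (ev B \ ev (I (i, r)))) ×ˢ Cc) ((B₀ ∪ Γ ∪ ev B) ×ˢ Cc) = QQ θ b m (s i) e
      rw [e0, e1, e2, union_empty, ← hU]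
      have e3 := qv_eq h B₀ Γ (ev (I (i, r))) H d1
        (disjoint_left.2 fun v hv hv' => dV _ v hv' (hV0 v hv)) (by
          rw [disjoint_union_left]
          refine ⟨d2, ?_⟩
          rw [hH]
          exact (oe_disj _ _).symm)
      rw [cB, cΓ, cH, card_ev, hIc] at e3
      exact e3
    · intro i r j t hne
      have hV : ∀ v, v ∈ ev B \ (ev (I (i, r)) ∪ ev (I (j, t))) → v ∉ Cc := fun v hv =>
        dV B v (mem_sdiff.1 hv).1
      have hdd : Disjoint (ev (I (i, r))) (ev (I (j, t))) := ev_disj (hII _ _ hne)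
      have hV0 : ∀ v, v ∈ B₀ → v ∈ Cc := fun v hv => by
        rw [← hU]; exact mem_union_left _ (mem_union_left _ hv)
      have e0 := ext_out h (ev B \ (ev (I (i, r)) ∪ ev (I (j, t))))
        ((B₀ ∪ (ev B \ ev (I (i, r)))) ×ˢ Cc) ((B₀ ∪ (ev B \ ev (I (j, t)))) ×ˢ Cc)
        (row_a2 (dV B))
      have hs : ∀ K K' : Finset ℕ, K' ⊆ ev B → Disjoint K K' →
          (B₀ ∪ (ev B \ K)) \ (ev B \ (K ∪ K')) = B₀ ∪ K' := by
        intro K K' k1 k2
        rw [union_sdiff_distrib]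
        congr 1
        · apply sdiff_eq_self_of_disjoint
          rw [disjoint_left]
          intro v hv hv'
          exact dV B v (mem_sdiff.1 hv').1 (hV0 v hv)
        · ext v
          have g1 := @k1 v
          have g2 := fun hv : v ∈ K => disjoint_left.1 k2 hv
          simp only [mem_sdiff, mem_union]
          tauto
      have e1 := row_f hV (hs _ _ (hIB (j, t)) hdd)
      have e2 := hs _ _ (hIB (i, r)) hdd.symm
      rw [union_comm (ev (I (j, t))) (ev (I (i, r)))] at e2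
      have e3 := row_f hV e2
      show θ ((B₀ ∪ (ev B \ ev (I (i, r)))) ×ˢ Cc) ((B₀ ∪ (ev B \ ev (I (j, t)))) ×ˢ Cc) =
        ∫ ω, sp.z ∅ (range (b + m + e)) ω ^ s i * sp.z (range (b + m + e)) ∅ ω ^ s j ∂sp.P
      rw [e0, e1, e3, hval _ _ (hII _ _ hne), hIc, hIc]
  · intro s
    have hd : Disjoint (range s) (Ico s (s + s)) := by
      rw [disjoint_left]
      intro v hv hv'
      rw [mem_range] at hv
      rw [mem_Ico] at hv'
      omega
    have c1 : (Ico s (s + s)).card = s := by rw [Nat.card_Ico]; omega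
    have e1 := vw_eq h B₀ Γ H (ev (Ico s (s + s))) (ev (range s)) (by
      rw [card_ev, card_ev, c1, card_range]) d1 d2 (by rw [hU]; exact dC _) (by
      rw [hU, disjoint_union_left]
      exact ⟨dC _, ev_disj hd.symm⟩)
    rw [cB, cΓ, cH, card_ev, card_range] at e1
    rw [← e1]
    unfold vw
    rw [hU, hval _ _ hd, card_range, c1, ← integral_complex_ofReal]
    refine integral_congr_ae (Filter.Eventually.of_forall fun ω => ?_)
    show sp.z ∅ (range (b + m + e)) ω ^ s * sp.z (range (b + m + e)) ∅ ω ^ s =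
      ((‖sp.z ∅ (range (b + m + e)) ω‖ ^ (2 * s) : ℝ) : ℂ)
    rw [← mul_pow, sp.herm ∅ (range (b + m + e)) ω, Complex.mul_conj, Complex.normSq_eq_norm_sq, pow_mul]
    push_cast
    rfl

end Pool.Agent.Lib.MP_90b327_co.EX
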