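import Mathlib
import Pool.Agent.Lib.MP_90b327_co.EX.EDefs
import Pool.Agent.Lib.MP_90b327_co.EX.ECs
import Pool.Agent.Lib.MP_90b327_co.EX.EFacts
import Pool.Agent.Lib.MP_90b327_co.EX.ETwo
import Pool.Agent.Lib.MP_90b327_co.EX.EMom

/-!
MODULE ESec (owner helper18). Text section 5, (SEC).

PROOF. In `vw` the set `Γ` occurs only in `C`, as columns. `B` fresh, `K ⊆ B`, `C0 = B₀ ∪ H`:
`X_K := (B₀ ∪ S') × (C0 ∪ K) ∪ (B₀ ∪ S) × (B \ K)`, `Y := (B₀ ∪ S) × (C0 ∪ B)`. `ext_out` at `B \ K`: `θ X_K Y = vw θ B₀ K H S' S`.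
For disjoint `K`, `K'` the patterns `X_K`, `X_K'` agree outside `J × J`, `J = S ∪ S' ∪ K ∪ K'`, and are
`(S' × K) ∪ (S × K')` resp. `(S × K) ∪ (S' × K')` there: `th_wv` with `e = S'`, `f = S`, `x = K'`, `y = K`:
`wv (bip θ) s s |K| |K'| = ∫ sg^|K| * conj sg^|K'|` (`T.mom'`). `cs_copies`.
-/

set_option autoImplicit false

namespace Pool.Agent.Lib.MP_90b327_co.EX

open Finset MeasureTheory Pool.Agent.Lib.MP_90b327_co Pool.Agent.Lib.MP_90b327_co.RB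

private theorem sec_a1 {B₀ H B K S' S : Finset ℕ} (b1 : ∀ v, v ∈ B → v ∉ B₀) (b2 : ∀ v, v ∈ B → v ∉ H)
    (b3 : ∀ v, v ∈ B → v ∉ S') (b4 : ∀ v, v ∈ B → v ∉ S) (c : ℕ × ℕ)
    (hc : c.1 ∈ B \ K ∨ c.2 ∈ B \ K) :
    c ∈ (B₀ ∪ S') ×ˢ (B₀ ∪ H ∪ K) ∪ (B₀ ∪ S) ×ˢ (B \ K) ↔ c ∈ (B₀ ∪ S) ×ˢ (B₀ ∪ H ∪ B) := by
  rcases hc with hc | hc
  · have h0 := (mem_sdiff.1 hc).1
    have h1 := b1 _ h0
    have h3 := b3 _ h0
    have h4 := b4 _ h0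
    simp only [mem_union, mem_product, h1, h3, h4, or_self, false_and]
  · obtain ⟨h0, h5⟩ := mem_sdiff.1 hc
    have h1 := b1 _ h0
    have h2 := b2 _ h0
    simp only [mem_union, mem_product, mem_sdiff, h0, h1, h2, h5, or_self, and_false, false_or,
      and_true, or_true, not_false_iff]

private theorem sec_f1 {B₀ H B K S' S : Finset ℕ} (b1 : ∀ v, v ∈ B → v ∉ B₀) (b2 : ∀ v, v ∈ B → v ∉ H)
    (b3 : ∀ v, v ∈ B → v ∉ S') (hK : ∀ v, v ∈ K → v ∈ B) :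
    ((B₀ ∪ S') ×ˢ (B₀ ∪ H ∪ K) ∪ (B₀ ∪ S) ×ˢ (B \ K)).filter
        (fun c => c.1 ∉ B \ K ∧ c.2 ∉ B \ K) = (B₀ ∪ S') ×ˢ (B₀ ∪ K ∪ H) := by
  rw [filter_union, flt_prod, flt_prod, sdiff_self, bot_eq_empty, product_empty, union_empty]
  congr 1
  · apply sdiff_eq_self_of_disjoint
    rw [disjoint_left]
    intro v hv hv'
    have h0 := (mem_sdiff.1 hv').1
    rcases mem_union.1 hv with h1 | h1
    · exact b1 v h0 h1
    · exact b3 v h0 h1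
  · ext v
    have g1 := b1 v
    have g2 := b2 v
    have g3 := hK v
    simp only [mem_union, mem_sdiff]
    tauto

private theorem sec_f2 {B₀ H B K S : Finset ℕ} (b1 : ∀ v, v ∈ B → v ∉ B₀) (b2 : ∀ v, v ∈ B → v ∉ H)
    (b4 : ∀ v, v ∈ B → v ∉ S) (hK : ∀ v, v ∈ K → v ∈ B) :
    ((B₀ ∪ S) ×ˢ (B₀ ∪ H ∪ B)).filter
        (fun c => c.1 ∉ B \ K ∧ c.2 ∉ B \ K) = (B₀ ∪ S) ×ˢ (B₀ ∪ K ∪ H) := by
  rw [flt_prod]
  congr 1
  · apply sdiff_eq_self_of_disjoint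
    rw [disjoint_left]
    intro v hv hv'
    have h0 := (mem_sdiff.1 hv').1
    rcases mem_union.1 hv with h1 | h1
    · exact b1 v h0 h1
    · exact b4 v h0 h1
  · ext v
    have g1 := b1 v
    have g2 := b2 v
    have g3 := hK v
    simp only [mem_union, mem_sdiff]
    tauto

private theorem sec_a2 {B₀ H B K K' S' S : Finset ℕ} (b1 : ∀ v, v ∈ B → v ∉ B₀)
    (b2 : ∀ v, v ∈ B → v ∉ H) (b3 : ∀ v, v ∈ B → v ∉ S') (b4 : ∀ v, v ∈ B → v ∉ S)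
    (s1 : ∀ v, v ∈ S' → v ∉ B₀ ∪ H) (s2 : ∀ v, v ∈ S → v ∉ B₀ ∪ H) (d1 : ∀ v, v ∈ B₀ → v ∉ H)
    (hK : ∀ v, v ∈ K → v ∈ B) (hK' : ∀ v, v ∈ K' → v ∈ B) (c : ℕ × ℕ)
    (hc : c.1 ∈ B₀ ∪ H ∪ (B \ (K ∪ K')) ∨ c.2 ∈ B₀ ∪ H ∪ (B \ (K ∪ K'))) :
    c ∈ (B₀ ∪ S') ×ˢ (B₀ ∪ H ∪ K) ∪ (B₀ ∪ S) ×ˢ (B \ K) ↔
      c ∈ (B₀ ∪ S') ×ˢ (B₀ ∪ H ∪ K') ∪ (B₀ ∪ S) ×ˢ (B \ K') := by
  rcases hc with hc | hc
  · rcases mem_union.1 hc with hc | hc
    · have h3 : c.1 ∉ S' := fun h => s1 _ h hc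
      have h4 : c.1 ∉ S := fun h => s2 _ h hc
      have g1 := hK c.2
      have g2 := hK' c.2
      simp only [mem_union, mem_product, mem_sdiff, h3, h4, or_false]
      tauto
    · have h0 := (mem_sdiff.1 hc).1
      have h1 := b1 _ h0
      have h3 := b3 _ h0
      have h4 := b4 _ h0
      simp only [mem_union, mem_product, h1, h3, h4, or_self, false_and]
  · rcases mem_union.1 hc with hc | hc
    · have h0 : c.2 ∉ B := fun h => by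
        rcases mem_union.1 hc with h1 | h1
        · exact b1 _ h h1
        · exact b2 _ h h1
      have h1 : c.2 ∉ K := fun h => h0 (hK _ h)
      have h2 : c.2 ∉ K' := fun h => h0 (hK' _ h)
      simp only [mem_union, mem_product, mem_sdiff, h0, h1, h2, or_false, false_and]
    · obtain ⟨h0, h5⟩ := mem_sdiff.1 hc
      rw [mem_union, not_or] at h5
      have h1 := b1 _ h0
      have h2 := b2 _ h0
      simp only [mem_union, mem_product, mem_sdiff, h0, h1, h2, h5.1, h5.2, or_self, and_false,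
        not_false_iff]

private theorem sec_f3 {B₀ H B K K' S' S : Finset ℕ} (b1 : ∀ v, v ∈ B → v ∉ B₀)
    (b2 : ∀ v, v ∈ B → v ∉ H) (b3 : ∀ v, v ∈ B → v ∉ S') (b4 : ∀ v, v ∈ B → v ∉ S)
    (s1 : ∀ v, v ∈ S' → v ∉ B₀ ∪ H) (s2 : ∀ v, v ∈ S → v ∉ B₀ ∪ H)
    (hK : ∀ v, v ∈ K → v ∈ B) (hK' : ∀ v, v ∈ K' → v ∈ B) (hd : ∀ v, v ∈ K → v ∉ K') :
    ((B₀ ∪ S') ×ˢ (B₀ ∪ H ∪ K) ∪ (B₀ ∪ S) ×ˢ (B \ K)).filter
        (fun c => c.1 ∉ B₀ ∪ H ∪ (B \ (K ∪ K')) ∧ c.2 ∉ B₀ ∪ H ∪ (B \ (K ∪ K'))) =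
      S' ×ˢ K ∪ S ×ˢ K' := by
  rw [filter_union, flt_prod, flt_prod]
  have e1 : (B₀ ∪ S') \ (B₀ ∪ H ∪ (B \ (K ∪ K'))) = S' := by
    ext v
    have g1 := s1 v
    have g2 := b3 v
    simp only [mem_union, mem_sdiff] at g1 ⊢
    tauto
  have e2 : (B₀ ∪ S) \ (B₀ ∪ H ∪ (B \ (K ∪ K'))) = S := by
    ext v
    have g1 := s2 v
    have g2 := b4 v
    simp only [mem_union, mem_sdiff] at g1 ⊢
    tauto
  have e3 : (B₀ ∪ H ∪ K) \ (B₀ ∪ H ∪ (B \ (K ∪ K'))) = K := by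
    ext v
    have g1 := b1 v
    have g2 := b2 v
    have g3 := hK v
    simp only [mem_union, mem_sdiff]
    tauto
  have e4 : (B \ K) \ (B₀ ∪ H ∪ (B \ (K ∪ K'))) = K' := by
    ext v
    have g1 := b1 v
    have g2 := b2 v
    have g3 := hK' v
    have g4 := hd v
    simp only [mem_union, mem_sdiff]
    tauto
  rw [e1, e2, e3, e4]

theorem sec_ineq {θ : Pt → Pt → ℂ} (h : JCh θ) (T : Two) (hT : T.W = wv (bip θ)) (b e s : ℕ)
    {ι : Type} [Fintype ι] (m : ι → ℕ) (lam : ι → ℂ) :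
    ‖∑ k, lam k * VV θ b (m k) e s‖ ^ 2 ≤
      ∫ ω, ‖∑ k, lam k * T.c.z (range s) (Ico s (s + s)) ω ^ m k‖ ^ 2 ∂T.c.P := by
  classical
  obtain ⟨B₀, hB₀⟩ : ∃ B₀ : Finset ℕ, B₀ = range b := ⟨_, rfl⟩
  obtain ⟨H, hH⟩ : ∃ H : Finset ℕ, H = Ico b (b + e) := ⟨_, rfl⟩
  obtain ⟨S', hS'⟩ : ∃ S' : Finset ℕ, S' = Ico (b + e) (b + e + s) := ⟨_, rfl⟩
  obtain ⟨S, hS⟩ : ∃ S : Finset ℕ, S = Ico (b + e + s) (b + e + s + s) := ⟨_, rfl⟩
  have cB : B₀.card = b := by rw [hB₀, card_range]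
  have cH : H.card = e := by rw [hH, Nat.card_Ico]; omega
  have cS' : S'.card = s := by rw [hS', Nat.card_Ico]; omega
  have cS : S.card = s := by rw [hS, Nat.card_Ico]; omega
  have d1 : ∀ v, v ∈ B₀ → v ∉ H := by
    intro v h1 h2
    rw [hB₀, mem_range] at h1
    rw [hH, mem_Ico] at h2
    omega
  have s1 : ∀ v, v ∈ S' → v ∉ B₀ ∪ H := by
    intro v h1 h2
    rw [hS', mem_Ico] at h1
    rw [hB₀, hH, mem_union, mem_range, mem_Ico] at h2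
    omega
  have s2 : ∀ v, v ∈ S → v ∉ B₀ ∪ H := by
    intro v h1 h2
    rw [hS, mem_Ico] at h1
    rw [hB₀, hH, mem_union, mem_range, mem_Ico] at h2
    omega
  have s3 : ∀ v, v ∈ S' → v ∉ S := by
    intro v h1 h2
    rw [hS', mem_Ico] at h1
    rw [hS, mem_Ico] at h2
    omega
  have hst : Disjoint (range s) (Ico s (s + s)) := by
    rw [disjoint_left]
    intro v hv hv'
    rw [mem_range] at hv
    rw [mem_Ico] at hv'
    omega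
  have cI : (Ico s (s + s)).card = s := by rw [Nat.card_Ico]; omega
  have hM : ∀ i j, wv (bip θ) s s (m i) (m j) = ∫ ω, T.c.z (range s) (Ico s (s + s)) ω ^ m i *
      T.c.z (Ico s (s + s)) (range s) ω ^ m j ∂T.c.P := by
    intro i j
    rw [T.mom' (range s) (Ico s (s + s)) hst (m i) (m j), hT, cI, card_range]
  have key := cs_copies h.ker (fun i => VV θ b (m i) e s)
    (fun i j => wv (bip θ) s s (m i) (m j)) ?_ lam
  · refine key.trans_eq ?_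
    simp only [hM]
    exact sp_sq T.c (range s) (Ico s (s + s)) m lam
  intro n _
  obtain ⟨A, hAc, hAS, hAA⟩ := fresh_sets (B₀ ∪ H ∪ S' ∪ S) (fun p : ι × Fin n => m p.1)
  obtain ⟨B, hB⟩ : ∃ B : Finset ℕ, ∀ v, v ∈ B ↔ ∃ p, v ∈ A p :=
    ⟨univ.biUnion A, fun v => by simp only [mem_biUnion, mem_univ, true_and]⟩
  have hAB : ∀ p v, v ∈ A p → v ∈ B := fun p v hv => (hB v).2 ⟨p, hv⟩
  have hBn : ∀ v, v ∈ B → v ∉ B₀ ∪ H ∪ S' ∪ S := by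
    intro v hv hv'
    obtain ⟨p, hp⟩ := (hB v).1 hv
    exact disjoint_left.1 (hAS p) hv' hp
  have b1 : ∀ v, v ∈ B → v ∉ B₀ := fun v hv hv' =>
    hBn v hv (mem_union_left _ (mem_union_left _ (mem_union_left _ hv')))
  have b2 : ∀ v, v ∈ B → v ∉ H := fun v hv hv' =>
    hBn v hv (mem_union_left _ (mem_union_left _ (mem_union_right _ hv')))
  have b3 : ∀ v, v ∈ B → v ∉ S' := fun v hv hv' =>
    hBn v hv (mem_union_left _ (mem_union_right _ hv'))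
  have b4 : ∀ v, v ∈ B → v ∉ S := fun v hv hv' => hBn v hv (mem_union_right _ hv')
  refine ⟨fun i r => (B₀ ∪ S') ×ˢ (B₀ ∪ H ∪ A (i, r)) ∪ (B₀ ∪ S) ×ˢ (B \ A (i, r)),
    (B₀ ∪ S) ×ˢ (B₀ ∪ H ∪ B), ?_, ?_⟩
  · intro i r
    have hK := hAB (i, r)
    have e0 := ext_out h (B \ A (i, r)) ((B₀ ∪ S') ×ˢ (B₀ ∪ H ∪ A (i, r)) ∪ (B₀ ∪ S) ×ˢ (B \ A (i, r)))
      ((B₀ ∪ S) ×ˢ (B₀ ∪ H ∪ B)) (sec_a1 b1 b2 b3 b4)
    show θ ((B₀ ∪ S') ×ˢ (B₀ ∪ H ∪ A (i, r)) ∪ (B₀ ∪ S) ×ˢ (B \ A (i, r)))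
      ((B₀ ∪ S) ×ˢ (B₀ ∪ H ∪ B)) = VV θ b (m i) e s
    rw [e0, sec_f1 b1 b2 b3 hK, sec_f2 b1 b2 b4 hK]
    have e1 := vw_eq h B₀ (A (i, r)) H S' S (by rw [cS', cS])
      (disjoint_left.2 fun v hv hv' => b1 v (hK v hv') hv) (by
        rw [disjoint_union_left]
        exact ⟨disjoint_left.2 d1, disjoint_left.2 fun v hv hv' => b2 v (hK v hv) hv'⟩) (by
        rw [disjoint_right]
        intro v hv hv'
        have h1 := s1 v hv
        rw [mem_union, not_or] at h1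
        rcases mem_union.1 hv' with h2 | h2
        · rcases mem_union.1 h2 with h3 | h3
          · exact h1.1 h3
          · exact b3 v (hK v h3) hv
        · exact h1.2 h2) (by
        rw [disjoint_right]
        intro v hv hv'
        have h1 := s2 v hv
        rw [mem_union, not_or] at h1
        rcases mem_union.1 hv' with h2 | h2
        · rcases mem_union.1 h2 with h2 | h2
          · rcases mem_union.1 h2 with h3 | h3
            · exact h1.1 h3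
            · exact b4 v (hK v h3) hv
          · exact h1.2 h2
        · exact s3 v h2 hv)
    rw [cB, hAc, cH, cS] at e1
    exact e1
  · intro i r j t hne
    have hK := hAB (i, r)
    have hK' := hAB (j, t)
    have hKK : ∀ v, v ∈ A (i, r) → v ∉ A (j, t) := fun v hv => disjoint_left.1 (hAA _ _ hne) hv
    have e0 := ext_out h (B₀ ∪ H ∪ (B \ (A (i, r) ∪ A (j, t))))
      ((B₀ ∪ S') ×ˢ (B₀ ∪ H ∪ A (i, r)) ∪ (B₀ ∪ S) ×ˢ (B \ A (i, r)))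
      ((B₀ ∪ S') ×ˢ (B₀ ∪ H ∪ A (j, t)) ∪ (B₀ ∪ S) ×ˢ (B \ A (j, t)))
      (sec_a2 b1 b2 b3 b4 s1 s2 d1 hK hK')
    have e1 := sec_f3 b1 b2 b3 b4 s1 s2 hK hK' hKK
    have e2 := sec_f3 b1 b2 b3 b4 s1 s2 hK' hK (fun v hv hv' => hKK v hv' hv)
    rw [union_comm (A (j, t)) (A (i, r))] at e2
    show θ ((B₀ ∪ S') ×ˢ (B₀ ∪ H ∪ A (i, r)) ∪ (B₀ ∪ S) ×ˢ (B \ A (i, r)))
      ((B₀ ∪ S') ×ˢ (B₀ ∪ H ∪ A (j, t)) ∪ (B₀ ∪ S) ×ˢ (B \ A (j, t))) = wv (bip θ) s s (m i) (m j)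
    rw [e0, e1, e2]
    have e3 := th_wv h S' S (A (j, t)) (A (i, r)) (disjoint_left.2 s3)
      (disjoint_left.2 fun v hv hv' => hKK v hv' hv) (by
        rw [disjoint_left]
        intro v hv hv'
        have h5 : v ∈ B := by
          rcases mem_union.1 hv' with h6 | h6
          · exact hK' v h6
          · exact hK v h6
        rcases mem_union.1 hv with h6 | h6
        · exact b3 v h5 h6
        · exact b4 v h5 h6)
    have e4 : neg S' S (A (j, t)) (A (i, r)) = S' ×ˢ A (i, r) ∪ S ×ˢ A (j, t) := by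
      unfold neg
      exact union_comm _ _
    have e5 : pos S' S (A (j, t)) (A (i, r)) = S' ×ˢ A (j, t) ∪ S ×ˢ A (i, r) := by
      unfold pos
      exact union_comm _ _
    rw [e4, e5, cS, cS', hAc, hAc] at e3
    exact e3

end Pool.Agent.Lib.MP_90b327_co.EX
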