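import Mathlib
import Pool.Agent.Lib.MP_90b327_co.EX.EDefs
import Pool.Agent.Lib.MP_90b327_co.EX.EFacts
import Pool.Agent.Lib.MP_90b327_co.EX.ECol
import Pool.Agent.Lib.MP_90b327_co.EX.ERow
import Pool.Agent.Lib.MP_90b327_co.EX.ESec
import Pool.Agent.Lib.MP_90b327_co.RB.CaseOne

/-!
MODULE ECaseA. Text section 6, cases 1 and 2.

PROOFS.
`dmean`: `F x y`, `‖F x y‖ ≤ 1`. `E` with the property for `ε/2`. `K₀ ≥ 2 E/ε + 1`; for `K ≥ K₀` let `l₀` be the maximum of the `l₀`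
of all `y ∈ [M, M+K)`, `y ≥ E`. The `y < E` (at most `E` of them) give at most `E l ≤ (ε/2) K l`, the others at most `(ε/2) l` each.
`pow_mean`: pointwise `‖(1/l) ∑_(x ∈ [M, M+l)) f^(m₀+q x)‖ ≤ ‖(1/l) ∑_(x < l) f^(q x)‖` (`‖f‖ ≤ 1`), which tends to `1` if `f^q = 1` and
to `0` otherwise (geometric sum), is `≤ 1`; dominated convergence for the square: `∫ ‖(1/l) ∑_(x<l) f^(q x)‖^2 → P(f^q = 1)`.
`s3_one` (case 1): `col_ineq` with `ι = Unit`: `‖QQ b m s e‖^2 ≤ ∫ ‖z‖^(2 e) = (T.W (m+s) 0 e e).re` (`T.mom'` with `x = ∅`, `y = range (m+s)`,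
`herm`) `= (∫ ρ^(m+s)).re` (`T.mom` with `x = Ico e (e+e)`, `y = range e`), `ρ = T.r.z (Ico e (e+e)) (range e)`. For fixed `y`
(`s = s₀+q y`, `e = s - b`) the mean over `x` of `‖QQ‖^2` is at most `∫ ‖(1/l) ∑ ρ^(m₀+s+q x)‖ ≤ (∫ ‖..‖^2)^(1/2) ≤ (P(ρ^q = 1) + ε')^(1/2)`
(`pow_mean`), and `P(ρ^q = 1) → 0` as `e → ∞` (`RB.case_one`; `ρ^q = 1` implies `‖ρ‖ = 1`); mean of `‖QQ‖` ≤ root of mean of the square.
`e = s₀ + q y - b ≥ y`. `dmean`.
`s3_two` (case 2): `row_ineq` with `ι = Unit`: `‖QQ b m s e‖^2 ≤ (VV b m e s).re`, and `sec_ineq` with `ι = {x ∈ [M, M+l)}`, `lam = 1/l`: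
`‖mean_x VV b (m₀+q x) e s‖^2 ≤ ∫ ‖mean_x sg^(m₀+q x)‖^2 ≤ P(sg^q = 1) + ε'` for large `l`, `sg = T.c.z (range s) (Ico s (s+s))`, the
conjugate of `T.swap.r.z (Ico s (s+s)) (range s)`: `P(sg^q = 1) → 0` as `s → ∞` (`RB.case_one` for `T.swap`). `s ≥ y`. `dmean`.
-/

set_option autoImplicit false

namespace Pool.Agent.Lib.MP_90b327_co.EX

open Finset MeasureTheory Pool.Agent.Lib.MP_90b327_co Pool.Agent.Lib.MP_90b327_co.RB

private theorem ECaseA_cut (K M E : ℕ) (l c : ℝ) (hl : 0 ≤ l) (u : ℕ → ℝ) (h1 : ∀ y, u y ≤ l)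
    (h2 : ∀ y ∈ Ico M (M + K), E ≤ y → u y ≤ c) (hc : 0 ≤ c) :
    ∑ y ∈ Ico M (M + K), u y ≤ E * l + K * c := by
  have h3 : ∀ y ∈ Ico M (M + K), u y ≤ (if y < E then l else 0) + c := by
    intro y hy
    by_cases hE : y < E
    · rw [if_pos hE]
      have := h1 y
      linarith
    · rw [if_neg hE]
      have := h2 y hy (not_lt.mp hE)
      linarith
  refine (Finset.sum_le_sum h3).trans ?_
  rw [Finset.sum_add_distrib, Finset.sum_const, Nat.card_Ico, Nat.add_sub_cancel_left, nsmul_eq_mul,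
    ← Finset.sum_filter, Finset.sum_const, nsmul_eq_mul]
  have h4 : ((Ico M (M + K)).filter (fun y => y < E)).card ≤ E := by
    calc ((Ico M (M + K)).filter (fun y => y < E)).card ≤ (range E).card := by
          apply Finset.card_le_card
          intro y hy
          rw [Finset.mem_filter] at hy
          exact Finset.mem_range.mpr hy.2
      _ = E := Finset.card_range E
  have h5 : (((Ico M (M + K)).filter (fun y => y < E)).card : ℝ) ≤ E := by exact_mod_cast h4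
  have h6 := mul_le_mul_of_nonneg_right h5 hl
  linarith

theorem dmean (F : ℕ → ℕ → ℂ) (hF : ∀ x y, ‖F x y‖ ≤ 1) (M : ℕ)
    (h : ∀ ε : ℝ, 0 < ε → ∃ E : ℕ, ∀ y : ℕ, E ≤ y → ∃ l₀ : ℕ, ∀ l : ℕ, l₀ ≤ l →
      ∑ x ∈ Ico M (M + l), ‖F x y‖ ≤ ε * l) (ε : ℝ) (hε : 0 < ε) :
    ∃ K₀ : ℕ, ∀ K : ℕ, K₀ ≤ K → ∃ l₀ : ℕ, ∀ l : ℕ, l₀ ≤ l →
      ‖∑ x ∈ Ico M (M + l), ∑ y ∈ Ico M (M + K), F x y‖ ≤ ε * l * K := by
  obtain ⟨E, hE⟩ := h (ε / 2) (by linarith)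
  choose L hL using hE
  refine ⟨⌈2 * E / ε⌉₊, fun K hK => ?_⟩
  have hK1 : 2 * (E : ℝ) / ε ≤ K := (Nat.le_ceil _).trans (by exact_mod_cast hK)
  have hK2 : (E : ℝ) ≤ ε / 2 * K := by
    rw [div_le_iff₀ hε] at hK1
    linarith
  refine ⟨∑ y ∈ Ico M (M + K), if hy : E ≤ y then L y hy else 0, fun l hl => ?_⟩
  have h1 : ‖∑ x ∈ Ico M (M + l), ∑ y ∈ Ico M (M + K), F x y‖ ≤
      ∑ y ∈ Ico M (M + K), ∑ x ∈ Ico M (M + l), ‖F x y‖ := by
    rw [Finset.sum_comm]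
    refine (norm_sum_le _ _).trans (Finset.sum_le_sum fun y _ => norm_sum_le _ _)
  have h2 := ECaseA_cut K M E l (ε / 2 * l) (Nat.cast_nonneg l)
    (fun y => ∑ x ∈ Ico M (M + l), ‖F x y‖) (fun y => by
      calc ∑ x ∈ Ico M (M + l), ‖F x y‖ ≤ ∑ x ∈ Ico M (M + l), (1 : ℝ) :=
            Finset.sum_le_sum fun x _ => hF x y
        _ = l := by
            rw [Finset.sum_const, Nat.card_Ico, Nat.add_sub_cancel_left, nsmul_eq_mul, mul_one])
    (fun y hy hEy => by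
      refine hL y hEy l (le_trans ?_ hl)
      have := Finset.single_le_sum (f := fun y => if hy : E ≤ y then L y hy else 0)
        (fun i _ => Nat.zero_le _) hy
      simp only [dif_pos hEy] at this
      exact this) (by positivity)
  have h3 : (E : ℝ) * l ≤ ε / 2 * K * l := mul_le_mul_of_nonneg_right hK2 (Nat.cast_nonneg l)
  calc ‖∑ x ∈ Ico M (M + l), ∑ y ∈ Ico M (M + K), F x y‖ ≤ _ := h1
    _ ≤ _ := h2
    _ ≤ ε * l * K := by nlinarith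

private theorem ECaseA_shift (z : ℂ) (hz : ‖z‖ ≤ 1) (q n M l : ℕ) :
    ‖∑ x ∈ Ico M (M + l), z ^ (n + q * x)‖ ≤ ‖∑ x ∈ range l, (z ^ q) ^ x‖ := by
  have h1 : ∑ x ∈ Ico M (M + l), z ^ (n + q * x) = z ^ (n + q * M) * ∑ x ∈ range l, (z ^ q) ^ x := by
    rw [Finset.sum_Ico_eq_sum_range, Nat.add_sub_cancel_left, Finset.mul_sum]
    refine Finset.sum_congr rfl fun x _ => ?_
    rw [← pow_mul, ← pow_add]
    congr 1
    ring
  rw [h1, norm_mul, norm_pow]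
  have h2 : ‖z‖ ^ (n + q * M) ≤ 1 := pow_le_one₀ (norm_nonneg _) hz
  calc ‖z‖ ^ (n + q * M) * ‖∑ x ∈ range l, (z ^ q) ^ x‖ ≤ 1 * ‖∑ x ∈ range l, (z ^ q) ^ x‖ :=
        mul_le_mul_of_nonneg_right h2 (norm_nonneg _)
    _ = _ := one_mul _

private theorem ECaseA_gl (w : ℂ) (hw : ‖w‖ ≤ 1) (l : ℕ) : ‖∑ x ∈ range l, w ^ x‖ ≤ l := by
  calc ‖∑ x ∈ range l, w ^ x‖ ≤ ∑ x ∈ range l, ‖w ^ x‖ := norm_sum_le _ _
    _ ≤ ∑ x ∈ range l, (1 : ℝ) := Finset.sum_le_sum fun x _ => by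
        rw [norm_pow]
        exact pow_le_one₀ (norm_nonneg _) hw
    _ = l := by rw [Finset.sum_const, Finset.card_range, nsmul_eq_mul, mul_one]

private theorem ECaseA_lim (w : ℂ) (hw : ‖w‖ ≤ 1) (hw1 : w ≠ 1) :
    Filter.Tendsto (fun l : ℕ => ‖∑ x ∈ range l, w ^ x‖ ^ 2 / (l : ℝ) ^ 2) Filter.atTop
      (nhds 0) := by
  have h0 : 0 < ‖w - 1‖ := norm_pos_iff.mpr (sub_ne_zero.mpr hw1)
  have h1 : ∀ l : ℕ, ‖∑ x ∈ range l, w ^ x‖ ≤ 2 / ‖w - 1‖ := by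
    intro l
    rw [geom_sum_eq hw1, norm_div]
    apply div_le_div_of_nonneg_right _ h0.le
    calc ‖w ^ l - 1‖ ≤ ‖w ^ l‖ + ‖(1 : ℂ)‖ := norm_sub_le _ _
      _ ≤ 2 := by
        rw [norm_pow, norm_one]
        have := pow_le_one₀ (n := l) (norm_nonneg w) hw
        linarith
  have h2 : Filter.Tendsto (fun l : ℕ => (2 / ‖w - 1‖) ^ 2 / (l : ℝ) ^ 2) Filter.atTop
      (nhds 0) := by
    have h3 : Filter.Tendsto (fun l : ℕ => (l : ℝ) ^ 2) Filter.atTop Filter.atTop :=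
      (Filter.tendsto_pow_atTop (by norm_num)).comp tendsto_natCast_atTop_atTop
    exact tendsto_const_nhds.div_atTop h3
  refine squeeze_zero (fun l => by positivity) (fun l => ?_) h2
  apply div_le_div_of_nonneg_right _ (by positivity)
  exact pow_le_pow_left₀ (norm_nonneg _) (h1 l) 2

theorem pow_mean {Ω : Type} [MeasurableSpace Ω] (P : Measure Ω) [IsProbabilityMeasure P] (f : Ω → ℂ)
    (hf : Measurable f) (hf1 : ∀ ω, ‖f ω‖ ≤ 1) (q : ℕ) (hq : 1 ≤ q) (ε : ℝ) (hε : 0 < ε) :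
    ∃ l₀ : ℕ, ∀ l : ℕ, l₀ ≤ l → ∀ n M : ℕ,
      ∫ ω, ‖∑ x ∈ Ico M (M + l), f ω ^ (n + q * x)‖ ^ 2 ∂P ≤
        (P.real {ω | f ω ^ q = 1} + ε) * (l : ℝ) ^ 2 := by
  classical
  have hq1 : ∀ ω, ‖f ω ^ q‖ ≤ 1 := fun ω => by
    rw [norm_pow]
    exact pow_le_one₀ (norm_nonneg _) (hf1 ω)
  have hS : MeasurableSet {ω | f ω ^ q = 1} := measurableSet_eq_fun (hf.pow_const q) measurable_const
  have hm : ∀ l : ℕ, Measurable (fun ω => ‖∑ x ∈ range l, (f ω ^ q) ^ x‖ ^ 2) := fun l =>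
    (Finset.measurable_sum _ fun x _ => ((hf.pow_const q).pow_const x)).norm.pow_const 2
  have hlim : Filter.Tendsto (fun l : ℕ => ∫ ω, ‖∑ x ∈ range l, (f ω ^ q) ^ x‖ ^ 2 / (l : ℝ) ^ 2 ∂P)
      Filter.atTop (nhds (∫ ω, {ω | f ω ^ q = 1}.indicator (fun _ => (1 : ℝ)) ω ∂P)) := by
    refine tendsto_integral_of_dominated_convergence (fun _ => (1 : ℝ))
      (fun l => ((hm l).div_const _).aestronglyMeasurable) (integrable_const _) ?_ ?_
    · intro l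
      filter_upwards with ω
      rw [Real.norm_eq_abs, abs_of_nonneg (by positivity)]
      apply div_le_one_of_le₀ _ (by positivity)
      exact pow_le_pow_left₀ (norm_nonneg _) (ECaseA_gl _ (hq1 ω) l) 2
    · filter_upwards with ω
      by_cases hω : f ω ^ q = 1
      · rw [Set.indicator_of_mem (show ω ∈ {ω | f ω ^ q = 1} from hω)]
        refine tendsto_const_nhds.congr' ?_
        filter_upwards [Filter.eventually_ge_atTop 1] with l hl
        have hl0 : (0 : ℝ) < l := by exact_mod_cast hl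
        rw [hω]
        simp only [one_pow, Finset.sum_const, Finset.card_range, nsmul_eq_mul, mul_one,
          Complex.norm_natCast]
        rw [div_self (by positivity)]
      · rw [Set.indicator_of_notMem (show ω ∉ {ω | f ω ^ q = 1} from hω)]
        exact ECaseA_lim _ (hq1 ω) hω
  have hP : ∫ ω, {ω | f ω ^ q = 1}.indicator (fun _ => (1 : ℝ)) ω ∂P = P.real {ω | f ω ^ q = 1} := by
    rw [integral_indicator hS, setIntegral_const, smul_eq_mul, mul_one]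
  rw [hP] at hlim
  obtain ⟨l₀, hl₀⟩ := (Metric.tendsto_atTop.mp hlim) ε hε
  refine ⟨l₀ + 1, fun l hl n M => ?_⟩
  have h1 := hl₀ l (by omega)
  rw [Real.dist_eq] at h1
  have h2 := (abs_lt.mp h1).2
  have hl0 : (0 : ℝ) < (l : ℝ) ^ 2 := by
    have : (0 : ℝ) < l := by exact_mod_cast (by omega : 0 < l)
    positivity
  rw [integral_div, sub_lt_iff_lt_add, div_lt_iff₀ hl0] at h2
  have h3 : ∫ ω, ‖∑ x ∈ Ico M (M + l), f ω ^ (n + q * x)‖ ^ 2 ∂P ≤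
      ∫ ω, ‖∑ x ∈ range l, (f ω ^ q) ^ x‖ ^ 2 ∂P := by
    have hi : Integrable (fun ω => ‖∑ x ∈ range l, (f ω ^ q) ^ x‖ ^ 2) P := by
      refine Integrable.of_bound (hm l).aestronglyMeasurable ((l : ℝ) ^ 2) ?_
      filter_upwards with ω
      rw [Real.norm_eq_abs, abs_of_nonneg (by positivity)]
      exact pow_le_pow_left₀ (norm_nonneg _) (ECaseA_gl _ (hq1 ω) l) 2
    refine integral_mono_of_nonneg (Filter.Eventually.of_forall fun ω => by positivity) hi ?_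
    filter_upwards with ω
    exact pow_le_pow_left₀ (norm_nonneg _) (ECaseA_shift _ (hf1 ω) q n M l) 2
  linarith

private theorem ECaseA_fin (A : ℕ → ℝ) (hA : ∀ x, 0 ≤ A x) (M l : ℕ) (B δ ε : ℝ) (hε : 0 < ε)
    (hδ : δ ≤ ε ^ 4) (hB0 : 0 ≤ B) (h1 : ∑ x ∈ Ico M (M + l), A x ^ 2 ≤ B)
    (h2 : B ^ 2 ≤ δ * (l : ℝ) ^ 2) : ∑ x ∈ Ico M (M + l), A x ≤ ε * l := by
  have h3 := sq_sum_le_card_mul_sum_sq (s := Ico M (M + l)) (f := A)
  rw [Nat.card_Ico, Nat.add_sub_cancel_left] at h3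
  set S := ∑ x ∈ Ico M (M + l), A x with hS
  have hS0 : 0 ≤ S := Finset.sum_nonneg fun x _ => hA x
  have hl : (0 : ℝ) ≤ l := Nat.cast_nonneg l
  have h4 : S ^ 2 ≤ l * B := h3.trans (mul_le_mul_of_nonneg_left h1 hl)
  have h5 : (S ^ 2) ^ 2 ≤ (l * B) ^ 2 := pow_le_pow_left₀ (by positivity) h4 2
  have h6 : (l * B) ^ 2 ≤ (l : ℝ) ^ 2 * (ε ^ 4 * (l : ℝ) ^ 2) := by
    rw [mul_pow]
    refine mul_le_mul_of_nonneg_left (h2.trans ?_) (by positivity)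
    exact mul_le_mul_of_nonneg_right hδ (by positivity)
  have h7 : S ^ 4 ≤ (ε * l) ^ 4 := by
    calc S ^ 4 = (S ^ 2) ^ 2 := by ring
      _ ≤ (l : ℝ) ^ 2 * (ε ^ 4 * (l : ℝ) ^ 2) := h5.trans h6
      _ = (ε * l) ^ 4 := by ring
  exact (pow_le_pow_iff_left₀ hS0 (by positivity) (by norm_num)).mp h7

private theorem ECaseA_col {θ : Pt → Pt → ℂ} (h : JCh θ) (T : Two) (hT : T.W = wv (bip θ))
    (b m s e : ℕ) : ‖QQ θ b m s e‖ ^ 2 ≤
      (∫ ω, T.r.z (Ico e (e + e)) (range e) ω ^ (m + s) ∂T.r.P).re := by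
  have h1 := col_ineq h T hT b m s (ι := Unit) (fun _ => e) (fun _ => 1)
  simp only [Finset.univ_unique, Finset.sum_singleton, one_mul] at h1
  have hdis : Disjoint (Finset.Ico e (e + e)) (Finset.range e) := by
    rw [Finset.disjoint_left]
    intro t ht ht'
    rw [Finset.mem_Ico] at ht
    rw [Finset.mem_range] at ht'
    omega
  have hW2 : T.W (m + s) 0 e e =
      ((∫ ω, ‖T.c.z ∅ (Finset.range (m + s)) ω ^ e‖ ^ 2 ∂T.c.P : ℝ) : ℂ) := by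
    have h := T.mom' ∅ (Finset.range (m + s)) (Finset.disjoint_empty_left _) e e
    rw [Finset.card_range, Finset.card_empty] at h
    rw [← h]
    have h2 : ∀ ω, T.c.z ∅ (Finset.range (m + s)) ω ^ e * T.c.z (Finset.range (m + s)) ∅ ω ^ e =
        ((‖T.c.z ∅ (Finset.range (m + s)) ω ^ e‖ ^ 2 : ℝ) : ℂ) := by
      intro ω
      rw [T.c.herm ∅ (Finset.range (m + s)) ω, ← map_pow, Complex.mul_conj,
        Complex.normSq_eq_norm_sq]
    simp_rw [h2]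
    rw [integral_complex_ofReal]
  have hW3 : T.W (m + s) 0 e e =
      ∫ ω, T.r.z (Finset.Ico e (e + e)) (Finset.range e) ω ^ (m + s) ∂T.r.P := by
    have h := T.mom (Finset.Ico e (e + e)) (Finset.range e) hdis (m + s) 0
    rw [Finset.card_range, Nat.card_Ico, Nat.add_sub_cancel_left] at h
    rw [← h]
    simp only [pow_zero, mul_one]
  rw [← hW3, hW2, Complex.ofReal_re]
  exact h1

private theorem ECaseA_q {θ : Pt → Pt → ℂ} (h : JCh θ) (b m s e : ℕ) : ‖QQ θ b m s e‖ ≤ 1 :=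
  th_le h _ _

/-- the probability of `z ^ q = 1` is small for large `e` -/
private theorem ECaseA_small (T : Two) (h0 : ∀ j, 1 ≤ j → T.t j = 0) (q : ℕ) (hq : 1 ≤ q) (δ : ℝ)
    (hδ : 0 < δ) : ∃ E : ℕ, ∀ e : ℕ, E ≤ e →
      T.r.P.real {ω | T.r.z (Ico e (e + e)) (range e) ω ^ q = 1} ≤ δ := by
  obtain ⟨E, hE⟩ := (Metric.tendsto_atTop.mp (case_one T h0 q hq)) δ hδ
  refine ⟨E, fun e he => ?_⟩
  have h1 := hE e he
  rw [Real.dist_eq, sub_zero, abs_of_nonneg measureReal_nonneg] at h1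
  refine le_trans (le_of_eq ?_) h1.le
  congr 1
  ext ω
  simp only [Set.mem_setOf_eq]
  constructor
  · intro h2
    refine ⟨?_, h2⟩
    have h3 : ‖T.r.z (Ico e (e + e)) (range e) ω‖ ^ q = 1 := by rw [← norm_pow, h2, norm_one]
    exact (pow_eq_one_iff_of_nonneg (norm_nonneg _) (by omega)).mp h3
  · exact fun h2 => h2.2

theorem s3_one {θ : Pt → Pt → ℂ} (h : JCh θ) (T : Two) (hT : T.W = wv (bip θ))
    (h0 : ∀ j, 1 ≤ j → T.t j = 0) (q : ℕ) (hq : 1 ≤ q) : S3 θ q := by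
  intro ε hε b m₀ s₀ M hb hm hs hbs
  refine dmean (fun x y => QQ θ b (m₀ + q * x) (s₀ + q * y) (s₀ + q * y - b))
    (fun x y => ECaseA_q h _ _ _ _) M ?_ ε hε
  intro ε hε
  obtain ⟨E, hE⟩ := ECaseA_small T h0 q hq (ε ^ 4 / 2) (by positivity)
  refine ⟨E, fun y hy => ?_⟩
  set s := s₀ + q * y with hsdef
  set e := s - b with hedef
  have hye : E ≤ e := by
    have : y ≤ q * y := Nat.le_mul_of_pos_left y hq
    omega
  set ρ := T.r.z (Ico e (e + e)) (range e) with hρ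
  obtain ⟨l₀, hl₀⟩ := pow_mean T.r.P ρ (T.r.meas _ _) (T.r.norm_le _ _) q hq (ε ^ 4 / 2)
    (by positivity)
  refine ⟨l₀, fun l hl => ?_⟩
  have h1 := hl₀ l hl (m₀ + s) M
  set g : T.r.Ω → ℂ := fun ω => ∑ x ∈ Ico M (M + l), ρ ω ^ (m₀ + s + q * x) with hg
  have hint : ∀ n : ℕ, Integrable (fun ω => ρ ω ^ n) T.r.P := fun n => by
    refine Integrable.of_bound ((T.r.meas _ _).pow_const n).aestronglyMeasurable 1 ?_
    filter_upwards with ω
    rw [norm_pow]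
    exact pow_le_one₀ (norm_nonneg _) (T.r.norm_le _ _ ω)
  have hgi : Integrable g T.r.P := integrable_finset_sum _ fun x _ => hint _
  have hgm : Measurable g := Finset.measurable_sum _ fun x _ => (T.r.meas _ _).pow_const _
  have hgb : ∀ ω, ‖g ω‖ ≤ l := fun ω => by
    rw [hg]
    exact (ECaseA_shift _ (T.r.norm_le _ _ ω) q (m₀ + s) M l).trans (ECaseA_gl _ (by
      rw [norm_pow]
      exact pow_le_one₀ (norm_nonneg _) (T.r.norm_le _ _ ω)) l)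
  have hg2 : Integrable (fun ω => ‖g ω‖ ^ 2) T.r.P := by
    refine Integrable.of_bound (hgm.norm.pow_const 2).aestronglyMeasurable ((l : ℝ) ^ 2) ?_
    filter_upwards with ω
    rw [Real.norm_eq_abs, abs_of_nonneg (by positivity)]
    exact pow_le_pow_left₀ (norm_nonneg _) (hgb ω) 2
  have h2 : ∑ x ∈ Ico M (M + l), ‖QQ θ b (m₀ + q * x) s e‖ ^ 2 ≤ ∫ ω, ‖g ω‖ ∂T.r.P := by
    calc ∑ x ∈ Ico M (M + l), ‖QQ θ b (m₀ + q * x) s e‖ ^ 2 ≤
        ∑ x ∈ Ico M (M + l), (∫ ω, ρ ω ^ (m₀ + s + q * x) ∂T.r.P).re := by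
          refine Finset.sum_le_sum fun x _ => ?_
          have h3 := ECaseA_col h T hT b (m₀ + q * x) s e
          rw [show m₀ + s + q * x = m₀ + q * x + s from by ring]
          exact h3
      _ = (∫ ω, g ω ∂T.r.P).re := by
          rw [hg, integral_finset_sum _ fun x _ => hint _, Complex.re_sum]
      _ ≤ ‖∫ ω, g ω ∂T.r.P‖ := Complex.re_le_norm _
      _ ≤ ∫ ω, ‖g ω‖ ∂T.r.P := norm_integral_le_integral_norm _
  set B := ∫ ω, ‖g ω‖ ∂T.r.P with hB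
  have hB0 : 0 ≤ B := integral_nonneg fun ω => norm_nonneg _
  have h3 : B ^ 2 ≤ ∫ ω, ‖g ω‖ ^ 2 ∂T.r.P := by
    have h3 : 0 ≤ ∫ ω, (‖g ω‖ - B) ^ 2 ∂T.r.P := integral_nonneg fun ω => sq_nonneg _
    have h4 : ∀ ω, (‖g ω‖ - B) ^ 2 = ‖g ω‖ ^ 2 - 2 * B * ‖g ω‖ + B ^ 2 := by
      intro ω
      ring
    have h6 : ∫ ω, (‖g ω‖ - B) ^ 2 ∂T.r.P = ∫ ω, (‖g ω‖ ^ 2 - 2 * B * ‖g ω‖) + B ^ 2 ∂T.r.P :=
      integral_congr_ae (Filter.Eventually.of_forall h4)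
    have h7 : Integrable (fun ω => ‖g ω‖ ^ 2 - 2 * B * ‖g ω‖) T.r.P :=
      hg2.sub (hgi.norm.const_mul (2 * B))
    rw [h6, integral_add h7 (integrable_const _),
      integral_sub hg2 (hgi.norm.const_mul (2 * B)), integral_const_mul, ← hB,
      integral_const] at h3
    simp only [probReal_univ, smul_eq_mul, one_mul] at h3
    nlinarith
  refine ECaseA_fin (fun x => ‖QQ θ b (m₀ + q * x) s e‖) (fun x => norm_nonneg _) M l B
    (T.r.P.real {ω | ρ ω ^ q = 1} + ε ^ 4 / 2) ε hε ?_ hB0 h2 (h3.trans h1)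
  have := hE e hye
  linarith

private theorem ECaseA_row {θ : Pt → Pt → ℂ} (h : JCh θ) (b m e s : ℕ) :
    ‖QQ θ b m s e‖ ^ 2 ≤ (VV θ b m e s).re := by
  obtain ⟨sp, C, h1, h2⟩ := row_ineq h b m e
  have h3 := h1 Unit (fun _ => s) (fun _ => 1)
  simp only [Finset.univ_unique, Finset.sum_singleton, one_mul] at h3
  rw [h2 s, Complex.ofReal_re]
  refine h3.trans (le_of_eq ?_)
  refine integral_congr_ae (Filter.Eventually.of_forall fun ω => ?_)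
  simp only [norm_pow]
  rw [mul_comm 2 s, pow_mul]

theorem s3_two {θ : Pt → Pt → ℂ} (h : JCh θ) (T : Two) (hT : T.W = wv (bip θ))
    (h0 : ∀ j, 1 ≤ j → T.swap.t j = 0) (q : ℕ) (hq : 1 ≤ q) : S3 θ q := by
  intro ε hε b m₀ s₀ M hb hm hs hbs
  refine dmean (fun x y => QQ θ b (m₀ + q * x) (s₀ + q * y) (s₀ + q * y - b))
    (fun x y => ECaseA_q h _ _ _ _) M ?_ ε hε
  intro ε hε
  obtain ⟨E, hE⟩ := ECaseA_small T.swap h0 q hq (ε ^ 4 / 2) (by positivity)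
  refine ⟨E, fun y hy => ?_⟩
  set s := s₀ + q * y with hsdef
  set e := s - b with hedef
  have hye : E ≤ s := by
    have : y ≤ q * y := Nat.le_mul_of_pos_left y hq
    omega
  set sg := T.c.z (range s) (Ico s (s + s)) with hsg
  obtain ⟨l₀, hl₀⟩ := pow_mean T.c.P sg (T.c.meas _ _) (T.c.norm_le _ _) q hq (ε ^ 4 / 2)
    (by positivity)
  refine ⟨l₀, fun l hl => ?_⟩
  have h1 := hl₀ l hl m₀ M
  have h2 := sec_ineq h T hT b e s (ι := {x // x ∈ Ico M (M + l)}) (fun x => m₀ + q * x.1)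
    (fun _ => 1)
  simp only [one_mul] at h2
  rw [Finset.sum_coe_sort (Ico M (M + l)) (fun x => VV θ b (m₀ + q * x) e s)] at h2
  have h3 : ∫ ω, ‖∑ x : {x // x ∈ Ico M (M + l)},
      T.c.z (range s) (Ico s (s + s)) ω ^ (m₀ + q * x.1)‖ ^ 2 ∂T.c.P =
      ∫ ω, ‖∑ x ∈ Ico M (M + l), sg ω ^ (m₀ + q * x)‖ ^ 2 ∂T.c.P := by
    refine integral_congr_ae (Filter.Eventually.of_forall fun ω => ?_)
    simp only
    rw [Finset.sum_coe_sort (Ico M (M + l)) (fun x => sg ω ^ (m₀ + q * x))]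
  rw [h3] at h2
  refine ECaseA_fin (fun x => ‖QQ θ b (m₀ + q * x) s e‖) (fun x => norm_nonneg _) M l
    ‖∑ x ∈ Ico M (M + l), VV θ b (m₀ + q * x) e s‖
    (T.c.P.real {ω | sg ω ^ q = 1} + ε ^ 4 / 2) ε hε ?_ (norm_nonneg _) ?_ (h2.trans h1)
  · have h5 : {ω : T.c.Ω | T.c.z (Ico s (s + s)) (range s) ω ^ q = 1} = {ω | sg ω ^ q = 1} := by
      ext ω
      simp only [Set.mem_setOf_eq]
      rw [T.c.herm (range s) (Ico s (s + s)) ω, ← map_pow]
      constructor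
      · intro h7
        have := congrArg (starRingEnd ℂ) h7
        simpa using this
      · intro h7
        rw [h7, map_one]
    have h4 : T.c.P.real {ω : T.c.Ω | T.c.z (Ico s (s + s)) (range s) ω ^ q = 1} ≤ ε ^ 4 / 2 :=
      hE s hye
    rw [h5] at h4
    linarith
  · calc ∑ x ∈ Ico M (M + l), ‖QQ θ b (m₀ + q * x) s e‖ ^ 2 ≤
        ∑ x ∈ Ico M (M + l), (VV θ b (m₀ + q * x) e s).re :=
          Finset.sum_le_sum fun x _ => ECaseA_row h b (m₀ + q * x) e s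
      _ = (∑ x ∈ Ico M (M + l), VV θ b (m₀ + q * x) e s).re := by rw [Complex.re_sum]
      _ ≤ _ := Complex.re_le_norm _

end Pool.Agent.Lib.MP_90b327_co.EX
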