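import Mathlib
import Pool.Agent.Lib.MP_90b327_co.EX.EDefs
import Pool.Agent.Lib.MP_90b327_co.EX.ECol

/-!
MODULE ECaseB. Text section 6, case 3 and the proposition.

PROOFS. `z = T.c.z ∅ (range (a g))`.
`near_far`: `m + s = a g`, `a ∣ e`, `a ∣ e'`: `z^e = ζ^(g e/a)` a.s. on `‖z‖ = 1`; with `κ = ζ^(g (e - e')/a)` (integer power) `z^e - κ z^e' = 0`
a.s. on `‖z‖ = 1`, and `‖z^e - κ z^e'‖^2 ≤ 4 ‖z‖^(2 min e e')` elsewhere; `col_ineq` with `ι = Bool` or `Fin 2`, `lam = (1, -κ)`.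
`s4_three` (3A): `ζ^r = 1`, `q` divisible by `a r`: `κ = 1` in `near_far`.
Case 3B and the proposition are in ECaseC and EProp.
-/

set_option autoImplicit false

namespace Pool.Agent.Lib.MP_90b327_co.EX

open Finset MeasureTheory Pool.Agent.Lib.MP_90b327_co Pool.Agent.Lib.MP_90b327_co.RB

/-- the data of case 3 -/
structure Ph (T : Two) (a : ℕ) (ζ : ℂ) : Prop where
  ha : 1 ≤ a
  hζ : ‖ζ‖ = 1
  ph : ∀ g : ℕ, 1 ≤ g → ∀ᵐ ω ∂T.c.P, ‖T.c.z ∅ (range (a * g)) ω‖ = 1 →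
    T.c.z ∅ (range (a * g)) ω ^ a = ζ ^ g
  sm : ∀ ε : ℝ, 0 < ε → ∃ M : ℕ, ∀ g e : ℕ, M ≤ a * g → M ≤ e →
    ∫ ω, (if ‖T.c.z ∅ (range (a * g)) ω‖ = 1 then 0 else
      ‖T.c.z ∅ (range (a * g)) ω‖ ^ (2 * e)) ∂T.c.P ≤ ε

private theorem z_one {T : Two} {a : ℕ} {ζ : ℂ} (hp : Ph T a ζ) {g : ℕ} (hg : 1 ≤ g) (k k' : ℕ) :
    ∀ᵐ ω ∂T.c.P, ‖T.c.z ∅ (range (a * g)) ω ^ (a * k) -
      ζ ^ ((g : ℤ) * ((k : ℤ) - (k' : ℤ))) * T.c.z ∅ (range (a * g)) ω ^ (a * k')‖ ^ 2 ≤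
      4 * (if ‖T.c.z ∅ (range (a * g)) ω‖ = 1 then 0 else
        ‖T.c.z ∅ (range (a * g)) ω‖ ^ (2 * min (a * k) (a * k'))) := by
  have hz0 : ζ ≠ 0 := by
    intro h0
    have := hp.hζ
    rw [h0, norm_zero] at this
    exact zero_ne_one this
  have hzn : ∀ n : ℤ, ‖ζ ^ n‖ = 1 := fun n => by rw [norm_zpow, hp.hζ, one_zpow]
  filter_upwards [hp.ph g hg] with ω hω
  set z := T.c.z ∅ (range (a * g)) ω with hz
  have hz1 : ‖z‖ ≤ 1 := T.c.norm_le _ _ _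
  split_ifs with h1
  · have h2 := hω h1
    have h3 : z ^ (a * k) = ζ ^ ((g : ℤ) * (k : ℤ)) := by
      rw [pow_mul, h2, ← pow_mul, ← zpow_natCast]
      push_cast
      rfl
    have h4 : z ^ (a * k') = ζ ^ ((g : ℤ) * (k' : ℤ)) := by
      rw [pow_mul, h2, ← pow_mul, ← zpow_natCast]
      push_cast
      rfl
    rw [h3, h4, ← zpow_add₀ hz0, show (g : ℤ) * ((k : ℤ) - k') + (g : ℤ) * k' = (g : ℤ) * k by ring,
      sub_self, norm_zero]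
    simp
  · have h3 : ‖z ^ (a * k)‖ ≤ ‖z‖ ^ min (a * k) (a * k') := by
      rw [norm_pow]
      exact pow_le_pow_of_le_one (norm_nonneg _) hz1 (min_le_left _ _)
    have h4 : ‖ζ ^ ((g : ℤ) * ((k : ℤ) - (k' : ℤ))) * z ^ (a * k')‖ ≤
        ‖z‖ ^ min (a * k) (a * k') := by
      rw [norm_mul, hzn, one_mul, norm_pow]
      exact pow_le_pow_of_le_one (norm_nonneg _) hz1 (min_le_right _ _)
    have h5 := norm_sub_le (z ^ (a * k)) (ζ ^ ((g : ℤ) * ((k : ℤ) - (k' : ℤ))) * z ^ (a * k'))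
    have h6 : ‖z ^ (a * k) - ζ ^ ((g : ℤ) * ((k : ℤ) - (k' : ℤ))) * z ^ (a * k')‖ ≤
        2 * ‖z‖ ^ min (a * k) (a * k') := by linarith
    calc ‖z ^ (a * k) - ζ ^ ((g : ℤ) * ((k : ℤ) - (k' : ℤ))) * z ^ (a * k')‖ ^ 2
        ≤ (2 * ‖z‖ ^ min (a * k) (a * k')) ^ 2 := pow_le_pow_left₀ (norm_nonneg _) h6 2
      _ = 4 * ‖z‖ ^ (2 * min (a * k) (a * k')) := by
          rw [mul_pow, ← pow_mul, Nat.mul_comm (min (a * k) (a * k')) 2]
          norm_num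

theorem near_far {θ : Pt → Pt → ℂ} (h : JCh θ) (T : Two) (hT : T.W = wv (bip θ)) (a : ℕ) (ζ : ℂ)
    (hp : Ph T a ζ) (ε : ℝ) (hε : 0 < ε) : ∃ M : ℕ, ∀ b m s g k k' : ℕ, m + s = a * g → M ≤ m + s →
      M ≤ a * k → M ≤ a * k' →
      ‖QQ θ b m s (a * k) - ζ ^ ((g : ℤ) * ((k : ℤ) - (k' : ℤ))) * QQ θ b m s (a * k')‖ ≤ ε := by
  obtain ⟨M, hM⟩ := hp.sm (ε ^ 2 / 4) (by positivity)
  refine ⟨M + 1, fun b m s g k k' hg hms hk hk' => ?_⟩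
  have hg1 : 1 ≤ g := by
    rcases Nat.eq_zero_or_pos g with h0 | h0
    · rw [h0, mul_zero] at hg
      omega
    · exact h0
  set κ : ℂ := ζ ^ ((g : ℤ) * ((k : ℤ) - (k' : ℤ))) with hκ
  have h1 := col_ineq h T hT b m s (ι := Fin 2) ![a * k, a * k'] ![1, -κ]
  simp only [Fin.sum_univ_two, Matrix.cons_val_zero, Matrix.cons_val_one, one_mul, neg_mul,
    ← sub_eq_add_neg] at h1
  rw [hg] at h1
  have hmz : Measurable (T.c.z ∅ (range (a * g))) := T.c.meas _ _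
  have hnz : ∀ ω, ‖T.c.z ∅ (range (a * g)) ω‖ ≤ 1 := fun ω => T.c.norm_le _ _ _
  have i1 : Integrable (fun ω => (if ‖T.c.z ∅ (range (a * g)) ω‖ = 1 then 0 else
        ‖T.c.z ∅ (range (a * g)) ω‖ ^ (2 * min (a * k) (a * k')))) T.c.P := by
    refine Integrable.of_bound (C := 1) (Measurable.aestronglyMeasurable ?_) (ae_of_all _ fun ω => ?_)
    · exact Measurable.ite (measurableSet_eq_fun hmz.norm measurable_const) measurable_const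
        (hmz.norm.pow_const _)
    · split_ifs
      · simp
      · rw [Real.norm_of_nonneg (by positivity)]
        exact pow_le_one₀ (norm_nonneg _) (hnz ω)
  have i2 : Integrable (fun ω => ‖T.c.z ∅ (range (a * g)) ω ^ (a * k) -
      κ * T.c.z ∅ (range (a * g)) ω ^ (a * k')‖ ^ 2) T.c.P := by
    refine Integrable.mono' (i1.const_mul 4) (Measurable.aestronglyMeasurable ?_) ?_
    · exact (((hmz.pow_const _).sub ((hmz.pow_const _).const_mul κ)).norm).pow_const 2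
    · filter_upwards [z_one hp hg1 k k'] with ω hω
      rw [Real.norm_of_nonneg (by positivity)]
      exact hω
  have h2 : ∫ ω, ‖T.c.z ∅ (range (a * g)) ω ^ (a * k) -
      κ * T.c.z ∅ (range (a * g)) ω ^ (a * k')‖ ^ 2 ∂T.c.P ≤ 4 * (ε ^ 2 / 4) := by
    refine (integral_mono_ae i2 (i1.const_mul 4) (z_one hp hg1 k k')).trans ?_
    rw [integral_const_mul]
    exact mul_le_mul_of_nonneg_left (hM g (min (a * k) (a * k')) (by omega)
      (by rw [le_min_iff]; exact ⟨by omega, by omega⟩)) (by norm_num)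
  have h3 : ‖QQ θ b m s (a * k) - κ * QQ θ b m s (a * k')‖ ^ 2 ≤ ε ^ 2 := by
    refine (h1.trans h2).trans (le_of_eq ?_)
    ring
  exact (pow_le_pow_iff_left₀ (norm_nonneg _) hε.le two_ne_zero).1 h3

theorem s4_three {θ : Pt → Pt → ℂ} (h : JCh θ) (T : Two) (hT : T.W = wv (bip θ)) (a : ℕ) (ζ : ℂ)
    (hp : Ph T a ζ) (r : ℕ) (_hr : 1 ≤ r) (hζ : ζ ^ r = 1) (q : ℕ) (_hq : 1 ≤ q) (hd : a * r ∣ q) :
    S4 θ q := by
  intro ε hε
  obtain ⟨M, hM⟩ := near_far h T hT a ζ hp ε hε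
  refine ⟨M, fun b m s e e' hb hm hs he he' hms hMe hMe' => ?_⟩
  obtain ⟨g, hg⟩ : a * r ∣ m + s := dvd_add (hd.trans hm) (hd.trans hs)
  have haq : a ∣ q := (dvd_mul_right a r).trans hd
  obtain ⟨k, rfl⟩ := haq.trans he
  obtain ⟨k', rfl⟩ := haq.trans he'
  have h1 := hM b m s (r * g) k k' (by rw [hg, mul_assoc]) hms hMe hMe'
  have h2 : ζ ^ (((r * g : ℕ) : ℤ) * ((k : ℤ) - (k' : ℤ))) = 1 := by
    rw [Nat.cast_mul, mul_assoc, zpow_mul, zpow_natCast, hζ, one_zpow]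
  rw [h2, one_mul] at h1
  exact h1

end Pool.Agent.Lib.MP_90b327_co.EX
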