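import Mathlib

/-!
MODULE EW2 (owner helper18). Text section 6, LEMMA W2 (Weyl, uniform in the linear term and in a damping factor).

PROOF. `x_y = ζ^(u y^2 + β y) η^y`, `|x_y| ≤ 1`. van der Corput: `|mean|^2 ≤ 1/H + (2/H) ∑_(0<h<H) |(1/K) ∑_y x_(y+h) conj x_y| +
2 H/K`, and `x_(y+h) conj x_y = const * ζ^(2 u h y) |η|^(2y)`, `|const| ≤ 1`: a geometric sum with ratio `R = ζ^(2uh) |η|^2`,
`|sum| ≤ 2/|1-R|`, `|1-R| ≥ |1 - ζ^(2uh)|/2 > 0` (`|1-w| ≤ |1-tw| + (1-t) ≤ 2|1-tw|` for `0 ≤ t ≤ 1`, `|w| = 1`).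
-/

set_option autoImplicit false

namespace Pool.Agent.Lib.MP_90b327_co.EX

open Finset

private theorem wd_shift (u : ℕ → ℂ) (hu : ∀ n, ‖u n‖ ≤ 1) (R : ℕ) :
    ∀ h : ℕ, ‖∑ n ∈ Finset.range R, u n - ∑ n ∈ Finset.range R, u (n + h)‖ ≤ 2 * h := by
  intro h
  induction h with
  | zero => simp
  | succ h ih =>
    have h1 : ∑ n ∈ Finset.range R, u (n + (h + 1)) =
        ∑ n ∈ Finset.range R, u (n + h) + u (R + h) - u h := by
      have h2 := Finset.sum_range_succ (fun n => u (n + h)) R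
      have h3 := Finset.sum_range_succ' (fun n => u (n + h)) R
      rw [h2] at h3
      rw [h3]
      simp only [Nat.zero_add]
      rw [add_sub_cancel_right]
      apply Finset.sum_congr rfl
      intro n _
      congr 1
      omega
    rw [h1]
    have h4 : ∑ n ∈ Finset.range R, u n - (∑ n ∈ Finset.range R, u (n + h) + u (R + h) - u h) =
        (∑ n ∈ Finset.range R, u n - ∑ n ∈ Finset.range R, u (n + h)) + (u h - u (R + h)) := by ring
    rw [h4]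
    have h5 : ‖u h - u (R + h)‖ ≤ 2 := by
      have := norm_sub_le (u h) (u (R + h))
      have h1 := hu h
      have h2 := hu (R + h)
      linarith
    have h6 := norm_add_le (∑ n ∈ Finset.range R, u n - ∑ n ∈ Finset.range R, u (n + h))
      (u h - u (R + h))
    push_cast
    linarith

private theorem wd_sq (u : ℕ → ℂ) (H R : ℕ) :
    ∑ n ∈ Finset.range R, ‖∑ h ∈ Finset.range H, u (n + h)‖ ^ 2 ≤
      ∑ h ∈ Finset.range H, ∑ h' ∈ Finset.range H,
        ‖∑ n ∈ Finset.range R, u (n + h) * (starRingEnd ℂ) (u (n + h'))‖ := by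
  have h1 : ∀ n, ‖∑ h ∈ Finset.range H, u (n + h)‖ ^ 2 =
      (∑ h ∈ Finset.range H, ∑ h' ∈ Finset.range H,
        u (n + h) * (starRingEnd ℂ) (u (n + h'))).re := by
    intro n
    rw [← Finset.sum_mul_sum, ← map_sum, Complex.mul_conj, Complex.ofReal_re, Complex.normSq_eq_norm_sq]
  have h2 : ∑ n ∈ Finset.range R, ‖∑ h ∈ Finset.range H, u (n + h)‖ ^ 2 =
      (∑ h ∈ Finset.range H, ∑ h' ∈ Finset.range H,
        ∑ n ∈ Finset.range R, u (n + h) * (starRingEnd ℂ) (u (n + h'))).re := by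
    rw [Finset.sum_congr rfl fun n _ => h1 n, ← Complex.re_sum, Finset.sum_comm]
    congr 1
    apply Finset.sum_congr rfl
    intro h _
    exact Finset.sum_comm
  rw [h2]
  refine (Complex.re_le_norm _).trans ((norm_sum_le _ _).trans ?_)
  apply Finset.sum_le_sum
  intro h _
  exact norm_sum_le _ _

/-- van der Corput inequality -/
private theorem wd_vdc (u : ℕ → ℂ) (hu : ∀ n, ‖u n‖ ≤ 1) (H R : ℕ) (hH : 1 ≤ H) (hR : 1 ≤ R)
    (e : ℝ) (he : ∀ h ∈ Finset.range H, ∀ h' ∈ Finset.range H, h ≠ h' →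
      ‖(∑ n ∈ Finset.range R, u (n + h) * (starRingEnd ℂ) (u (n + h'))) / R‖ ≤ e) (he0 : 0 ≤ e) :
    ‖(∑ n ∈ Finset.range R, u n) / R‖ ≤ 2 * H / R + √(1 / H + e) := by
  have hH' : (0 : ℝ) < H := by exact_mod_cast hH
  have hR' : (0 : ℝ) < R := by exact_mod_cast hR
  set A : ℕ → ℂ := fun n => ∑ h ∈ Finset.range H, u (n + h) with hA
  -- the squares
  have h1 : ∑ n ∈ Finset.range R, ‖A n‖ ^ 2 ≤ R * (H + H ^ 2 * e) := by
    refine (wd_sq u H R).trans ?_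
    have h2 : ∀ h ∈ Finset.range H, ∀ h' ∈ Finset.range H,
        ‖∑ n ∈ Finset.range R, u (n + h) * (starRingEnd ℂ) (u (n + h'))‖ ≤
          R * ((if h = h' then 1 else 0) + e) := by
      intro h hh h' hh'
      by_cases hc : h = h'
      · subst hc
        rw [if_pos rfl]
        refine (norm_sum_le _ _).trans ?_
        have h3 : ∀ n ∈ Finset.range R, ‖u (n + h) * (starRingEnd ℂ) (u (n + h))‖ ≤ 1 := by
          intro n _
          rw [norm_mul, RCLike.norm_conj]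
          have := hu (n + h)
          nlinarith [norm_nonneg (u (n + h))]
        refine (Finset.sum_le_sum h3).trans ?_
        rw [Finset.sum_const, Finset.card_range, nsmul_eq_mul, mul_one]
        nlinarith
      · rw [if_neg hc, zero_add]
        have h4 := he h hh h' hh' hc
        rw [norm_div, Complex.norm_natCast, div_le_iff₀ hR'] at h4
        linarith
    refine (Finset.sum_le_sum fun h hh => Finset.sum_le_sum fun h' hh' => h2 h hh h' hh').trans ?_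
    have h5 : ∀ h ∈ Finset.range H, ∑ h' ∈ Finset.range H,
        (R : ℝ) * ((if h = h' then 1 else 0) + e) = R * (1 + H * e) := by
      intro h hh
      rw [← Finset.mul_sum, Finset.sum_add_distrib, Finset.sum_ite_eq, if_pos hh, Finset.sum_const,
        Finset.card_range, nsmul_eq_mul]
    rw [Finset.sum_congr rfl h5, Finset.sum_const, Finset.card_range, nsmul_eq_mul]
    exact le_of_eq (by ring)
  -- Cauchy-Schwarz
  have h2 : ‖∑ n ∈ Finset.range R, A n‖ ^ 2 ≤ (R * H) ^ 2 * (1 / H + e) := by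
    have h3 : ‖∑ n ∈ Finset.range R, A n‖ ≤ ∑ n ∈ Finset.range R, ‖A n‖ := norm_sum_le _ _
    have h4 := sq_sum_le_card_mul_sum_sq (s := Finset.range R) (f := fun n => ‖A n‖)
    rw [Finset.card_range] at h4
    have h5 : ‖∑ n ∈ Finset.range R, A n‖ ^ 2 ≤ (∑ n ∈ Finset.range R, ‖A n‖) ^ 2 :=
      pow_le_pow_left₀ (norm_nonneg _) h3 2
    have h6 : (R : ℝ) * ∑ n ∈ Finset.range R, ‖A n‖ ^ 2 ≤ R * (R * (H + H ^ 2 * e)) :=
      mul_le_mul_of_nonneg_left h1 hR'.le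
    have h7 : (R : ℝ) * (R * (H + H ^ 2 * e)) = (R * H) ^ 2 * (1 / H + e) := by
      field_simp
    linarith
  have h3 : ‖∑ n ∈ Finset.range R, A n‖ ≤ R * H * √(1 / H + e) := by
    have h4 : √(‖∑ n ∈ Finset.range R, A n‖ ^ 2) ≤ √((R * H) ^ 2 * (1 / H + e)) :=
      Real.sqrt_le_sqrt h2
    rw [Real.sqrt_sq (norm_nonneg _), Real.sqrt_mul (by positivity), Real.sqrt_sq (by positivity)] at h4
    exact h4
  -- the shifts
  have h4 : ‖(H : ℂ) * ∑ n ∈ Finset.range R, u n - ∑ n ∈ Finset.range R, A n‖ ≤ 2 * H ^ 2 := by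
    have h5 : (H : ℂ) * ∑ n ∈ Finset.range R, u n - ∑ n ∈ Finset.range R, A n =
        ∑ h ∈ Finset.range H, (∑ n ∈ Finset.range R, u n - ∑ n ∈ Finset.range R, u (n + h)) := by
      rw [Finset.sum_sub_distrib, Finset.sum_const, Finset.card_range, nsmul_eq_mul, hA]
      simp only []
      rw [Finset.sum_comm]
    rw [h5]
    refine (norm_sum_le _ _).trans ?_
    have h6 : ∀ h ∈ Finset.range H, ‖∑ n ∈ Finset.range R, u n -
        ∑ n ∈ Finset.range R, u (n + h)‖ ≤ 2 * H := by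
      intro h hh
      have h7 := wd_shift u hu R h
      have h8 : (h : ℝ) ≤ H := by exact_mod_cast (Finset.mem_range.1 hh).le
      linarith
    refine (Finset.sum_le_sum h6).trans ?_
    rw [Finset.sum_const, Finset.card_range, nsmul_eq_mul]
    exact le_of_eq (by ring)
  have h5 : (H : ℝ) * ‖∑ n ∈ Finset.range R, u n‖ ≤ 2 * H ^ 2 + R * H * √(1 / H + e) := by
    have h6 : ‖(H : ℂ) * ∑ n ∈ Finset.range R, u n‖ = H * ‖∑ n ∈ Finset.range R, u n‖ := by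
      rw [norm_mul, Complex.norm_natCast]
    have h7 := norm_sub_norm_le ((H : ℂ) * ∑ n ∈ Finset.range R, u n) (∑ n ∈ Finset.range R, A n)
    rw [h6] at h7
    linarith
  rw [norm_div, Complex.norm_natCast, div_le_iff₀ hR']
  have h6 : (2 * (H : ℝ) / R + √(1 / H + e)) * R = 2 * H + R * √(1 / H + e) := by
    field_simp
  rw [h6]
  refine le_of_mul_le_mul_left ?_ hH'
  calc (H : ℝ) * ‖∑ n ∈ Finset.range R, u n‖ ≤ 2 * H ^ 2 + R * H * √(1 / H + e) := h5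
    _ = H * (2 * H + R * √(1 / H + e)) := by ring

private theorem wd_far (w : ℂ) (hw : ‖w‖ = 1) (t : ℝ) (h0 : 0 ≤ t) (h1 : t ≤ 1) :
    ‖w - 1‖ ≤ 2 * ‖w * (t : ℂ) - 1‖ := by
  have h2 : ‖w * (t : ℂ)‖ = t := by
    rw [norm_mul, hw, one_mul, Complex.norm_real, Real.norm_eq_abs, abs_of_nonneg h0]
  have h3 : 1 - t ≤ ‖w * (t : ℂ) - 1‖ := by
    have := norm_sub_norm_le (1 : ℂ) (w * (t : ℂ))
    rw [norm_one, h2, norm_sub_rev] at this
    exact this
  have h4 : ‖w - w * (t : ℂ)‖ = 1 - t := by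
    have : w - w * (t : ℂ) = w * ((1 - t : ℝ) : ℂ) := by push_cast; ring
    rw [this, norm_mul, hw, one_mul, Complex.norm_real, Real.norm_eq_abs,
      abs_of_nonneg (by linarith)]
  have h5 : ‖w - 1‖ ≤ ‖w - w * (t : ℂ)‖ + ‖w * (t : ℂ) - 1‖ := by
    have := norm_add_le (w - w * (t : ℂ)) (w * (t : ℂ) - 1)
    rwa [sub_add_sub_cancel] at this
  linarith

theorem weyl_damped (ζ : ℂ) (hζ : ‖ζ‖ = 1) (hr : ∀ r : ℕ, 1 ≤ r → ζ ^ r ≠ 1) (u : ℕ) (hu : 1 ≤ u)
    (ε : ℝ) (hε : 0 < ε) : ∃ K₀ : ℕ, ∀ K : ℕ, K₀ ≤ K → ∀ (β : ℤ) (η : ℂ), ‖η‖ ≤ 1 → ∀ M : ℕ,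
      ‖∑ y ∈ Ico M (M + K), ζ ^ ((u : ℤ) * (y : ℤ) ^ 2 + β * (y : ℤ)) * η ^ y‖ ≤ ε * K := by
  have hz0 : ζ ≠ 0 := by
    rintro rfl
    rw [norm_zero] at hζ
    exact zero_ne_one hζ
  have hnz : ∀ m : ℤ, ‖ζ ^ m‖ = 1 := fun m => by rw [norm_zpow, hζ, one_zpow]
  have hne : ∀ m : ℤ, m ≠ 0 → ζ ^ m ≠ 1 := by
    intro m hm
    rcases Int.natAbs_eq m with h | h
    · rw [h, zpow_natCast]
      exact hr _ (Int.natAbs_pos.2 hm)
    · rw [h, zpow_neg, zpow_natCast]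
      intro h2
      exact hr _ (Int.natAbs_pos.2 hm) (inv_eq_one.1 h2)
  obtain ⟨H, hH⟩ := exists_nat_gt (8 / ε ^ 2)
  have hH0 : (0 : ℝ) < H := lt_trans (by positivity) hH
  have hH1 : 1 ≤ H := by exact_mod_cast hH0
  set B : ℕ → ℕ → ℝ := fun h h' => 4 / ‖ζ ^ (2 * (u : ℤ) * ((h : ℤ) - h')) - 1‖ with hB
  have hB0 : ∀ h h', 0 ≤ B h h' := fun h h' => by positivity
  obtain ⟨K₁, hK₁⟩ := exists_nat_gt ((∑ h ∈ range H, ∑ h' ∈ range H, B h h') / (ε ^ 2 / 8))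
  obtain ⟨K₂, hK₂⟩ := exists_nat_gt (4 * (H : ℝ) / ε)
  refine ⟨K₁ + K₂ + 1, fun K hK β η hη M => ?_⟩
  have hK1 : 1 ≤ K := by omega
  have hK0 : (0 : ℝ) < K := by exact_mod_cast hK1
  have hKK₁ : (K₁ : ℝ) ≤ K := by exact_mod_cast (by omega : K₁ ≤ K)
  have hKK₂ : (K₂ : ℝ) ≤ K := by exact_mod_cast (by omega : K₂ ≤ K)
  set x : ℕ → ℂ := fun n =>
    ζ ^ ((u : ℤ) * ((n + M : ℕ) : ℤ) ^ 2 + β * ((n + M : ℕ) : ℤ)) * η ^ (n + M) with hx
  have hx1 : ∀ n, ‖x n‖ ≤ 1 := by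
    intro n
    simp only [hx]
    rw [norm_mul, hnz, one_mul, norm_pow]
    exact pow_le_one₀ (norm_nonneg _) hη
  have hsum : ∑ y ∈ Ico M (M + K), ζ ^ ((u : ℤ) * (y : ℤ) ^ 2 + β * (y : ℤ)) * η ^ y =
      ∑ n ∈ range K, x n := by
    rw [Finset.sum_Ico_eq_sum_range]
    rw [Nat.add_sub_cancel_left]
    refine Finset.sum_congr rfl fun n _ => ?_
    simp only [hx]
    rw [Nat.add_comm M n]
  rw [hsum]
  have hpair : ∀ h ∈ range H, ∀ h' ∈ range H, h ≠ h' →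
      ‖(∑ n ∈ range K, x (n + h) * (starRingEnd ℂ) (x (n + h'))) / K‖ ≤ ε ^ 2 / 8 := by
    intro h hh h' hh' hne'
    set t : ℝ := ‖η‖ ^ 2 with ht
    have ht0 : 0 ≤ t := by positivity
    have ht1 : t ≤ 1 := pow_le_one₀ (norm_nonneg _) hη
    have htc : η * (starRingEnd ℂ) η = (t : ℂ) := by
      rw [Complex.mul_conj, Complex.normSq_eq_norm_sq]
    set W : ℂ := ζ ^ (2 * (u : ℤ) * ((h : ℤ) - h')) with hW
    have hW1 : ‖W‖ = 1 := hnz _
    have hWne : W ≠ 1 := hne _ (by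
      refine mul_ne_zero (mul_ne_zero two_ne_zero (by exact_mod_cast (by omega : u ≠ 0))) ?_
      intro h0
      exact hne' (by omega))
    set c : ℂ := ζ ^ ((u : ℤ) * ((h : ℤ) ^ 2 - (h' : ℤ) ^ 2) + β * ((h : ℤ) - h')) *
      (η ^ h * (starRingEnd ℂ) η ^ h') with hc
    have hc1 : ‖c‖ ≤ 1 := by
      rw [hc, norm_mul, hnz, one_mul, norm_mul, norm_pow, norm_pow, RCLike.norm_conj]
      exact mul_le_one₀ (pow_le_one₀ (norm_nonneg _) hη) (by positivity)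
        (pow_le_one₀ (norm_nonneg _) hη)
    have hterm : ∀ n, x (n + h) * (starRingEnd ℂ) (x (n + h')) =
        c * (W * (t : ℂ)) ^ M * (W * (t : ℂ)) ^ n := by
      intro n
      have hconj : ∀ m : ℤ, (starRingEnd ℂ) (ζ ^ m) = ζ ^ (-m) := by
        intro m
        rw [map_zpow₀, ← Complex.inv_eq_conj hζ, inv_zpow']
      simp only [hx]
      rw [map_mul, hconj, map_pow]
      have e1 : (η : ℂ) ^ (n + h + M) * (starRingEnd ℂ) η ^ (n + h' + M) =
          (t : ℂ) ^ (n + M) * (η ^ h * (starRingEnd ℂ) η ^ h') := by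
        rw [← htc, mul_pow]
        ring
      have e2 : ζ ^ ((u : ℤ) * ((n + h + M : ℕ) : ℤ) ^ 2 + β * ((n + h + M : ℕ) : ℤ)) *
          ζ ^ (-((u : ℤ) * ((n + h' + M : ℕ) : ℤ) ^ 2 + β * ((n + h' + M : ℕ) : ℤ))) =
          ζ ^ ((u : ℤ) * ((h : ℤ) ^ 2 - (h' : ℤ) ^ 2) + β * ((h : ℤ) - h')) * W ^ (n + M) := by
        rw [hW, ← zpow_natCast, ← zpow_mul, ← zpow_add₀ hz0, ← zpow_add₀ hz0]
        congr 1
        push_cast
        ring
      calc _ = (ζ ^ ((u : ℤ) * ((n + h + M : ℕ) : ℤ) ^ 2 + β * ((n + h + M : ℕ) : ℤ)) *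
            ζ ^ (-((u : ℤ) * ((n + h' + M : ℕ) : ℤ) ^ 2 + β * ((n + h' + M : ℕ) : ℤ)))) *
            ((η : ℂ) ^ (n + h + M) * (starRingEnd ℂ) η ^ (n + h' + M)) := by ring
        _ = _ := by
            rw [e1, e2, hc, ← mul_assoc (c := _), mul_pow, mul_pow]
            ring
    have hgeo : ‖∑ n ∈ range K, (W * (t : ℂ)) ^ n‖ ≤ B h h' := by
      have hne1 : W * (t : ℂ) ≠ 1 := by
        intro h1
        have := wd_far W hW1 t ht0 ht1
        rw [h1, sub_self, norm_zero, mul_zero] at this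
        exact hWne (sub_eq_zero.1 (norm_le_zero_iff.1 this))
      rw [geom_sum_eq hne1, norm_div]
      have h1 : ‖(W * (t : ℂ)) ^ K - 1‖ ≤ 2 := by
        have h2 := norm_sub_le ((W * (t : ℂ)) ^ K) 1
        have h3 : ‖(W * (t : ℂ)) ^ K‖ ≤ 1 := by
          rw [norm_pow, norm_mul, hW1, one_mul, Complex.norm_real, Real.norm_eq_abs,
            abs_of_nonneg ht0]
          exact pow_le_one₀ ht0 ht1
        rw [norm_one] at h2
        linarith
      have h2 := wd_far W hW1 t ht0 ht1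
      have h3 : 0 < ‖W - 1‖ := norm_pos_iff.2 (sub_ne_zero.2 hWne)
      have h4 : 0 < ‖W * (t : ℂ) - 1‖ := norm_pos_iff.2 (sub_ne_zero.2 hne1)
      simp only [hB]
      rw [div_le_div_iff₀ h4 h3]
      nlinarith
    have hrw : ∑ n ∈ range K, x (n + h) * (starRingEnd ℂ) (x (n + h')) =
        c * (W * (t : ℂ)) ^ M * ∑ n ∈ range K, (W * (t : ℂ)) ^ n := by
      rw [Finset.mul_sum]
      exact Finset.sum_congr rfl fun n _ => hterm n
    rw [hrw, norm_div, Complex.norm_natCast, div_le_iff₀ hK0, norm_mul]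
    have hWt : ‖W * (t : ℂ)‖ ≤ 1 := by
      rw [norm_mul, hW1, one_mul, Complex.norm_real, Real.norm_eq_abs, abs_of_nonneg ht0]
      exact ht1
    have h1 : ‖c * (W * (t : ℂ)) ^ M‖ ≤ 1 := by
      rw [norm_mul c, norm_pow]
      exact mul_le_one₀ hc1 (by positivity) (pow_le_one₀ (norm_nonneg _) hWt)
    have h2 : B h h' ≤ ∑ h ∈ range H, ∑ h' ∈ range H, B h h' :=
      (Finset.single_le_sum (f := fun k => B h k) (fun _ _ => hB0 _ _) hh').trans
        (Finset.single_le_sum (f := fun k => ∑ k' ∈ range H, B k k')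
          (fun _ _ => Finset.sum_nonneg fun _ _ => hB0 _ _) hh)
    have h3 : ∑ h ∈ range H, ∑ h' ∈ range H, B h h' ≤ ε ^ 2 / 8 * K := by
      rw [div_lt_iff₀ (by positivity)] at hK₁
      nlinarith [sq_nonneg ε]
    calc ‖c * (W * (t : ℂ)) ^ M‖ * ‖∑ n ∈ range K, (W * (t : ℂ)) ^ n‖ ≤ 1 * B h h' :=
          mul_le_mul h1 hgeo (norm_nonneg _) zero_le_one
      _ ≤ ε ^ 2 / 8 * K := by rw [one_mul]; exact h2.trans h3
  have h5 := wd_vdc x hx1 H K hH1 hK1 (ε ^ 2 / 8) hpair (by positivity)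
  have h6 : √(1 / (H : ℝ) + ε ^ 2 / 8) ≤ ε / 2 := by
    rw [Real.sqrt_le_left (by positivity)]
    have h7 : 1 / (H : ℝ) ≤ ε ^ 2 / 8 := by
      rw [div_le_iff₀ hH0]
      rw [div_lt_iff₀ (by positivity)] at hH
      nlinarith
    nlinarith
  have h7 : 2 * (H : ℝ) / K ≤ ε / 2 := by
    rw [div_le_iff₀ hK0]
    rw [div_lt_iff₀ hε] at hK₂
    nlinarith
  rw [norm_div, Complex.norm_natCast, div_le_iff₀ hK0] at h5
  refine h5.trans (mul_le_mul_of_nonneg_right ?_ hK0.le)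
  linarith

end Pool.Agent.Lib.MP_90b327_co.EX
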