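import Mathlib
import Pool.Agent.Lib.MP_90b327_co.EX.EDefs
import Pool.Agent.Lib.MP_90b327_co.EX.EFacts
import Pool.Agent.Lib.MP_90b327_co.EX.ERow
import Pool.Agent.Lib.MP_90b327_co.EX.EW2

/-!
MODULE ECaseC (helper56). Text section 6, case 3B: the phase is not a root of unity. The statement is in terms of the
conclusion of `near_far`, so that this file does not depend on ECaseB.
-/

set_option autoImplicit false

namespace Pool.Agent.Lib.MP_90b327_co.EX

open Finset MeasureTheory Pool.Agent.Lib.MP_90b327_co Pool.Agent.Lib.MP_90b327_co.RB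

theorem s3_irr {θ : Pt → Pt → ℂ} (h : JCh θ) (a : ℕ) (ha : 1 ≤ a) (ζ : ℂ) (hζ : ‖ζ‖ = 1)
    (hr : ∀ r : ℕ, 1 ≤ r → ζ ^ r ≠ 1)
    (hnf : ∀ ε : ℝ, 0 < ε → ∃ M : ℕ, ∀ b m s g k k' : ℕ, m + s = a * g → M ≤ m + s →
      M ≤ a * k → M ≤ a * k' →
      ‖QQ θ b m s (a * k) - ζ ^ ((g : ℤ) * ((k : ℤ) - (k' : ℤ))) * QQ θ b m s (a * k')‖ ≤ ε)
    (q : ℕ) (hq : 1 ≤ q) (hd : a ∣ q) : S3 θ q := by
  classical
  intro ε hε b m₀ s₀ M hb hm₀ hs₀ hbs
  obtain ⟨c, rfl⟩ := hd
  obtain ⟨b', rfl⟩ := hb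
  obtain ⟨m', rfl⟩ := hm₀
  obtain ⟨s', rfl⟩ := hs₀
  have hc : 1 ≤ c := by
    rcases Nat.eq_zero_or_pos c with rfl | h0
    · simp at hq
    · exact h0
  have hbs' : b' ≤ s' := Nat.le_of_mul_le_mul_left hbs (by omega)
  obtain ⟨M₁, hM₁⟩ := hnf (ε / 3) (by positivity)
  obtain ⟨K₁, hK₁⟩ := weyl_damped ζ hζ hr (c ^ 2) (Nat.one_le_pow _ _ hc) (ε / 3) (by positivity)
  obtain ⟨K₂, hK₂⟩ := exists_nat_gt (6 * (M₁ : ℝ) / ε)
  have hzn : ∀ n : ℤ, ‖ζ ^ n‖ = 1 := fun n => by rw [norm_zpow, hζ, one_zpow]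
  have hz0 : ζ ≠ 0 := by
    rintro rfl
    rw [norm_zero] at hζ
    exact zero_ne_one hζ
  -- uniform bound for one `x`
  have key : ∀ K : ℕ, K₁ + K₂ + 1 ≤ K → ∀ x : ℕ,
      ‖∑ y ∈ Ico M (M + K), QQ θ (a * c * b') (a * c * m' + a * c * x) (a * c * s' + a * c * y)
        (a * c * s' + a * c * y - a * c * b')‖ ≤ ε * K := by
    intro K hK x
    have hK0 : (0 : ℝ) < K := by exact_mod_cast (by omega : 0 < K)
    have hKK₂ : (K₂ : ℝ) ≤ K := by exact_mod_cast (by omega : K₂ ≤ K)
    set G : ℕ → ℕ := fun y => c * (m' + x + s' + y) with hG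
    set kk : ℕ → ℕ := fun y => c * (s' + y - b') with hkk
    have e1 : ∀ y, a * c * s' + a * c * y - a * c * b' = a * kk y := by
      intro y
      simp only [hkk]
      rw [← Nat.mul_add, ← Nat.mul_sub, Nat.mul_assoc]
    have e2 : ∀ y, a * c * m' + a * c * x + (a * c * s' + a * c * y) = a * G y := by
      intro y
      simp only [hG]
      ring
    set ph : ℕ → ℂ := fun y => ζ ^ ((G y : ℤ) * ((kk y : ℤ) - (M₁ : ℤ))) with hph
    -- replacing the columns by a fixed number
    have step1 : ‖∑ y ∈ Ico M (M + K), (QQ θ (a * c * b') (a * c * m' + a * c * x)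
        (a * c * s' + a * c * y) (a * kk y) - ph y * QQ θ (a * c * b') (a * c * m' + a * c * x)
        (a * c * s' + a * c * y) (a * M₁))‖ ≤ ε / 3 * K + 2 * M₁ := by
      have hb1 : ∀ y ∈ Ico M (M + K), ‖QQ θ (a * c * b') (a * c * m' + a * c * x)
        (a * c * s' + a * c * y) (a * kk y) - ph y * QQ θ (a * c * b') (a * c * m' + a * c * x)
        (a * c * s' + a * c * y) (a * M₁)‖ ≤ ε / 3 + (if y < M₁ then 2 else 0) := by
        intro y _
        split_ifs with hy
        · have h1 := norm_sub_le (QQ θ (a * c * b') (a * c * m' + a * c * x)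
            (a * c * s' + a * c * y) (a * kk y)) (ph y * QQ θ (a * c * b') (a * c * m' + a * c * x)
            (a * c * s' + a * c * y) (a * M₁))
          have h2 : ‖QQ θ (a * c * b') (a * c * m' + a * c * x)
            (a * c * s' + a * c * y) (a * kk y)‖ ≤ 1 := th_le h _ _
          have h3 : ‖QQ θ (a * c * b') (a * c * m' + a * c * x)
            (a * c * s' + a * c * y) (a * M₁)‖ ≤ 1 := th_le h _ _
          rw [norm_mul, hzn, one_mul] at h1
          linarith
        · rw [add_zero]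
          have hy' : M₁ ≤ y := not_lt.1 hy
          refine hM₁ _ _ _ (G y) (kk y) M₁ (e2 y) ?_ ?_ ?_
          · have h1 : 1 * y ≤ a * c * y := Nat.mul_le_mul_right y hq
            omega
          · have h1 : 1 * (s' + y - b') ≤ c * (s' + y - b') := Nat.mul_le_mul_right _ hc
            have h2 : 1 * (c * (s' + y - b')) ≤ a * (c * (s' + y - b')) :=
              Nat.mul_le_mul_right _ ha
            simp only [hkk]
            omega
          · have h2 : 1 * M₁ ≤ a * M₁ := Nat.mul_le_mul_right _ ha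
            omega
      refine (norm_sum_le _ _).trans ((Finset.sum_le_sum hb1).trans ?_)
      rw [Finset.sum_add_distrib]
      have h1 : ∑ y ∈ Ico M (M + K), ε / 3 = ε / 3 * K := by
        rw [Finset.sum_const, Nat.card_Ico, nsmul_eq_mul, Nat.add_sub_cancel_left]; ring
      have h2 : ∑ y ∈ Ico M (M + K), (if y < M₁ then (2 : ℝ) else 0) ≤ 2 * M₁ := by
        rw [← Finset.sum_filter, Finset.sum_const, nsmul_eq_mul]
        have h3 : ((Ico M (M + K)).filter (fun y => y < M₁)).card ≤ M₁ := by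
          calc ((Ico M (M + K)).filter (fun y => y < M₁)).card ≤ (range M₁).card := by
                apply Finset.card_le_card
                intro y hy
                exact Finset.mem_range.2 (Finset.mem_filter.1 hy).2
            _ = M₁ := Finset.card_range _
        have h4 : (((Ico M (M + K)).filter (fun y => y < M₁)).card : ℝ) ≤ M₁ := by exact_mod_cast h3
        linarith
      linarith
    -- the oscillating sum
    have step2 : ‖∑ y ∈ Ico M (M + K), ph y * QQ θ (a * c * b') (a * c * m' + a * c * x)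
        (a * c * s' + a * c * y) (a * M₁)‖ ≤ ε / 3 * K := by
      obtain ⟨sp, C, hrow, -⟩ := row_ineq h (a * c * b') (a * c * m' + a * c * x) (a * M₁)
      have h1 := hrow (Fin K) (fun i => a * c * s' + a * c * (M + i)) (fun i => ph (M + i))
      have h2 : ∑ y ∈ Ico M (M + K), ph y * QQ θ (a * c * b') (a * c * m' + a * c * x)
          (a * c * s' + a * c * y) (a * M₁) = ∑ i : Fin K, ph (M + i) *
          QQ θ (a * c * b') (a * c * m' + a * c * x) (a * c * s' + a * c * (M + i)) (a * M₁) := by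
        rw [Finset.sum_Ico_eq_sum_range, Nat.add_sub_cancel_left, Finset.sum_range]
      rw [h2]
      have h3 : ∀ ω, ‖∑ i : Fin K, ph (M + i) * sp.z ∅ C ω ^ (a * c * s' + a * c * (M + i))‖ ^ 2 ≤
          (ε / 3 * K) ^ 2 := by
        intro ω
        set z := sp.z ∅ C ω with hz
        have hz1 : ‖z‖ ≤ 1 := sp.norm_le _ _ _
        refine pow_le_pow_left₀ (norm_nonneg _) ?_ 2
        set β : ℤ := (c : ℤ) * ((c : ℤ) * ((s' : ℤ) - b') - M₁) + (c : ℤ) ^ 2 * (m' + x + s') with hβ
        set γ : ℤ := (c : ℤ) * (m' + x + s') * ((c : ℤ) * ((s' : ℤ) - b') - M₁) with hγ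
        have e3 : ∀ y, ph y = ζ ^ γ * ζ ^ (((c ^ 2 : ℕ) : ℤ) * (y : ℤ) ^ 2 + β * (y : ℤ)) := by
          intro y
          simp only [hph, hG, hkk]
          rw [← zpow_add₀ hz0]
          congr 1
          rw [Nat.cast_mul (c) (s' + y - b'), Nat.cast_sub (by omega : b' ≤ s' + y)]
          rw [hβ, hγ]
          push_cast
          ring
        have e4 : ∑ i : Fin K, ph (M + i) * z ^ (a * c * s' + a * c * (M + i)) =
            (ζ ^ γ * z ^ (a * c * s')) * ∑ y ∈ Ico M (M + K),
              ζ ^ (((c ^ 2 : ℕ) : ℤ) * (y : ℤ) ^ 2 + β * (y : ℤ)) * (z ^ (a * c)) ^ y := by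
          rw [Finset.sum_Ico_eq_sum_range, Nat.add_sub_cancel_left, Finset.sum_range,
            Finset.mul_sum]
          refine Finset.sum_congr rfl fun i _ => ?_
          rw [e3, pow_add, pow_mul z (a * c) (M + i)]
          ring
        rw [e4, norm_mul]
        have h4 := hK₁ K (by omega) β (z ^ (a * c))
          (by rw [norm_pow]; exact pow_le_one₀ (norm_nonneg _) hz1) M
        have h5 : ‖ζ ^ γ * z ^ (a * c * s')‖ ≤ 1 := by
          rw [norm_mul, hzn, one_mul, norm_pow]
          exact pow_le_one₀ (norm_nonneg _) hz1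
        calc _ ≤ 1 * (ε / 3 * K) := mul_le_mul h5 h4 (norm_nonneg _) zero_le_one
          _ = ε / 3 * K := one_mul _
      have h4 : ∫ ω, ‖∑ i : Fin K, ph (M + i) * sp.z ∅ C ω ^ (a * c * s' + a * c * (M + i))‖ ^ 2
          ∂(sp.P) ≤ (ε / 3 * K) ^ 2 := by
        have h5 : ∫ ω, ‖∑ i : Fin K, ph (M + i) * sp.z ∅ C ω ^ (a * c * s' + a * c * (M + i))‖ ^ 2
            ∂(sp.P) ≤ ∫ _ω, (ε / 3 * K) ^ 2 ∂(sp.P) := by
          refine integral_mono_of_nonneg (ae_of_all _ fun ω => by positivity)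
            (integrable_const _) (ae_of_all _ h3)
        simpa using h5
      exact (pow_le_pow_iff_left₀ (norm_nonneg _) (by positivity) two_ne_zero).1 (h1.trans h4)
    have h5 : ∑ y ∈ Ico M (M + K), QQ θ (a * c * b') (a * c * m' + a * c * x)
        (a * c * s' + a * c * y) (a * c * s' + a * c * y - a * c * b') =
        ∑ y ∈ Ico M (M + K), (QQ θ (a * c * b') (a * c * m' + a * c * x)
        (a * c * s' + a * c * y) (a * kk y) - ph y * QQ θ (a * c * b') (a * c * m' + a * c * x)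
        (a * c * s' + a * c * y) (a * M₁)) + ∑ y ∈ Ico M (M + K), ph y *
        QQ θ (a * c * b') (a * c * m' + a * c * x) (a * c * s' + a * c * y) (a * M₁) := by
      rw [← Finset.sum_add_distrib]
      refine Finset.sum_congr rfl fun y _ => ?_
      rw [e1]
      ring
    rw [h5]
    refine (norm_add_le _ _).trans ?_
    rw [div_lt_iff₀ hε] at hK₂
    have h6 : 6 * (M₁ : ℝ) ≤ ε * K := by nlinarith
    linarith
  refine ⟨K₁ + K₂ + 1, fun K hK => ⟨0, fun l _ => ?_⟩⟩
  refine (norm_sum_le _ _).trans ((Finset.sum_le_sum fun x _ => key K hK x).trans ?_)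
  rw [Finset.sum_const, Nat.card_Ico, nsmul_eq_mul, Nat.add_sub_cancel_left]
  exact le_of_eq (by ring)

end Pool.Agent.Lib.MP_90b327_co.EX
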