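import Mathlib
import Pool.Agent.Lib.MP_90b327_co.EX.EDefs
import Pool.Agent.Lib.MP_90b327_co.RB.Near
import Pool.Agent.Lib.MP_90b327_co.RB.Phase

/-!
MODULE EPh. Text section 6, case 3: (9a) and (9b).
-/

set_option autoImplicit false

namespace Pool.Agent.Lib.MP_90b327_co.EX

open Finset MeasureTheory Pool.Agent.Lib.MP_90b327_co Pool.Agent.Lib.MP_90b327_co.RB

private theorem eph_eint (s : Sp) (x y : Finset ℕ) (j : ℕ) : Integrable (s.e x y j) s.P :=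
  Integrable.of_bound (e_meas s x y j).aestronglyMeasurable 1
    (Filter.Eventually.of_forall fun ω => e_norm s x y j ω)

private theorem eph_nint (s : Sp) (x y : Finset ℕ) (n : ℕ) :
    Integrable (fun ω => ‖s.z x y ω‖ ^ n) s.P :=
  Integrable.of_bound ((s.meas x y).norm.pow_const n).aestronglyMeasurable 1
    (Filter.Eventually.of_forall fun ω => by
      rw [norm_pow, norm_norm]
      exact pow_le_one₀ (norm_nonneg _) (s.norm_le x y ω))

private theorem eph_small (T : Two) (e l : ℕ) :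
    ∫ ω, (if ‖T.r.z ∅ (range l) ω‖ = 1 then 0 else ‖T.r.z ∅ (range l) ω‖ ^ (2 * e)) ∂T.r.P =
      (T.W e e l 0).re - (T.U l 0 0).re := by
  have h1 := T.mom ∅ (range l) (Finset.disjoint_empty_left _) e e
  rw [Finset.card_range, Finset.card_empty] at h1
  have h2 := U_eq T ∅ (range l) (Finset.disjoint_empty_left _) 0
  rw [Finset.card_range, Finset.card_empty] at h2
  have h3 : (T.W e e l 0).re = ∫ ω, ‖T.r.z ∅ (range l) ω‖ ^ (2 * e) ∂T.r.P := by
    have h4 : (fun ω => T.r.z ∅ (range l) ω ^ e * T.r.z (range l) ∅ ω ^ e) =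
        fun ω => ((‖T.r.z ∅ (range l) ω‖ ^ (2 * e) : ℝ) : ℂ) := by
      funext ω
      rw [T.r.herm ∅ (range l) ω, ← mul_pow, Complex.mul_conj', pow_mul]
      push_cast
      rfl
    rw [← h1, h4, integral_complex_ofReal, Complex.ofReal_re]
  have h5 : (T.U l 0 0).re = ∫ ω, (T.r.e ∅ (range l) 0 ω).re ∂T.r.P := by
    rw [← h2]
    have := Complex.reCLM.integral_comp_comm (eph_eint T.r ∅ (range l) 0)
    simpa using this.symm
  have hre : Integrable (fun ω => (T.r.e ∅ (range l) 0 ω).re) T.r.P :=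
    Complex.reCLM.integrable_comp (eph_eint T.r ∅ (range l) 0)
  rw [h3, h5, ← integral_sub (eph_nint _ _ _ _) hre]
  refine integral_congr_ae (Filter.Eventually.of_forall fun ω => ?_)
  show (if ‖T.r.z ∅ (range l) ω‖ = 1 then 0 else ‖T.r.z ∅ (range l) ω‖ ^ (2 * e)) =
    ‖T.r.z ∅ (range l) ω‖ ^ (2 * e) - (T.r.e ∅ (range l) 0 ω).re
  unfold Sp.e
  by_cases h : ‖T.r.z ∅ (range l) ω‖ = 1
  · rw [if_pos h, if_pos h, h]
    simp
  · rw [if_neg h, if_neg h]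
    simp

private theorem eph_r (T : Two) (j j' : ℕ) (hj1 : 1 ≤ j) (hj1' : 1 ≤ j') (hj : 0 < T.t j)
    (hj' : 0 < T.swap.t j') : ∃ a : ℕ, 1 ≤ a ∧ ∃ ζ : ℂ, ‖ζ‖ = 1 ∧
      (∀ g : ℕ, 1 ≤ g → ∀ᵐ ω ∂T.r.P, ‖T.r.z ∅ (range (a * g)) ω‖ = 1 →
        T.r.z ∅ (range (a * g)) ω ^ a = ζ ^ g) ∧
      ∀ ε : ℝ, 0 < ε → ∃ M : ℕ, ∀ g e : ℕ, M ≤ a * g → M ≤ e →
        ∫ ω, (if ‖T.r.z ∅ (range (a * g)) ω‖ = 1 then 0 else
          ‖T.r.z ∅ (range (a * g)) ω‖ ^ (2 * e)) ∂T.r.P ≤ ε := by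
  have ht0 : 0 < T.t 0 := lt_of_lt_of_le hj (t_le_zero T j)
  obtain ⟨M₀, hM₀⟩ := near3 T j' hj' (T.t 0 / 2) (by linarith)
  obtain ⟨a, ha⟩ : ∃ a : ℕ, a = 2 * j * j' * (M₀ + 1) := ⟨_, rfl⟩
  have hjj : 1 ≤ j * j' := Nat.mul_pos hj1 hj1'
  have ha1 : M₀ + 1 ≤ a := by
    have h1 : 1 * (M₀ + 1) ≤ 2 * j * j' * (M₀ + 1) := by
      apply Nat.mul_le_mul_right
      calc 1 ≤ j * j' := hjj
        _ ≤ 2 * (j * j') := by omega
        _ = 2 * j * j' := by ring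
    omega
  have hja : j ∣ a := ⟨2 * j' * (M₀ + 1), by rw [ha]; ring⟩
  have h2j : 2 * j' ∣ a := ⟨j * (M₀ + 1), by rw [ha]; ring⟩
  have hN : ∀ q : ℕ, 1 ≤ q → 0 < (T.U (a * q) 0 0).re := by
    intro q hq
    have h1 : M₀ ≤ a * q := by
      calc M₀ ≤ a * 1 := by omega
        _ ≤ a * q := Nat.mul_le_mul_left a hq
    have h2 := hM₀ (a * q) h1 (Dvd.dvd.mul_right h2j q)
    have h3 := Complex.abs_re_le_norm (T.U (a * q) 0 0 - (T.t 0 : ℂ))
    rw [Complex.sub_re, Complex.ofReal_re] at h3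
    have h4 := (abs_le.mp (h3.trans h2)).1
    linarith
  obtain ⟨ζ, hζ, hmul⟩ := phase_mul T j hj a hja hN
  refine ⟨a, by omega, ζ, hζ, ?_, ?_⟩
  · intro g hg
    obtain ⟨κ, hκ, hy⟩ := phase_const T j hj a hja (a * g) (hN g hg)
    have h1 := hy (range (a * g)) (Finset.card_range _)
    have h2 : κ = ζ ^ g := by
      have h3 := hmul g hg 1
      rw [Nat.mul_one, Nat.one_mul] at h3
      have h4 := U_eq T ∅ (range (a * g)) (Finset.disjoint_empty_left _) a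
      have h5 := U_eq T ∅ (range (a * g)) (Finset.disjoint_empty_left _) 0
      rw [Finset.card_range, Finset.card_empty] at h4 h5
      have h6 : ∫ ω, T.r.e ∅ (range (a * g)) a ω ∂T.r.P =
          κ * ∫ ω, T.r.e ∅ (range (a * g)) 0 ω ∂T.r.P := by
        rw [← integral_const_mul]
        refine integral_congr_ae ?_
        filter_upwards [h1] with ω hω
        unfold Sp.e
        by_cases hn : ‖T.r.z ∅ (range (a * g)) ω‖ = 1
        · rw [if_pos hn, if_pos hn, hω hn, pow_zero, mul_one]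
        · rw [if_neg hn, if_neg hn, mul_zero]
      rw [h4, h5, h3] at h6
      have h7 : T.U (a * g) 0 0 ≠ 0 := by
        intro h8
        have h9 := hN g hg
        rw [h8, Complex.zero_re] at h9
        exact lt_irrefl _ h9
      rw [mul_comm κ] at h6
      exact (mul_left_cancel₀ h7 h6).symm
    filter_upwards [h1] with ω hω hn
    rw [hω hn, h2]
  · intro ε hε
    obtain ⟨M₁, hM₁⟩ := near2 T j' hj' (ε / 2) (by linarith)
    obtain ⟨M₂, hM₂⟩ := near3 T j' hj' (ε / 2) (by linarith)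
    refine ⟨max M₁ M₂, ?_⟩
    intro g e hg he
    rw [eph_small]
    have h1 := hM₁ e (a * g) ((le_max_left _ _).trans he) ((le_max_left _ _).trans hg)
      (Dvd.dvd.mul_right h2j g)
    have h2 := hM₂ (a * g) ((le_max_right _ _).trans hg) (Dvd.dvd.mul_right h2j g)
    have h3 := (Complex.abs_re_le_norm _).trans h1
    have h4 := (Complex.abs_re_le_norm _).trans h2
    rw [Complex.sub_re, Complex.ofReal_re] at h3 h4
    have h5 := (abs_le.mp h3).2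
    have h6 := (abs_le.mp h4).1
    linarith

theorem phase_facts (T : Two) (j j' : ℕ) (hj1 : 1 ≤ j) (hj1' : 1 ≤ j') (hj : 0 < T.t j)
    (hj' : 0 < T.swap.t j') : ∃ a : ℕ, 1 ≤ a ∧ ∃ ζ : ℂ, ‖ζ‖ = 1 ∧
      (∀ g : ℕ, 1 ≤ g → ∀ᵐ ω ∂T.c.P, ‖T.c.z ∅ (range (a * g)) ω‖ = 1 →
        T.c.z ∅ (range (a * g)) ω ^ a = ζ ^ g) ∧
      ∀ ε : ℝ, 0 < ε → ∃ M : ℕ, ∀ g e : ℕ, M ≤ a * g → M ≤ e →
        ∫ ω, (if ‖T.c.z ∅ (range (a * g)) ω‖ = 1 then 0 else
          ‖T.c.z ∅ (range (a * g)) ω‖ ^ (2 * e)) ∂T.c.P ≤ ε :=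
  eph_r T.swap j' j hj1' hj1 hj' hj

end Pool.Agent.Lib.MP_90b327_co.EX
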