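import Mathlib
import Pool.Agent.Lib.MP_90b327_co.EX.EDefs
import Pool.Agent.Lib.MP_90b327_co.EX.EFacts
import Pool.Agent.Lib.MP_90b327_co.EX.ETwo
import Pool.Agent.Lib.MP_90b327_co.EX.EPh
import Pool.Agent.Lib.MP_90b327_co.EX.ECaseA
import Pool.Agent.Lib.MP_90b327_co.EX.ECaseB
import Pool.Agent.Lib.MP_90b327_co.EX.ECaseC
import Pool.Agent.Lib.MP_90b327_co.RB.Mono

/-!
MODULE EProp (helper56). Text section 6: the proposition for one joint character.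
-/

set_option autoImplicit false

namespace Pool.Agent.Lib.MP_90b327_co.EX

open Finset MeasureTheory Pool.Agent.Lib.MP_90b327_co Pool.Agent.Lib.MP_90b327_co.RB

theorem s3_three {θ : Pt → Pt → ℂ} (h : JCh θ) (T : Two) (hT : T.W = wv (bip θ)) (a : ℕ) (ζ : ℂ)
    (hp : Ph T a ζ) (hr : ∀ r : ℕ, 1 ≤ r → ζ ^ r ≠ 1) (q : ℕ) (hq : 1 ≤ q) (hd : a ∣ q) :
    S3 θ q :=
  s3_irr h a hp.ha ζ hp.hζ hr (fun ε hε => near_far h T hT a ζ hp ε hε) q hq hd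

theorem prop_theta {θ : Pt → Pt → ℂ} (h : JCh θ) :
    ∃ q₀ : ℕ, 1 ≤ q₀ ∧ ∀ q : ℕ, 1 ≤ q → q₀ ∣ q → S4 θ q ∨ S3 θ q := by
  classical
  obtain ⟨T, hT⟩ := exists_two_wv (bip_chr h)
  by_cases h1 : ∀ j, 1 ≤ j → T.t j = 0
  · exact ⟨1, le_rfl, fun q hq _ => Or.inr (s3_one h T hT h1 q hq)⟩
  by_cases h2 : ∀ j, 1 ≤ j → T.swap.t j = 0
  · exact ⟨1, le_rfl, fun q hq _ => Or.inr (s3_two h T hT h2 q hq)⟩
  push Not at h1 h2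
  obtain ⟨j, hj, hj'⟩ := h1
  obtain ⟨i, hi, hi'⟩ := h2
  have ht : 0 < T.t j := lt_of_le_of_ne (t_nonneg T j) (Ne.symm hj')
  have ht' : 0 < T.swap.t i := lt_of_le_of_ne (t_nonneg T.swap i) (Ne.symm hi')
  obtain ⟨a, ha, ζ, hζ, hph, hsm⟩ := phase_facts T j i hj hi ht ht'
  have hp : Ph T a ζ := ⟨ha, hζ, hph, hsm⟩
  by_cases hr : ∀ r : ℕ, 1 ≤ r → ζ ^ r ≠ 1
  · exact ⟨a, ha, fun q hq hd => Or.inr (s3_three h T hT a ζ hp hr q hq hd)⟩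
  · push Not at hr
    obtain ⟨r, hr1, hr2⟩ := hr
    exact ⟨a * r, Nat.mul_pos ha hr1, fun q hq hd =>
      Or.inl (s4_three h T hT a ζ hp r hr1 hr2 q hq hd)⟩

end Pool.Agent.Lib.MP_90b327_co.EX
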