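import Mathlib
import Pool.Agent.Lib.MP_90b327_co.EX.EDefs
import Pool.Agent.Lib.MP_90b327_co.EX.ELev
import Pool.Agent.Lib.MP_90b327_co.EX.EProp
import Pool.Agent.Lib.MP_90b327_co.EX.EChain
import Pool.Agent.Lib.MP_90b327_co.EX.EEnd3

/-!
MODULE EEnd (owner helper56). Text section 8: the contradiction.
-/

set_option autoImplicit false

namespace Pool.Agent.Lib.MP_90b327_co.EX

open Finset MeasureTheory Filter Pool.Agent.Lib.MP_90b327_co Pool.Agent.Lib.MP_90b327_co.RB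

theorem no_xjk {M : ℕ} {w : ℕ → ℕ} {D : ℝ} {g : Pt → Pt → ℝ} (_hM : 1 ≤ M) (hw : Tendsto w atTop atTop)
    (hD : 0 < D) (h : XJK M w D g) : False := by
  have hz : g ∅ (∅ ∪ range M ×ˢ range M) = 0 := by
    refine h.bad ∅ (range M) (range M) ⟨by simp, rfl, by simp⟩ (Finset.disjoint_empty_left _)
  obtain ⟨hD2, ⟨R⟩⟩ := level_one h.toJK hD _ _ hz
  have hD1 : D < 1 := by linarith
  have hJ : ∀ ω, JCh (R.th ω) := fun ω => ⟨R.ker ω, R.mul ω⟩
  refine end_abs R.P (fun ω => QQ (R.th ω)) (fun b m s e => R.meas _ _)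
    (fun ω b m s e => th_le (hJ ω) _ _) M w hw (D / (1 - D)) (div_pos hD (by linarith)) ?_ ?_ ?_
  · intro b m s h1 h2 h3
    have h4 := qq_near h hD hD1 b m s h1 h2 h3
    refine (R.mean _ _).symm.trans (Eq.trans h4 ?_)
    push_cast
    rfl
  · intro ω t G A hG hA f
    have h1 := chain_pos (hJ ω) G A hG hA t f
    have h2 : -((t : ℝ) + 1) / 2 = -(((t : ℝ) + 1) / 2) := by ring
    rw [h2]
    exact h1
  · intro ω
    exact prop_theta (hJ ω)

end Pool.Agent.Lib.MP_90b327_co.EX
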