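import Mathlib
import Pool.Agent.Lib.MP_90b327_co.EX.EDefs
import Pool.Agent.Lib.MP_90b327_co.Limit
import Pool.Agent.Lib.MP_90b327_co.RB.GGa

/-!
MODULE ELim. Limit functional and joint limit kernel of a family without good pairs (copies of NS/NLimit
and NS/NJoint with `NearX` instead of `Near`).
-/

set_option autoImplicit false

namespace Pool.Agent.Lib.MP_90b327_co.EX

open Finset Pool.Agent.Lib.MP_90b327_co Pool.Agent.Lib.MP_90b327_co.RB

open Filter Topology

private theorem xlimit_bad {M : ℕ} {w : ℕ → ℕ} {K N : ℕ}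
    (S : Finset (Finset (Fin 2 → Fin N))) (hS : ¬ GoodX M w N S)
    (j : Fin K → Fin N) (hj : Function.Injective j) (X Y : Pat 2 K) (γ₁ γ₂ : Finset (Fin K))
    (hγ : NearX M w γ₁ γ₂)
    (h1 : ∀ c : Fin 2 → Fin K, c 0 ∈ γ₁ → c 1 ∈ γ₂ → X c = false)
    (h2 : ∀ c : Fin 2 → Fin K, c 0 ∈ γ₁ → c 1 ∈ γ₂ → Y c = true)
    (h3 : ∀ c : Fin 2 → Fin K, ¬ (c 0 ∈ γ₁ ∧ c 1 ∈ γ₂) → Y c = X c) : corS S j X Y = 0 := by
  unfold corS
  apply Finset.sum_eq_zero
  intro σ _
  apply Finset.sum_eq_zero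
  intro A _
  by_contra hne
  apply hS
  have hX : toSet (rel σ (ov j A X)) ∈ S := by
    by_contra h
    apply hne
    unfold ind
    rw [if_neg h, zero_mul]
  have hY : toSet (rel σ (ov j A Y)) ∈ S := by
    by_contra h
    apply hne
    unfold ind
    rw [if_neg h, mul_zero]
  have hinj : Function.Injective (fun v => σ⁻¹ (j v)) := fun u v huv => hj (σ⁻¹.injective huv)
  let γ₁' : Finset (Fin N) := γ₁.image (fun v => σ⁻¹ (j v))
  let γ₂' : Finset (Fin N) := γ₂.image (fun v => σ⁻¹ (j v))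
  have hc1 : γ₁'.card = γ₁.card := Finset.card_image_of_injective _ hinj
  have hc2 : γ₂'.card = γ₂.card := Finset.card_image_of_injective _ hinj
  have hmem : ∀ (γ : Finset (Fin K)) (v : Fin N), v ∈ γ.image (fun v => σ⁻¹ (j v)) ↔
      ∃ w ∈ γ, j w = σ v := by
    intro γ v
    rw [Finset.mem_image]
    constructor
    · rintro ⟨w, hw, hwv⟩
      refine ⟨w, hw, ?_⟩
      rw [← hwv]
      simp
    · rintro ⟨w, hw, hwv⟩
      refine ⟨w, hw, ?_⟩
      rw [hwv]
      simp
  have hcell : ∀ c : Fin 2 → Fin N, (c 0 ∈ γ₁' ∧ c 1 ∈ γ₂') ↔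
      ∃ c' : Fin 2 → Fin K, (c' 0 ∈ γ₁ ∧ c' 1 ∈ γ₂) ∧
        (fun i => j (c' i)) = (fun i => σ (c i)) := by
    intro c
    constructor
    · rintro ⟨h4, h5⟩
      obtain ⟨w, hw, hwv⟩ := (hmem γ₁ (c 0)).mp h4
      obtain ⟨u, hu, huv⟩ := (hmem γ₂ (c 1)).mp h5
      refine ⟨![w, u], ⟨hw, hu⟩, ?_⟩
      funext i
      fin_cases i
      · exact hwv
      · exact huv
    · rintro ⟨c', ⟨h4, h5⟩, h6⟩
      exact ⟨(hmem γ₁ (c 0)).mpr ⟨c' 0, h4, congrFun h6 0⟩,
        (hmem γ₂ (c 1)).mpr ⟨c' 1, h5, congrFun h6 1⟩⟩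
  have hc3 : (γ₂' \ γ₁').card = (γ₂ \ γ₁).card := by
    rw [← Finset.image_sdiff _ _ hinj]
    exact Finset.card_image_of_injective _ hinj
  refine ⟨_, hX, γ₁', γ₂', ⟨by rw [hc1]; exact hγ.1, by rw [hc1, hc2]; exact hγ.2.1,
    by rw [hc1, hc3]; exact hγ.2.2⟩, ?_, ?_⟩
  · rw [Finset.disjoint_left]
    intro c hc hc'
    rw [mem_toSet] at hc
    unfold bx at hc'
    rw [Finset.mem_filter] at hc'
    obtain ⟨c', hc1, hc2⟩ := (hcell c).mp hc'.2
    unfold rel at hc
    rw [← hc2, ov_in j hj, h1 c' hc1.1 hc1.2] at hc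
    exact absurd hc (by simp)
  · convert hY using 1
    ext c
    unfold bx
    rw [Finset.mem_union, mem_toSet, mem_toSet, Finset.mem_filter]
    by_cases hc : c 0 ∈ γ₁' ∧ c 1 ∈ γ₂'
    · obtain ⟨c', hc1, hc2⟩ := (hcell c).mp hc
      have : rel σ (ov j A Y) c = true := by
        unfold rel
        rw [← hc2, ov_in j hj, h2 c' hc1.1 hc1.2]
      simp [hc, this]
    · have : rel σ (ov j A Y) c = rel σ (ov j A X) c := by
        unfold rel
        by_cases h4 : ∃ c' : Fin 2 → Fin K, (fun i => j (c' i)) = (fun i => σ (c i))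
        · obtain ⟨c', hc'⟩ := h4
          rw [← hc', ov_in j hj, ov_in j hj]
          apply h3
          intro h5
          apply hc
          exact (hcell c).mpr ⟨c', h5, hc'⟩
        · rw [ov_out _ _ _ _ h4, ov_out _ _ _ _ h4]
      rw [this]
      simp [hc]

theorem exists_xlim (M : ℕ) (w : ℕ → ℕ) (δ₀ : ℝ)
    (h : ∀ N : ℕ, ∃ S : Finset (Finset (Fin 2 → Fin N)), (S.card : ℝ) > δ₀ * 2 ^ (N ^ 2) ∧
      ¬ GoodX M w N S) : ∃ δ : ℝ, δ₀ ≤ δ ∧ Nonempty (XLim M w δ) := by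
  choose S hS1 hS2 using h
  let p : Ultrafilter ℕ := hyperfilter ℕ
  have hlarge : ∀ M : ℕ, ∀ᶠ N in (p : Filter ℕ), M ≤ N := by
    intro M
    exact Nat.hyperfilter_le_atTop (eventually_ge_atTop M)
  have hex : ∀ (K : ℕ) (X Y : Pat 2 K), ∃ a : ℝ, Tendsto (cor S K X Y) p (𝓝 a) := fun K X Y =>
    exists_limit p _ 1 (cor_nonneg S K X Y) (cor_le S K X Y)
  choose G hG using hex
  have hext : ∀ (K K' : ℕ) (ι : Fin K → Fin K'), Function.Injective ι → ∀ X Y : Pat 2 K',
    (∀ c : Fin 2 → Fin K', (¬ ∃ c' : Fin 2 → Fin K, c = ι ∘ c') → X c = Y c) →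
      G K' X Y = G K (fun c => X (ι ∘ c)) (fun c => Y (ι ∘ c)) := by
    intro K K' ι hι X Y hXY
    have h1 : ∀ m : ℕ, 1 ≤ m →
        (G K' X Y - G K (fun c => X (ι ∘ c)) (fun c => Y (ι ∘ c))) ^ 2 ≤ 2 ^ (K' ^ 2) / m := by
      intro m hm
      have ht : Tendsto (fun N => (cor S K' X Y N -
          cor S K (fun c => X (ι ∘ c)) (fun c => Y (ι ∘ c)) N) ^ 2) p
          (𝓝 ((G K' X Y - G K (fun c => X (ι ∘ c)) (fun c => Y (ι ∘ c))) ^ 2)) :=
        ((hG _ _ _).sub (hG _ _ _)).pow 2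
      apply le_of_tendsto ht
      filter_upwards [hlarge (K' * (m + 1))] with N hN
      exact cor_ext S K K' ι hι X Y hXY m N hm hN
    have h2 : (G K' X Y - G K (fun c => X (ι ∘ c)) (fun c => Y (ι ∘ c))) ^ 2 ≤ 0 := by
      have ht : Tendsto (fun m : ℕ => (2:ℝ) ^ (K' ^ 2) / m) atTop (𝓝 0) :=
        tendsto_const_div_atTop_nhds_zero_nat _
      apply ge_of_tendsto ht
      filter_upwards [eventually_ge_atTop 1] with m hm
      exact h1 m hm
    have h3 := pow_eq_zero_iff (two_ne_zero) |>.mp (le_antisymm h2 (sq_nonneg _))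
    linarith
  have hempty : ∀ (X Y : Pat 2 0), X = Y := by
    intro X Y
    funext c
    exact (c ⟨0, by omega⟩).elim0
  let X₀ : Pat 2 0 := fun _ => false
  have hdiag : ∀ K (X : Pat 2 K), G K X X = G 0 X₀ X₀ := by
    intro K X
    rw [hext 0 K (fun v => v.elim0) (fun v => v.elim0) X X (fun _ _ => rfl)]
    rw [hempty (fun c => X ((fun v => v.elim0) ∘ c)) X₀]
  refine ⟨G 0 X₀ X₀, ?_, ⟨?_⟩⟩
  · apply ge_of_tendsto (hG 0 X₀ X₀)
    filter_upwards with N
    unfold cor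
    rw [dif_pos (Nat.zero_le N), corS_zero (by norm_num)]
    unfold nrm
    have h1 : (0:ℝ) < N.factorial := by exact_mod_cast Nat.factorial_pos N
    rw [mul_div_mul_left _ _ h1.ne', le_div_iff₀ (by positivity)]
    exact (hS1 N).le
  · refine ⟨G, ?_, ?_, hdiag, hext, ?_, ?_⟩
    · intro K X Y
      refine tendsto_nhds_unique (hG K X Y) ?_
      have : cor S K X Y = cor S K Y X := by
        funext N
        unfold cor
        split_ifs with h
        · rw [corS_symm]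
        · rfl
      rw [this]
      exact hG K Y X
    · intro K X Y
      exact ge_of_tendsto (hG K X Y) (Eventually.of_forall (cor_nonneg S K X Y))
    · intro K n X a a₀
      have h1 : ∀ᶠ N in (p : Filter ℕ), 0 ≤ a₀ ^ 2 + 2 * a₀ * (∑ i, a i * cor S K (X i) (X i) N) +
          ∑ i, ∑ l, a i * a l * cor S K (X i) (X l) N := by
        filter_upwards [hlarge K] with N hN
        have := corS_psd (S N) (Fin.castLE hN) X a a₀
        have hD := nrm_pos 2 N
        have h2 : a₀ ^ 2 + 2 * a₀ * (∑ i, a i * cor S K (X i) (X i) N) +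
          ∑ i, ∑ l, a i * a l * cor S K (X i) (X l) N =
          (a₀ ^ 2 * nrm 2 N + 2 * a₀ * (∑ i, a i * corS (S N) (Fin.castLE hN) (X i) (X i)) +
      ∑ i, ∑ l, a i * a l * corS (S N) (Fin.castLE hN) (X i) (X l)) / nrm 2 N := by
          unfold cor
          simp only [dif_pos hN]
          rw [add_div, add_div, mul_div_cancel_right₀ _ hD.ne', mul_div_assoc, Finset.sum_div,
            Finset.sum_div]
          congr 1
          · congr 2
            apply Finset.sum_congr rfl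
            intro i _
            rw [mul_div_assoc]
          · apply Finset.sum_congr rfl
            intro i _
            rw [Finset.sum_div]
            apply Finset.sum_congr rfl
            intro l _
            rw [mul_div_assoc]
        rw [h2]
        exact div_nonneg this hD.le
      have h2 : Tendsto (fun N => a₀ ^ 2 + 2 * a₀ * (∑ i, a i * cor S K (X i) (X i) N) +
          ∑ i, ∑ l, a i * a l * cor S K (X i) (X l) N) p
          (𝓝 (a₀ ^ 2 + 2 * a₀ * (∑ i, a i * G K (X i) (X i)) +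
          ∑ i, ∑ l, a i * a l * G K (X i) (X l))) := by
        apply Tendsto.add
        · apply Tendsto.add tendsto_const_nhds
          apply Tendsto.const_mul
          apply tendsto_finsetSum
          intro i _
          exact (hG _ _ _).const_mul _
        · apply tendsto_finsetSum
          intro i _
          apply tendsto_finsetSum
          intro l _
          exact (hG _ _ _).const_mul _
      have h3 := ge_of_tendsto h2 h1
      have h4 : (∑ i, a i * G K (X i) (X i)) = (∑ i, a i) * G 0 X₀ X₀ := by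
        rw [Finset.sum_mul]
        apply Finset.sum_congr rfl
        intro i _
        rw [hdiag]
      rw [h4, ← mul_assoc] at h3
      exact h3
    · intro K X Y γ₁ γ₂ hγ h1 h2 h3
      refine tendsto_nhds_unique (hG K X Y) ?_
      have : cor S K X Y = fun _ => 0 := by
        funext N
        unfold cor
        split_ifs with h
        · rw [xlimit_bad (S N) (hS2 N) (Fin.castLE h) (Fin.castLE_injective h) X Y γ₁ γ₂ hγ h1 h2 h3]
          simp
        · rfl
      rw [this]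
      exact tendsto_const_nhds

/-- the pattern `X` on `n` vertices -/
def emx (n : ℕ) (X : Pt) : Pat 2 n := fun c => decide (((c 0 : ℕ), (c 1 : ℕ)) ∈ X)

private def xjN (X : Pt) : ℕ := X.sup (fun c => max c.1 c.2) + 1

private theorem xjN_lt (X : Pt) : ∀ c ∈ X, c.1 < xjN X ∧ c.2 < xjN X := by
  intro c hc
  have h : max c.1 c.2 ≤ X.sup (fun c => max c.1 c.2) := Finset.le_sup (f := fun c : ℕ × ℕ => max c.1 c.2) hc
  unfold xjN
  have h1 := le_max_left c.1 c.2
  have h2 := le_max_right c.1 c.2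
  omega

private def xjM (X Y : Pt) : ℕ := max (xjN X) (xjN Y)

private theorem xjM_left (X Y : Pt) : ∀ c ∈ X, c.1 < xjM X Y ∧ c.2 < xjM X Y := by
  intro c hc
  have h := xjN_lt X c hc
  have h1 : xjN X ≤ xjM X Y := le_max_left _ _
  omega

private theorem xjM_right (X Y : Pt) : ∀ c ∈ Y, c.1 < xjM X Y ∧ c.2 < xjM X Y := by
  intro c hc
  have h := xjN_lt Y c hc
  have h1 : xjN Y ≤ xjM X Y := le_max_right _ _
  omega

private noncomputable def xj {M : ℕ} {w : ℕ → ℕ} {D : ℝ} (L : XLim M w D) (X Y : Pt) : ℝ :=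
  L.G (xjM X Y) (emx _ X) (emx _ Y)

private theorem xj_ext {M : ℕ} {w : ℕ → ℕ} {D : ℝ} (L : XLim M w D) (n n' : ℕ) (σ : ℕ → ℕ)
    (hσ : Function.Injective σ) (h : ∀ v, v < n → σ v < n') (X Y : Pt)
    (hX : ∀ c ∈ X, c.1 < n ∧ c.2 < n) (hY : ∀ c ∈ Y, c.1 < n ∧ c.2 < n) :
    L.G n' (emx n' (rl σ σ X)) (emx n' (rl σ σ Y)) = L.G n (emx n X) (emx n Y) := by
  classical
  obtain ⟨ι, hι⟩ : ∃ ι : Fin n → Fin n', ∀ v : Fin n, (ι v : ℕ) = σ v :=
    ⟨fun v => ⟨σ v, h v v.2⟩, fun v => rfl⟩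
  have hinj : Function.Injective ι := by
    intro a b hab
    have h1 := congrArg Fin.val hab
    rw [hι, hι] at h1
    exact Fin.ext (hσ h1)
  have hin : ∀ Z : Pt, (fun c => emx n' (rl σ σ Z) (ι ∘ c)) = emx n Z := by
    intro Z
    funext c
    unfold emx rl
    rw [decide_eq_decide, Finset.mem_image]
    simp only [Function.comp_apply, hι]
    constructor
    · rintro ⟨c', hc', hcc⟩
      rw [Prod.mk.injEq] at hcc
      have h1 := hσ hcc.1
      have h2 := hσ hcc.2
      rw [← h1, ← h2]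
      exact hc'
    · intro h1
      exact ⟨_, h1, rfl⟩
  have hout : ∀ Z : Pt, (∀ c ∈ Z, c.1 < n ∧ c.2 < n) → ∀ c : Fin 2 → Fin n',
      (¬ ∃ c' : Fin 2 → Fin n, c = ι ∘ c') → emx n' (rl σ σ Z) c = false := by
    intro Z hZ c hc
    unfold emx rl
    rw [decide_eq_false_iff_not, Finset.mem_image]
    rintro ⟨c', hc', hcc⟩
    rw [Prod.mk.injEq] at hcc
    obtain ⟨h4, h5⟩ := hZ _ hc'
    apply hc
    refine ⟨![⟨c'.1, h4⟩, ⟨c'.2, h5⟩], ?_⟩
    funext i
    fin_cases i
    · apply Fin.ext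
      exact hcc.1.symm.trans (hι ⟨c'.1, h4⟩).symm
    · apply Fin.ext
      exact hcc.2.symm.trans (hι ⟨c'.2, h5⟩).symm
  rw [L.ext n n' ι hinj (emx n' (rl σ σ X)) (emx n' (rl σ σ Y))
    (fun c hc => by rw [hout X hX c hc, hout Y hY c hc]), hin X, hin Y]

private theorem xj_mono {M : ℕ} {w : ℕ → ℕ} {D : ℝ} (L : XLim M w D) {n n' : ℕ} (h : n ≤ n') (X Y : Pt)
    (hX : ∀ c ∈ X, c.1 < n ∧ c.2 < n) (hY : ∀ c ∈ Y, c.1 < n ∧ c.2 < n) :
    L.G n' (emx n' X) (emx n' Y) = L.G n (emx n X) (emx n Y) := by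
  have hr : ∀ X : Pt, rl id id X = X := by
    intro X
    unfold rl
    have : (fun c : ℕ × ℕ => (id c.1, id c.2)) = id := by
      funext c
      rfl
    rw [this, Finset.image_id]
  have := xj_ext L n n' id Function.injective_id (fun v hv => lt_of_lt_of_le hv h) X Y hX hY
  rwa [hr, hr] at this

private theorem xj_eq {M : ℕ} {w : ℕ → ℕ} {D : ℝ} (L : XLim M w D) {n : ℕ} {X Y : Pt}
    (hX : ∀ c ∈ X, c.1 < n ∧ c.2 < n) (hY : ∀ c ∈ Y, c.1 < n ∧ c.2 < n) :
    xj L X Y = L.G n (emx n X) (emx n Y) := by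
  unfold xj
  rw [← xj_mono L (le_max_left (xjM X Y) n) X Y (xjM_left X Y) (xjM_right X Y),
    xj_mono L (le_max_right (xjM X Y) n) X Y hX hY]

private theorem xj_psd {M : ℕ} {w : ℕ → ℕ} {D : ℝ} (L : XLim M w D) (ι : Type) [Fintype ι] (X : ι → Pt)
    (a : ι → ℝ) : D ^ 2 * (∑ i, a i) ^ 2 ≤ ∑ i, ∑ j, a i * a j * xj L (X i) (X j) := by
  classical
  obtain ⟨n, hn⟩ : ∃ n : ℕ, ∀ i, ∀ c ∈ X i, c.1 < n ∧ c.2 < n := by
    refine ⟨xjN (Finset.univ.biUnion X), fun i c hc => xjN_lt _ c ?_⟩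
    exact Finset.mem_biUnion.mpr ⟨i, Finset.mem_univ _, hc⟩
  have e1 : ∀ i j, xj L (X i) (X j) = L.G n (emx n (X i)) (emx n (X j)) :=
    fun i j => xj_eq L (hn i) (hn j)
  simp only [e1]
  let e := Fintype.equivFin ι
  have h := L.psd n (Fintype.card ι) (fun k => emx n (X (e.symm k))) (fun k => a (e.symm k))
    (-D * ∑ i, a i)
  have e2 : ∑ k, a (e.symm k) = ∑ i, a i := Equiv.sum_comp e.symm a
  have e3 : ∑ i : Fin (Fintype.card ι), ∑ j : Fin (Fintype.card ι), a (e.symm i) * a (e.symm j) *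
      L.G n (emx n (X (e.symm i))) (emx n (X (e.symm j))) =
      ∑ i, ∑ j, a i * a j * L.G n (emx n (X i)) (emx n (X j)) := by
    rw [← Equiv.sum_comp e.symm]
    refine Finset.sum_congr rfl fun i _ => ?_
    exact Equiv.sum_comp e.symm (fun j => a (e.symm i) * a j * L.G n (emx n (X (e.symm i))) (emx n (X j)))
  rw [e2, e3] at h
  nlinarith [h]

private theorem xj_inv {M : ℕ} {w : ℕ → ℕ} {D : ℝ} (L : XLim M w D) (σ : ℕ → ℕ)
    (hσ : Function.Injective σ) (X Y : Pt) : xj L (rl σ σ X) (rl σ σ Y) = xj L X Y := by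
  set n := xjM X Y with hn
  obtain ⟨n', hn'⟩ : ∃ n' : ℕ, ∀ v, v < n → σ v < n' := by
    refine ⟨(Finset.range n).sup σ + 1, fun v hv => ?_⟩
    have h : σ v ≤ (Finset.range n).sup σ := Finset.le_sup (f := σ) (Finset.mem_range.mpr hv)
    omega
  have hb : ∀ Z : Pt, (∀ c ∈ Z, c.1 < n ∧ c.2 < n) → ∀ c ∈ rl σ σ Z, c.1 < n' ∧ c.2 < n' := by
    intro Z hZ c hc
    unfold rl at hc
    rw [Finset.mem_image] at hc
    obtain ⟨c', hc', rfl⟩ := hc
    exact ⟨hn' _ (hZ c' hc').1, hn' _ (hZ c' hc').2⟩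
  rw [xj_eq L (hb X (xjM_left X Y)) (hb Y (xjM_right X Y)),
    xj_ext L n n' σ hσ hn' X Y (xjM_left X Y) (xjM_right X Y)]
  rfl

/-- the same data as an `RLim` without bad pairs -/
private def xj_rlim {M : ℕ} {w : ℕ → ℕ} {D : ℝ} (L : XLim M w D) : RLim (fun _ _ => False) D where
  G := L.G
  symm := L.symm
  nonneg := L.nonneg
  diag := L.diag
  ext := L.ext
  psd := L.psd
  bad := fun _ _ _ _ _ h => h.elim

private theorem xj_rem {M : ℕ} {w : ℕ → ℕ} {D : ℝ} (L : XLim M w D) (X Y : Pt) (v : ℕ)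
    (h : ∀ c : ℕ × ℕ, (c.1 = v ∨ c.2 = v) → (c ∈ X ↔ c ∈ Y)) :
    xj L X Y = xj L (X.filter (fun c => c.1 ≠ v ∧ c.2 ≠ v)) (Y.filter (fun c => c.1 ≠ v ∧ c.2 ≠ v)) := by
  set n := xjM X Y with hn
  by_cases hi : v < n
  · have hX' : ∀ c ∈ X.filter (fun c => c.1 ≠ v ∧ c.2 ≠ v), c.1 < n ∧ c.2 < n :=
      fun c hc => xjM_left X Y c (Finset.mem_filter.mp hc).1
    have hY' : ∀ c ∈ Y.filter (fun c => c.1 ≠ v ∧ c.2 ≠ v), c.1 < n ∧ c.2 < n :=
      fun c hc => xjM_right X Y c (Finset.mem_filter.mp hc).1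
    rw [xj_eq L hX' hY', xj_eq L (xjM_left X Y) (xjM_right X Y), ← hn]
    obtain ⟨u, hu⟩ : ∃ u : Fin n, (u : ℕ) = v := ⟨⟨v, hi⟩, rfl⟩
    have e : ∀ Z : Pt, (fun c : Fin 2 → Fin n => if c 0 = u ∨ c 1 = u then false else emx n Z c) =
        emx n (Z.filter (fun c => c.1 ≠ v ∧ c.2 ≠ v)) := by
      intro Z
      funext c
      by_cases h0 : c 0 = u ∨ c 1 = u
      · rw [if_pos h0]
        symm
        unfold emx
        rw [decide_eq_false_iff_not, Finset.mem_filter]
        rintro ⟨_, h3, h4⟩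
        rcases h0 with h0 | h0
        · apply h3
          simp only [h0, hu]
        · apply h4
          simp only [h0, hu]
      · rw [if_neg h0]
        push Not at h0
        unfold emx
        have h1 : ((c 0 : Fin n) : ℕ) ≠ v := by
          intro hh
          exact h0.1 (Fin.ext (hh.trans hu.symm))
        have h2 : ((c 1 : Fin n) : ℕ) ≠ v := by
          intro hh
          exact h0.2 (Fin.ext (hh.trans hu.symm))
        rw [decide_eq_decide, Finset.mem_filter]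
        exact ⟨fun h3 => ⟨h3, h1, h2⟩, fun h3 => h3.1⟩
    have h1 := g_rem (xj_rlim L) n (emx n X) (emx n Y) u (by
      intro c hc
      unfold emx
      rw [decide_eq_decide]
      apply h
      rcases hc with hc | hc
      · left
        simp only [hc, hu]
      · right
        simp only [hc, hu])
    rw [e, e] at h1
    exact h1
  · have hf : ∀ Z : Pt, (∀ c ∈ Z, c.1 < n ∧ c.2 < n) →
        Z.filter (fun c => c.1 ≠ v ∧ c.2 ≠ v) = Z := by
      intro Z hZ
      rw [Finset.filter_true_of_mem]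
      intro c hc
      have := hZ c hc
      omega
    rw [hf X (xjM_left X Y), hf Y (xjM_right X Y)]

private theorem xj_bad {M : ℕ} {w : ℕ → ℕ} {D : ℝ} (L : XLim M w D) (X : Pt) (I J : Finset ℕ)
    (hS : NearX M w I J) (hd : Disjoint X (I ×ˢ J)) : xj L X (X ∪ I ×ˢ J) = 0 := by
  set n := xjM X (X ∪ I ×ˢ J) + I.sup id + J.sup id + 1 with hn
  have hX : ∀ c ∈ X, c.1 < n ∧ c.2 < n := by
    intro c hc
    have := xjM_left X (X ∪ I ×ˢ J) c hc
    omega
  have hY : ∀ c ∈ X ∪ I ×ˢ J, c.1 < n ∧ c.2 < n := by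
    intro c hc
    have := xjM_right X (X ∪ I ×ˢ J) c hc
    omega
  have hI : ∀ i ∈ I, i < n := by
    intro i hi
    have : i ≤ I.sup id := Finset.le_sup (f := id) hi
    omega
  have hJ : ∀ j ∈ J, j < n := by
    intro j hj
    have : j ≤ J.sup id := Finset.le_sup (f := id) hj
    omega
  rw [xj_eq L hX hY]
  have hcard : ∀ I : Finset ℕ, (∀ i ∈ I, i < n) →
      (Finset.univ.filter (fun w : Fin n => (w : ℕ) ∈ I)).card = I.card := by
    intro I hI
    have : (Finset.univ.filter (fun w : Fin n => (w : ℕ) ∈ I)).image (fun w : Fin n => (w : ℕ)) = I := by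
      ext i
      rw [Finset.mem_image]
      constructor
      · rintro ⟨w, hw, rfl⟩
        exact (Finset.mem_filter.mp hw).2
      · intro hi
        exact ⟨⟨i, hI i hi⟩, Finset.mem_filter.mpr ⟨Finset.mem_univ _, hi⟩, rfl⟩
    rw [← Finset.card_image_of_injective _ (Fin.val_injective (n := n)), this]
  have m1 : ∀ (I : Finset ℕ) (w : Fin n),
      w ∈ Finset.univ.filter (fun w : Fin n => (w : ℕ) ∈ I) ↔ (w : ℕ) ∈ I := by
    intro I w
    simp only [Finset.mem_filter, Finset.mem_univ, true_and]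
  apply L.bad n (emx n X) (emx n (X ∪ I ×ˢ J)) (Finset.univ.filter (fun w : Fin n => (w : ℕ) ∈ I))
    (Finset.univ.filter (fun w : Fin n => (w : ℕ) ∈ J))
  · have hsd : Finset.univ.filter (fun w : Fin n => (w : ℕ) ∈ J) \
        Finset.univ.filter (fun w : Fin n => (w : ℕ) ∈ I) =
        Finset.univ.filter (fun w : Fin n => (w : ℕ) ∈ J \ I) := by
      ext v
      rw [Finset.mem_sdiff, m1, m1, m1, Finset.mem_sdiff]
    refine ⟨?_, ?_, ?_⟩
    · rw [hcard I hI]
      exact hS.1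
    · rw [hcard I hI, hcard J hJ]
      exact hS.2.1
    · rw [hsd, hcard I hI, hcard (J \ I) (fun j hj => hJ j (Finset.mem_sdiff.mp hj).1)]
      exact hS.2.2
  · intro c h0 h1
    rw [m1] at h0 h1
    unfold emx
    rw [decide_eq_false_iff_not]
    intro h3
    exact Finset.disjoint_left.mp hd h3 (Finset.mem_product.mpr ⟨h0, h1⟩)
  · intro c h0 h1
    rw [m1] at h0 h1
    unfold emx
    rw [decide_eq_true_iff]
    exact Finset.mem_union_right _ (Finset.mem_product.mpr ⟨h0, h1⟩)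
  · intro c hc
    rw [m1, m1] at hc
    unfold emx
    rw [decide_eq_decide, Finset.mem_union, Finset.mem_product]
    constructor
    · rintro (a3 | a3)
      · exact a3
      · exact absurd ⟨a3.1, a3.2⟩ hc
    · intro a3
      exact Or.inl a3

theorem exists_xjk {M : ℕ} {w : ℕ → ℕ} {D : ℝ} (L : XLim M w D) :
    ∃ g : Pt → Pt → ℝ, XJK M w D g := by
  refine ⟨xj L, ⟨?_, ?_, ?_, ?_, ?_⟩, ?_⟩
  · intro X Y
    rw [xj_eq L (xjM_right Y X) (xjM_left Y X)]
    unfold xj
    exact L.symm _ _ _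
  · intro X
    unfold xj
    exact L.diag _ _
  · exact fun ι _ X a => xj_psd L ι X a
  · exact fun σ hσ X Y => xj_inv L σ hσ X Y
  · exact fun X Y v h => xj_rem L X Y v h
  · exact fun X I J hS hd => xj_bad L X I J hS hd

end Pool.Agent.Lib.MP_90b327_co.EX
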