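import Mathlib
import Pool.Agent.Lib.MP_90b327_co.EX.EDefs
import Pool.Agent.Lib.MP_90b327_co.EX.ELim
import Pool.Agent.Lib.MP_90b327_co.EX.EEnd

/-!
MODULE EFin. From `[N₀]^2` to `[N]^2` (copy of NS/NFiber) and the theorem.
-/

set_option autoImplicit false

namespace Pool.Agent.Lib.MP_90b327_co.EX

open Finset Filter Pool.Agent.Lib.MP_90b327_co Pool.Agent.Lib.MP_90b327_co.RB

/-- the embedding of cells -/
private def xfiber_emb {N₀ N : ℕ} (hN : N₀ ≤ N) (c : Fin 2 → Fin N₀) : Fin 2 → Fin N :=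
  fun i => Fin.castLE hN (c i)

private theorem xfiber_inj {N₀ N : ℕ} (hN : N₀ ≤ N) : Function.Injective (xfiber_emb hN) := by
  intro c c' h
  funext i
  exact Fin.castLE_injective hN (congrFun h i)

theorem xfiber (M : ℕ) (w : ℕ → ℕ) (δ : ℝ) (hδ : 0 < δ) (N₀ : ℕ)
    (h : ∀ S : Finset (Finset (Fin 2 → Fin N₀)), δ * 2 ^ (N₀ ^ 2) < (S.card : ℝ) →
      GoodX M w N₀ S) (N : ℕ) (hN : N₀ ≤ N) (S : Finset (Finset (Fin 2 → Fin N)))
    (hS : δ * 2 ^ (N ^ 2) < (S.card : ℝ)) : GoodX M w N S := by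
  classical
  let φ : (Fin 2 → Fin N₀) → (Fin 2 → Fin N) := xfiber_emb hN
  have hφ : Function.Injective φ := xfiber_inj hN
  let Rg : Finset (Fin 2 → Fin N) := Finset.univ.image φ
  have hRgc : Rg.card = N₀ ^ 2 := by
    rw [Finset.card_image_of_injective _ hφ, Finset.card_univ, Fintype.card_fun, Fintype.card_fin,
      Fintype.card_fin]
  -- outside parts
  let Out : Finset (Finset (Fin 2 → Fin N)) := (Finset.univ \ Rg).powerset
  have hOutc : (Out.card : ℝ) * 2 ^ (N₀ ^ 2) = 2 ^ (N ^ 2) := by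
    have h1 : Out.card = 2 ^ (N ^ 2 - N₀ ^ 2) := by
      rw [Finset.card_powerset, Finset.card_sdiff_of_subset (Finset.subset_univ _), hRgc,
        Finset.card_univ, Fintype.card_fun, Fintype.card_fin, Fintype.card_fin]
    have h2 : N₀ ^ 2 ≤ N ^ 2 := by
      have h3 := Finset.card_le_univ Rg
      rw [hRgc, Fintype.card_fun, Fintype.card_fin, Fintype.card_fin] at h3
      exact h3
    rw [h1]
    push_cast
    rw [← pow_add]
    congr 1
    omega
  let SO : Finset (Fin 2 → Fin N) → Finset (Finset (Fin 2 → Fin N₀)) := fun O =>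
    Finset.univ.filter (fun C => O ∪ C.image φ ∈ S)
  -- some fibre is dense
  have hex : ∃ O ∈ Out, δ * 2 ^ (N₀ ^ 2) < ((SO O).card : ℝ) := by
    by_contra hcon
    push Not at hcon
    have h1 : (S.card : ℝ) ≤ ∑ O ∈ Out, ((SO O).card : ℝ) := by
      have h2 : S.card ≤ ∑ O ∈ Out, (SO O).card := by
        rw [← Finset.card_sigma]
        refine Finset.card_le_card_of_injOn
          (fun A => (⟨A \ Rg, Finset.univ.filter (fun c => φ c ∈ A)⟩ :
            (_ : Finset (Fin 2 → Fin N)) × Finset (Fin 2 → Fin N₀))) ?_ ?_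
        · intro A hA
          have hA' : A ∈ S := hA
          have h3 : (A \ Rg) ∪ (Finset.univ.filter (fun c => φ c ∈ A)).image φ = A := by
            ext x
            constructor
            · intro h4
              rcases Finset.mem_union.mp h4 with h4 | h4
              · exact (Finset.mem_sdiff.mp h4).1
              · obtain ⟨c, h4c, rfl⟩ := Finset.mem_image.mp h4
                exact (Finset.mem_filter.mp h4c).2
            · intro h4
              by_cases h5 : x ∈ Rg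
              · obtain ⟨c, _, rfl⟩ := Finset.mem_image.mp h5
                exact Finset.mem_union_right _ (Finset.mem_image.mpr
                  ⟨c, Finset.mem_filter.mpr ⟨Finset.mem_univ _, h4⟩, rfl⟩)
              · exact Finset.mem_union_left _ (Finset.mem_sdiff.mpr ⟨h4, h5⟩)
          refine Finset.mem_coe.mpr (Finset.mem_sigma.mpr ⟨?_, ?_⟩)
          · exact Finset.mem_powerset.mpr (Finset.sdiff_subset_sdiff (Finset.subset_univ _)
              (Finset.Subset.refl _))
          · refine Finset.mem_filter.mpr ⟨Finset.mem_univ _, ?_⟩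
            rw [h3]
            exact hA'
        · intro A _ B _ hAB
          have h3 := Sigma.mk.inj_iff.mp hAB
          obtain ⟨h4, h5⟩ := h3
          have h5 := eq_of_heq h5
          ext x
          by_cases h6 : x ∈ Rg
          · obtain ⟨c, _, rfl⟩ := Finset.mem_image.mp h6
            have h7 := Finset.ext_iff.mp h5 c
            simpa using h7
          · have h7 := Finset.ext_iff.mp h4 x
            rw [Finset.mem_sdiff, Finset.mem_sdiff] at h7
            constructor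
            · intro h8; exact (h7.mp ⟨h8, h6⟩).1
            · intro h8; exact (h7.mpr ⟨h8, h6⟩).1
      exact_mod_cast h2
    have h2 : ∑ O ∈ Out, ((SO O).card : ℝ) ≤ Out.card • (δ * 2 ^ (N₀ ^ 2)) :=
      Finset.sum_le_card_nsmul _ _ _ hcon
    rw [nsmul_eq_mul] at h2
    have h3 : (Out.card : ℝ) * (δ * 2 ^ (N₀ ^ 2)) = δ * 2 ^ (N ^ 2) := by
      rw [← hOutc]; ring
    linarith
  obtain ⟨O, hO, hOc⟩ := hex
  obtain ⟨C, hC, γ₁, γ₂, hsg, hdis, hCu⟩ := h (SO O) hOc
  have hOR : ∀ x ∈ O, x ∉ Rg := fun x hx =>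
    (Finset.mem_sdiff.mp (Finset.mem_powerset.mp hO hx)).2
  have hcl : Function.Injective (Fin.castLE hN) := Fin.castLE_injective hN
  have hbox : bx (γ₁.image (Fin.castLE hN)) (γ₂.image (Fin.castLE hN)) = (bx γ₁ γ₂).image φ := by
    ext x
    constructor
    · intro h0
      obtain ⟨_, h1, h2⟩ := Finset.mem_filter.mp h0
      obtain ⟨a, ha, hax⟩ := Finset.mem_image.mp h1
      obtain ⟨b, hb, hbx⟩ := Finset.mem_image.mp h2
      refine Finset.mem_image.mpr ⟨![a, b], ?_, ?_⟩
      · exact Finset.mem_filter.mpr ⟨Finset.mem_univ _, ha, hb⟩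
      · funext i
        fin_cases i
        · exact hax
        · exact hbx
    · intro h0
      obtain ⟨c, hc, rfl⟩ := Finset.mem_image.mp h0
      obtain ⟨_, h1, h2⟩ := Finset.mem_filter.mp hc
      refine Finset.mem_filter.mpr ⟨Finset.mem_univ _, ?_, ?_⟩
      · exact Finset.mem_image.mpr ⟨c 0, h1, rfl⟩
      · exact Finset.mem_image.mpr ⟨c 1, h2, rfl⟩
  refine ⟨O ∪ C.image φ, (Finset.mem_filter.mp hC).2, γ₁.image (Fin.castLE hN),
    γ₂.image (Fin.castLE hN), ⟨?_, ?_, ?_⟩, ?_, ?_⟩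
  · rw [Finset.card_image_of_injective _ hcl]
    exact hsg.1
  · rw [Finset.card_image_of_injective _ hcl, Finset.card_image_of_injective _ hcl]
    exact hsg.2.1
  · rw [← Finset.image_sdiff _ _ hcl, Finset.card_image_of_injective _ hcl,
      Finset.card_image_of_injective _ hcl]
    exact hsg.2.2
  · rw [hbox, Finset.disjoint_union_left]
    constructor
    · rw [Finset.disjoint_left]
      intro x hx hx'
      obtain ⟨c, _, rfl⟩ := Finset.mem_image.mp hx'
      exact hOR _ hx (Finset.mem_image.mpr ⟨c, Finset.mem_univ _, rfl⟩)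
    · exact (Finset.disjoint_image hφ).mpr hdis
  · rw [hbox, Finset.union_assoc, ← Finset.image_union]
    exact (Finset.mem_filter.mp hCu).2

theorem exb (δ : ℝ) (hδ : 0 < δ) (M : ℕ) (w : ℕ → ℕ) (hw : Tendsto w atTop atTop) :
    ∃ N₀ : ℕ, ∀ N, N₀ ≤ N → ∀ S : Finset (Finset (Fin 2 → Fin N)),
      δ * 2 ^ (N ^ 2) < (S.card : ℝ) →
      ∃ A ∈ S, ∃ γ γ' : Finset (Fin N), γ.Nonempty ∧ M ≤ γ.card ∧ γ'.card = γ.card ∧
        (γ' \ γ).card ≤ w γ.card ∧ Disjoint A (bx γ γ') ∧ A ∪ bx γ γ' ∈ S := by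
  by_contra hcon
  have hall : ∀ N : ℕ, ∃ S : Finset (Finset (Fin 2 → Fin N)), (S.card : ℝ) > δ * 2 ^ (N ^ 2) ∧
      ¬ GoodX (max M 1) w N S := by
    intro N₀
    by_contra hno
    push Not at hno
    apply hcon
    refine ⟨N₀, fun N hN S hS => ?_⟩
    obtain ⟨A, hA, γ, γ', ⟨hM, hcard, hwc⟩, hd, hU⟩ :=
      xfiber (max M 1) w δ hδ N₀ (fun S hS => hno S hS) N hN S hS
    refine ⟨A, hA, γ, γ', ?_, (le_max_left _ _).trans hM, hcard, hwc, hd, hU⟩
    exact Finset.card_pos.mp (lt_of_lt_of_le Nat.zero_lt_one ((le_max_right _ _).trans hM))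
  obtain ⟨δ', hδ', ⟨L⟩⟩ := exists_xlim (max M 1) w δ hall
  obtain ⟨g, hg⟩ := exists_xjk L
  exact no_xjk (le_max_right _ _) hw (hδ.trans_le hδ') hg

end Pool.Agent.Lib.MP_90b327_co.EX
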